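import Pool.Agent.Helper36.ZU.Main2

/-! # Rational vectors -/

namespace Pool.Agent.Helper36.ZU
open Finset MvPolynomial Pool.Agent.Helper11.ZP Pool.Agent.Helper20.ZT Pool.Agent

variable {n : ℕ} {ι : Type*}

section root
variable {R : Type*} [CommRing R] [IsLocalRing R] [IsDomain R]

open IsLocalRing in
/-- a root of unity congruent to `1` modulo `p ^ e` is `1`, for `p` odd -/
theorem root_one {p : ℕ} (hp : p.Prime) (hp2 : 2 < p) (hpm : (p : R) ∈ maximalIdeal R)
    (hp0 : (p : R) ≠ 0) {e N : ℕ} (he : 1 ≤ e) (hN : 0 < N) {ζ s : R} (hζ : ζ ^ N = 1)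
    (h : 1 - ζ = (p : R) ^ e * s) : ζ = 1 := by
  obtain ⟨e', rfl⟩ : ∃ e', e = e' + 1 := ⟨e - 1, by omega⟩
  have h1 : ζ = 1 + p * (-(p ^ e' * s)) := by linear_combination -h
  have h2 := root_eq_one hp hp2 hpm hp0 N hN _ (by rw [← h1]; exact hζ)
  rw [h1, h2, mul_zero, add_zero]

end root

/-- the vector `b / (p ^ e q)` is admissible at `p` for `κ`: `p` divides neither `q` nor the `b i`,
`b i = b j` if `κ i = κ j`, and otherwise `b i ^ (p - 1)` and `b j ^ (p - 1)` are different modulo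
`p ^ e` -/
structure Adm (κ : Fin n → ι) (p e : ℕ) (q : ℤ) (b : Fin n → ℤ) : Prop where
  pos : 1 ≤ e
  den : ¬ (p : ℤ) ∣ q
  num : ∀ i, ¬ (p : ℤ) ∣ b i
  same : ∀ i j, κ i = κ j → b i = b j
  sep : ∀ i j, κ i ≠ κ j → ¬ (p : ℤ) ^ e ∣ b i ^ (p - 1) - b j ^ (p - 1)

/-- the vector `b / (p ^ e q)` -/
noncomputable def vec (p e : ℕ) (q : ℤ) (b : Fin n → ℤ) : Fin n → ℂ := fun i => (b i : ℂ) / ((p : ℂ) ^ e * q)

/-- admissible vectors are separated above `p` -/
theorem Adm.sepAt {κ : Fin n → ι} {p e : ℕ} {q : ℤ} {b : Fin n → ℤ} (h : Adm κ p e q b) (hp : p.Prime)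
    (hp2 : 2 < p) {O₀ : ValuationSubring ℂ} (hpO : (p : ℂ) ∈ O₀.nonunits) : Sep O₀ κ (vec p e q b) := by
  have hp0 : (p : ℂ) ≠ 0 := by exact_mod_cast hp.ne_zero
  have vp := (val_non O₀).1 hpO
  have vp0 : O₀.valuation (p : ℂ) ≠ 0 := by rwa [ne_eq, Valuation.zero_iff]
  have vq : O₀.valuation (q : ℂ) = 1 := int_unit O₀ hp hpO h.den
  have hq0 : (q : ℂ) ≠ 0 := by
    intro h0; rw [h0, map_zero] at vq; exact zero_ne_one vq
  have vb : ∀ i, O₀.valuation (b i : ℂ) = 1 := fun i => int_unit O₀ hp hpO (h.num i)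
  have hb0 : ∀ i, (b i : ℂ) ≠ 0 := by
    intro i h0
    have := vb i
    rw [h0, map_zero] at this; exact zero_ne_one this
  have vvec : ∀ i, O₀.valuation (vec p e q b i) = (O₀.valuation (p : ℂ) ^ e)⁻¹ := by
    intro i
    rw [vec, map_div₀, vb, map_mul, map_pow, vq, mul_one, one_div]
  have vpe : O₀.valuation (p : ℂ) ^ e < 1 := pow_lt_one₀ zero_le vp (by have := h.pos; omega)
  have hpm : ((p : O₀)) ∈ IsLocalRing.maximalIdeal O₀ := by
    rw [← ValuationSubring.coe_mem_nonunits_iff]; simpa using hpO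
  have hpO0 : (p : O₀) ≠ 0 := by
    intro h0
    apply hp0
    have := congrArg (Subtype.val : O₀ → ℂ) h0
    simpa using this
  have hint : ∀ a : ℤ, (a : ℂ) ∈ O₀ := fun a => intCast_mem O₀ a
  refine ⟨fun i hi => ?_, fun i j => by rw [vvec, vvec], fun i j hij => by
    simp only [vec, h.same i j hij], ?_⟩
  · rw [val_mem, vvec] at hi
    exact absurd hi (not_le.2 ((one_lt_inv₀ (zero_lt_iff.2 (pow_ne_zero _ vp0))).2 vpe))
  · intro i j ζ N hN hζ hs
    have hζO : ζ ∈ O₀ := (val_mem O₀).2 (val_root_one O₀ hN hζ).le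
    set s : ℂ := q * (vec p e q b i - ζ * vec p e q b j) with hsdef
    have hsO : s ∈ O₀ := mem_mul O₀ (hint q) hs
    have e1 : (b i : ℂ) - ζ * b j = (p : ℂ) ^ e * s := by
      rw [hsdef]
      simp only [vec]
      field_simp
    by_cases hκ : κ i = κ j
    · refine ⟨?_, hκ⟩
      rw [← h.same i j hκ] at e1
      have hbinv : (b i : ℂ)⁻¹ ∈ O₀ := by rw [val_mem, map_inv₀, vb, inv_one]
      have h6 : (1 : ℂ) - ζ = (p : ℂ) ^ e * (s * (b i : ℂ)⁻¹) := by
        rw [← mul_assoc, ← e1]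
        have := hb0 i
        field_simp
      have h7 := root_one (R := O₀) hp hp2 hpm hpO0 h.pos hN (ζ := ⟨ζ, hζO⟩)
        (s := ⟨s * (b i : ℂ)⁻¹, mem_mul O₀ hsO hbinv⟩)
        (by apply Subtype.ext; push_cast; exact hζ) (by
          apply Subtype.ext
          push_cast
          exact h6)
      exact congrArg (Subtype.val : O₀ → ℂ) h7
    · exfalso
      obtain ⟨t, ht⟩ := pow_congr (R := O₀) hp hp2 hpm hpO0 (h.num j) (h.num i) h.pos hN (ζ := ⟨ζ, hζO⟩)
        (w := ⟨s, hsO⟩) (by apply Subtype.ext; push_cast; exact hζ) (by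
          apply Subtype.ext
          push_cast
          exact e1)
      have ht' := congrArg (Subtype.val : O₀ → ℂ) ht
      push_cast at ht'
      refine h.sep i j hκ (dvd_of_mem O₀ hp hpO (s := (t : ℂ)) t.2 ?_)
      push_cast
      exact ht'

/-! ### Curves -/

lemma dim_mono {B Z : Set (Fin n → ℂ)} (hZ : IsSubvariety Z) (h : B ⊆ Z) : dim B ≤ dim Z := by
  obtain ⟨I, hI, rfl⟩ := hZ
  have hle : vanishingIdeal ℂ (zeroLocus ℂ I) ≤ vanishingIdeal ℂ B := vanishingIdeal_anti_mono h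
  have h1 := trdeg_le_of_surjective (Ideal.Quotient.factorₐ ℂ hle) (Ideal.Quotient.factor_surjective hle)
  have hdom : IsDomain (MvPolynomial (Fin n) ℂ ⧸ vanishingIdeal ℂ (zeroLocus ℂ I)) := by
    rw [IsPrime.vanishingIdeal_zeroLocus]
    exact Ideal.Quotient.isDomain I
  have h2 : Algebra.trdeg ℂ (MvPolynomial (Fin n) ℂ ⧸ vanishingIdeal ℂ (zeroLocus ℂ I)) < Cardinal.aleph0 :=
    trdeg_lt_aleph0_of_finiteType
  exact Cardinal.toNat_le_toNat h1 h2

/-- a subvariety of dimension zero is a point -/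
lemma eq_point {B : Set (Fin n → ℂ)} (hB : IsSubvariety B) (h0 : dim B = 0) : ∃ c : Fin n → ℂ, B = {c} := by
  obtain ⟨I, hI, rfl⟩ := hB
  have hvan : vanishingIdeal ℂ (zeroLocus ℂ I) = I := IsPrime.vanishingIdeal_zeroLocus I
  have hfin : Algebra.trdeg ℂ (MvPolynomial (Fin n) ℂ ⧸ I) < Cardinal.aleph0 := trdeg_lt_aleph0_of_finiteType
  have h1 : Algebra.trdeg ℂ (MvPolynomial (Fin n) ℂ ⧸ I) = 0 := by
    rw [dim, hvan, Cardinal.toNat_eq_zero] at h0
    exact h0.resolve_right (not_le.2 hfin)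
  have halg : Algebra.IsAlgebraic ℂ (MvPolynomial (Fin n) ℂ ⧸ I) := trdeg_eq_zero_iff.1 h1
  have hsurj : Function.Surjective (algebraMap ℂ (MvPolynomial (Fin n) ℂ ⧸ I)) := by
    have : Algebra.IsIntegral ℂ (MvPolynomial (Fin n) ℂ ⧸ I) := Algebra.isAlgebraic_iff_isIntegral.1 halg
    exact (IsAlgClosed.algebraMap_bijective_of_isIntegral (k := ℂ)).2
  choose c hc using fun i : Fin n => hsurj (Ideal.Quotient.mk I (X i))
  have hmem : ∀ i, X i - C (c i) ∈ I := by
    intro i
    rw [← Ideal.Quotient.eq, ← hc i]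
    rfl
  refine ⟨c, Set.Subset.antisymm (fun z hz => ?_) ?_⟩
  · rw [Set.mem_singleton_iff]
    funext i
    have h2 := hz _ (hmem i)
    simpa [sub_eq_zero] using h2
  · intro z hz
    rw [Set.mem_singleton_iff.1 hz]
    intro f hf
    by_contra hcon
    -- `f` is congruent to the constant `f c`
    have h2 : f - C (eval c f) ∈ I := by
      have h3 : ∀ g : MvPolynomial (Fin n) ℂ, Ideal.Quotient.mk I g = algebraMap ℂ _ (eval c g) := by
        intro g
        have h4 : Ideal.Quotient.mkₐ ℂ I = (Algebra.ofId ℂ (MvPolynomial (Fin n) ℂ ⧸ I)).comp (aeval c) := by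
          apply MvPolynomial.algHom_ext
          intro i
          simp only [AlgHom.comp_apply, aeval_X, Algebra.ofId_apply]
          exact (hc i).symm
        have h5 := AlgHom.congr_fun h4 g
        simpa [aeval_eq_eval] using h5
      rw [← Ideal.Quotient.eq, h3 f, h3 (C _), eval_C]
    have h3 : C (eval c f) ∈ I := by
      have := I.sub_mem hf h2
      simpa using this
    rw [aeval_eq_eval] at hcon
    have h4 : IsUnit (C (eval c f) : MvPolynomial (Fin n) ℂ) := (isUnit_iff_ne_zero.2 hcon).map C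
    exact hI.ne_top (Ideal.eq_top_of_isUnit_mem _ h3 h4)

lemma topIn_point (c : Fin n → ℂ) (i : Fin n) : TopIn {i} (X i - C (c i)) := by
  classical
  have hv : (X i - C (c i) : MvPolynomial (Fin n) ℂ).vars ⊆ {i} := by
    refine Finset.Subset.trans (vars_sub_subset _) ?_
    simp
  refine ⟨hv, ?_⟩
  have hdeg : ∀ j, (X i - C (c i) : MvPolynomial (Fin n) ℂ).degreeOf j = if i = j then 1 else 0 := by
    intro j
    apply le_antisymm
    · rw [degreeOf_le_iff]
      intro m hm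
      rw [mem_support_iff, coeff_sub, coeff_X, coeff_C] at hm
      by_cases h1 : Finsupp.single i 1 = m
      · rw [← h1, Finsupp.single_apply]
      · rw [if_neg h1] at hm
        by_cases h2 : (0 : Fin n →₀ ℕ) = m
        · rw [← h2]; simp
        · rw [if_neg h2] at hm
          exact absurd (sub_self _) hm
    · split_ifs with h
      · subst h
        have h1 : Finsupp.single i 1 ∈ (X i - C (c i) : MvPolynomial (Fin n) ℂ).support := by
          rw [mem_support_iff, coeff_sub, coeff_X, coeff_C, if_pos rfl, if_neg]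
          · simp
          · intro h0
            have := DFunLike.congr_fun h0 i
            simp at this
        have h2 := monomial_le_degreeOf i h1
        simpa using h2
      · exact Nat.zero_le _
  have hm : (Finsupp.equivFunOnFinite.symm fun j => (X i - C (c i) : MvPolynomial (Fin n) ℂ).degreeOf j) =
      Finsupp.single i 1 := by
    ext j
    rw [Finsupp.equivFunOnFinite_symm_apply_apply, hdeg, Finsupp.single_apply]
  rw [hm, coeff_sub, coeff_X, coeff_C, if_pos rfl, if_neg]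
  · simp
  · intro h0
    have := DFunLike.congr_fun h0 i
    simp at this

/-- curves are in hereditary general position if they have no point at infinity with two infinite
coordinates, apart from coordinates of the same class which are equal on the curve -/
theorem herGP_curve {κ : Fin n → ι} {Z : Set (Fin n → ℂ)} (hZ : IsSubvariety Z) (h1 : dim Z ≤ 1)
    (hgp : ∀ i j, i ≠ j → (κ i = κ j → ∃ z ∈ Z, z i ≠ z j) →
      ∃ f, TopIn {i, j} f ∧ ∀ z ∈ Z, eval z f = 0) : HerGP κ Z := by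
  intro π _ B hB hBd J hJ' hJ2'
  obtain ⟨J₁, hJ₁, hJ⟩ := Finset.exists_subset_card_eq (show dim B + 1 ≤ J.card by omega)
  have hJ2 : ∀ i ∈ J₁, ∀ j ∈ J₁, i ≠ j → κ i = κ j → ∃ z ∈ B, z i ≠ z j :=
    fun i hi j hj => hJ2' i (hJ₁ hi) j (hJ₁ hj)
  suffices h : ∃ f, TopIn J₁ f ∧ ∀ z ∈ B, eval z f = 0 by
    obtain ⟨f, hf, hfz⟩ := h
    exact ⟨f, ⟨hf.vars.trans hJ₁, hf.top⟩, hfz⟩
  clear hJ2' hJ'
  have hle : dim B ≤ 1 := (dim_mono hZ (hB.2.1.trans Set.inter_subset_left)).trans h1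
  rcases Nat.lt_or_ge (dim B) 1 with h0 | h0
  · have h0' : dim B = 0 := by omega
    obtain ⟨c, rfl⟩ := eq_point hB.1 h0'
    rw [h0', zero_add, Finset.card_eq_one] at hJ
    obtain ⟨i, rfl⟩ := hJ
    exact ⟨_, topIn_point c i, by rintro z rfl; simp⟩
  · have h1' : dim B = 1 := le_antisymm hle h0
    rw [h1'] at hJ
    obtain ⟨i, j, hij, rfl⟩ := Finset.card_eq_two.1 hJ
    obtain ⟨f, hf, hfz⟩ := hgp i j hij (fun hκ => by
      obtain ⟨z, hz, hne⟩ := hJ2 i (by simp) j (by simp) hij hκ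
      exact ⟨z, (hB.2.1 hz).1, hne⟩)
    exact ⟨f, hf, fun z hz => hfz z (hB.2.1 hz).1⟩

end Pool.Agent.Helper36.ZU
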