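import Pool.Agent.Helper36.ZU.Rat

/-! # Constant vectors and algebraic numbers -/

namespace Pool.Agent.Helper36.ZU
open Finset Pool.Agent.Helper11.ZP Pool.Agent.Helper20.ZT Pool.Agent

variable {n : ℕ} {ι : Type*}

lemma one_sub_pow_val (O : ValuationSubring ℂ) {ζ : ℂ} {N : ℕ} (hN : 0 < N) (hζ : ζ ^ N = 1) (k : ℕ) :
    O.valuation (1 - ζ ^ k) ≤ O.valuation (1 - ζ) := by
  have hζO : ζ ∈ O := (val_mem O).2 (val_root_one O hN hζ).le
  have h1 : (1 : ℂ) - ζ ^ k = (1 - ζ) * ∑ i ∈ range k, ζ ^ i := by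
    have := mul_neg_geom_sum ζ k
    exact this.symm
  rw [h1, map_mul]
  refine mul_le_of_le_one_right' ?_
  rw [← val_mem]
  exact sum_mem fun i _ => pow_mem hζO i

/-- the distance of a root of unity from `1` -/
theorem root_far (O : ValuationSubring ℂ) {p : ℕ} (hp : p.Prime) (hpO : (p : ℂ) ∈ O.nonunits)
    {ζ : ℂ} {N : ℕ} (hN : 0 < N) (hζ : ζ ^ N = 1) (hne : ζ ≠ 1) :
    O.valuation (p : ℂ) ≤ O.valuation (1 - ζ) ^ (p - 1) := by
  have hord : 0 < orderOf ζ := orderOf_pos_iff.2 (isOfFinOrder_iff_pow_eq_one.2 ⟨N, hN, hζ⟩)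
  have h1 : orderOf ζ ≠ 1 := fun h => hne (orderOf_eq_one_iff.1 h)
  obtain ⟨ℓ, hℓ, hd⟩ := Nat.exists_prime_and_dvd h1
  obtain ⟨k, hk⟩ := hd
  have hprim : IsPrimitiveRoot (ζ ^ k) ℓ := (IsPrimitiveRoot.orderOf ζ).pow hord (by rw [hk, mul_comm])
  have hprod : (ℓ : ℂ) = ∏ μ ∈ primitiveRoots ℓ ℂ, (1 - μ) := by
    have h2 := Polynomial.cyclotomic_eq_prod_X_sub_primitiveRoots hprim
    have h3 := congrArg (Polynomial.eval 1) h2
    have := Fact.mk hℓ
    rw [Polynomial.eval_one_cyclotomic_prime, Polynomial.eval_prod] at h3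
    rw [h3]
    refine prod_congr rfl fun μ _ => by simp
  have hcard : (primitiveRoots ℓ ℂ).card = ℓ - 1 := by
    rw [hprim.card_primitiveRoots, Nat.totient_prime hℓ]
  have hle : ∀ μ ∈ primitiveRoots ℓ ℂ, O.valuation (1 - μ) ≤ O.valuation (1 - ζ) := by
    intro μ hμ
    rw [mem_primitiveRoots hℓ.pos] at hμ
    have := NeZero.mk hℓ.ne_zero
    obtain ⟨i, -, rfl⟩ := hprim.eq_pow_of_pow_eq_one hμ.pow_eq_one
    rw [← pow_mul]
    exact one_sub_pow_val O hN hζ _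
  have hval : O.valuation (ℓ : ℂ) ≤ O.valuation (1 - ζ) ^ (ℓ - 1) := by
    rw [hprod, map_prod, ← hcard]
    exact prod_le_pow_card _ _ _ hle
  by_cases hlp : ℓ = p
  · rwa [hlp] at hval
  · have h2 : ¬ (p : ℤ) ∣ (ℓ : ℤ) := by
      intro h
      exact hlp ((Nat.prime_dvd_prime_iff_eq hp hℓ).1 (Int.natCast_dvd_natCast.1 h)).symm
    have h3 := int_unit O hp hpO h2
    rw [Int.cast_natCast] at h3
    rw [h3] at hval
    have h4 : 1 ≤ O.valuation (1 - ζ) := by
      by_contra hcon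
      exact absurd hval (not_le.2 (pow_lt_one₀ zero_le (not_le.1 hcon) (by have := hℓ.two_le; omega)))
    exact ((val_non O).1 hpO).le.trans (one_le_pow₀ h4)

/-- **constant vectors** `(c, …, c)` are separated if `p * c ^ (p - 1)` is not integral -/
theorem sep_const {O : ValuationSubring ℂ} {p : ℕ} (hp : p.Prime) (hpO : (p : ℂ) ∈ O.nonunits) {c : ℂ}
    (hc : (p : ℂ) * c ^ (p - 1) ∉ O) : Sep O (fun _ : Fin n => ()) (fun _ => c) := by
  refine ⟨fun i h => hc (mem_mul O (natCast_mem O p) (pow_mem h _)), fun _ _ => rfl, fun _ _ _ => rfl,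
    fun i j ζ N hN hζ h => ⟨?_, rfl⟩⟩
  by_contra hne
  apply hc
  have h1 : c * (1 - ζ) ∈ O := by
    have : c * (1 - ζ) = c - ζ * c := by ring
    rwa [this]
  have h2 := pow_mem h1 (p - 1)
  rw [val_mem, mul_pow, map_mul, map_pow O.valuation (1 - ζ)] at h2
  rw [val_mem, map_mul, mul_comm]
  exact (mul_le_mul_right (root_far O hp hpO hN hζ hne) _).trans h2

/-- the valuation of a rational number is a power of the valuation of `p` -/
lemma rat_val (O : ValuationSubring ℂ) {p : ℕ} (hp : p.Prime) (hpO : (p : ℂ) ∈ O.nonunits) {r : ℚ}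
    (hr : r ≠ 0) : ∃ k : ℤ, O.valuation ((r : ℚ) : ℂ) = O.valuation (p : ℂ) ^ k := by
  have hint : ∀ a : ℤ, a ≠ 0 → ∃ k : ℕ, O.valuation ((a : ℤ) : ℂ) = O.valuation (p : ℂ) ^ k := by
    intro a ha
    obtain ⟨e, q, hq, he⟩ := Nat.exists_eq_pow_mul_and_not_dvd (Int.natAbs_ne_zero.2 ha) p hp.ne_one
    refine ⟨e, ?_⟩
    have h1 : O.valuation ((a : ℤ) : ℂ) = O.valuation ((a.natAbs : ℕ) : ℂ) := by
      rcases Int.natAbs_eq a with h | h
      · have h2 : ((a : ℤ) : ℂ) = ((a.natAbs : ℕ) : ℂ) := (congrArg (Int.cast : ℤ → ℂ) h).trans (Int.cast_natCast _)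
        rw [h2]
      · have h2 : ((a : ℤ) : ℂ) = -((a.natAbs : ℕ) : ℂ) :=
          (congrArg (Int.cast : ℤ → ℂ) h).trans (by rw [Int.cast_neg, Int.cast_natCast])
        rw [h2, Valuation.map_neg]
    rw [h1, he]
    push_cast
    rw [map_mul, map_pow]
    have h2 := int_unit O hp hpO (u := (q : ℤ)) (fun h => hq (Int.natCast_dvd_natCast.1 h))
    rw [Int.cast_natCast] at h2
    rw [h2, mul_one]
  obtain ⟨k, hk⟩ := hint r.num (Rat.num_ne_zero.2 hr)
  obtain ⟨l, hl⟩ := hint r.den (by exact_mod_cast r.den_ne_zero)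
  rw [Int.cast_natCast] at hl
  have h0 : O.valuation (p : ℂ) ≠ 0 := by
    rw [ne_eq, Valuation.zero_iff]; exact_mod_cast hp.ne_zero
  refine ⟨(k : ℤ) - l, ?_⟩
  have h1 : (r : ℂ) = (r.num : ℂ) / (r.den : ℂ) := by
    conv_lhs => rw [← Rat.num_div_den r]
    push_cast
    rfl
  rw [h1, map_div₀, hk, hl, zpow_sub₀ h0, zpow_natCast, zpow_natCast]

/-- a sum of zero has two terms of the same largest valuation -/
lemma exists_two {s : Finset ℕ} {f : ℕ → ℂ} (O : ValuationSubring ℂ) (h0 : ∑ i ∈ s, f i = 0)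
    (hne : ∃ i ∈ s, f i ≠ 0) : ∃ i ∈ s, ∃ j ∈ s, i ≠ j ∧ O.valuation (f i) = O.valuation (f j) ∧ f i ≠ 0 := by
  classical
  obtain ⟨i₀, hi₀, hf⟩ := hne
  obtain ⟨i, hi, hmax⟩ := s.exists_max_image (fun i => O.valuation (f i)) ⟨i₀, hi₀⟩
  have hfi : f i ≠ 0 := by
    intro h
    have := hmax i₀ hi₀
    rw [h, map_zero, le_zero_iff, Valuation.zero_iff] at this
    exact hf this
  by_contra hcon
  push Not at hcon
  have hlt : ∀ j ∈ s.erase i, O.valuation (f j) < O.valuation (f i) := by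
    intro j hj
    refine lt_of_le_of_ne (hmax j (mem_of_mem_erase hj)) fun h => ?_
    exact hfi (hcon i hi j (mem_of_mem_erase hj) (ne_of_mem_erase hj).symm h.symm)
  have h1 : O.valuation (∑ j ∈ s.erase i, f j) < O.valuation (f i) :=
    Valuation.map_sum_lt _ ((Valuation.ne_zero_iff _).2 hfi) hlt
  rw [← add_sum_erase s f hi] at h0
  rw [← neg_eq_of_add_eq_zero_right h0, Valuation.map_neg] at h1
  exact lt_irrefl _ h1

/-- algebraic numbers of small degree -/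
theorem far_of_degree {O : ValuationSubring ℂ} {p : ℕ} (hp : p.Prime) (hpO : (p : ℂ) ∈ O.nonunits) {c : ℂ}
    (hc : c ∉ O) (halg : IsAlgebraic ℚ c) (hdeg : (minpoly ℚ c).natDegree + 1 < p) :
    (p : ℂ) * c ^ (p - 1) ∉ O := by
  have hv1 : 1 < O.valuation c := not_le.1 fun h => hc ((val_mem O).2 h)
  have hint : IsIntegral ℚ c := halg.isIntegral
  have hroot := minpoly.aeval ℚ c
  rw [Polynomial.aeval_eq_sum_range] at hroot
  have hc0 : c ≠ 0 := by rintro rfl; exact hc (zero_mem O)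
  have h0 : O.valuation (p : ℂ) ≠ 0 := by
    rw [ne_eq, Valuation.zero_iff]; exact_mod_cast hp.ne_zero
  have hvp := (val_non O).1 hpO
  obtain ⟨i, hi, j, hj, hij, hval, hne⟩ := exists_two O hroot ⟨(minpoly ℚ c).natDegree, by simp, by
    rw [(minpoly.monic hint).coeff_natDegree, one_smul]
    exact pow_ne_zero _ hc0⟩
  wlog hlt : i < j generalizing i j
  · refine this j hj i hi hij.symm hval.symm ?_ (by omega)
    rw [← Valuation.ne_zero_iff O.valuation, ← hval, Valuation.ne_zero_iff]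
    exact hne
  have hnej : (minpoly ℚ c).coeff j • c ^ j ≠ 0 := by
    rw [← Valuation.ne_zero_iff O.valuation, ← hval, Valuation.ne_zero_iff]
    exact hne
  have hcoi : (minpoly ℚ c).coeff i ≠ 0 := fun h => hne (by rw [h, zero_smul])
  have hcoj : (minpoly ℚ c).coeff j ≠ 0 := fun h => hnej (by rw [h, zero_smul])
  rw [Rat.smul_def, Rat.smul_def, map_mul, map_mul, map_pow, map_pow] at hval
  obtain ⟨k, hk⟩ := rat_val O hp hpO hcoi
  obtain ⟨l, hl⟩ := rat_val O hp hpO hcoj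
  rw [hk, hl] at hval
  have hv0 : O.valuation c ≠ 0 := (Valuation.ne_zero_iff _).2 hc0
  have hjD : j ≤ (minpoly ℚ c).natDegree := by
    have := mem_range.1 hj
    omega
  -- `v(c) ^ (j - i) = v(p) ^ (k - l)`
  have h1 : O.valuation c ^ (j - i) = O.valuation (p : ℂ) ^ (k - l) := by
    rw [zpow_sub₀ h0, eq_div_iff (zpow_ne_zero _ h0)]
    apply mul_left_cancel₀ (pow_ne_zero i hv0)
    rw [← mul_assoc, ← pow_add, show i + (j - i) = j by omega, mul_comm, ← hval, mul_comm]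
  have h2 : k - l < 0 := by
    by_contra hcon
    have h3 : 1 < O.valuation c ^ (j - i) := one_lt_pow₀ hv1 (by omega)
    rw [h1] at h3
    obtain ⟨m, hm⟩ := Int.eq_ofNat_of_zero_le (not_lt.1 hcon)
    rw [hm, zpow_natCast] at h3
    exact absurd h3 (not_lt.2 (pow_le_one₀ zero_le hvp.le))
  have h3 : 1 ≤ O.valuation (p : ℂ) * O.valuation c ^ (j - i) := by
    obtain ⟨m, hm⟩ : ∃ m : ℕ, k - l = -((m : ℤ) + 1) := ⟨(l - k - 1).toNat, by omega⟩
    rw [h1, hm, zpow_neg, zpow_add_one₀ h0, zpow_natCast, mul_inv, ← mul_assoc, mul_comm, ← mul_assoc,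
      inv_mul_cancel₀ h0, one_mul]
    rw [← inv_pow]
    exact one_le_pow₀ ((one_le_inv₀ (zero_lt_iff.2 h0)).2 hvp.le)
  rw [val_mem, map_mul, map_pow, not_le]
  have h4 : O.valuation c ^ (j - i) < O.valuation c ^ (p - 1) := pow_lt_pow_right₀ hv1 (by omega)
  refine lt_of_le_of_lt h3 ?_
  exact mul_lt_mul_of_pos_left h4 (zero_lt_iff.2 h0)

end Pool.Agent.Helper36.ZU
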