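import Pool.Agent.Helper36.ZU.Alg

/-! # Valuation rings with given algebraic numbers -/

namespace Pool.Agent.Helper36.ZU
open Finset Pool.Agent.Helper11.ZP Pool.Agent.Helper20.ZT Pool.Agent

/-- Nullstellensatz -/
lemma exists_point {k R : Type*} [Field k] [IsAlgClosed k] [CommRing R] [Nontrivial R] [Algebra k R]
    [Algebra.FiniteType k R] : Nonempty (R →ₐ[k] k) := by
  obtain ⟨M, hM⟩ := Ideal.exists_maximal R
  let _ : Field (R ⧸ M) := Ideal.Quotient.field M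
  have hfin2 : Module.Finite k (R ⧸ M) := finite_of_finite_type_of_isJacobsonRing k (R ⧸ M)
  have hbij := IsAlgClosed.algebraMap_bijective_of_isIntegral (k := k) (K := R ⧸ M)
  let e := AlgEquiv.ofBijective (Algebra.ofId k (R ⧸ M)) hbij
  exact ⟨e.symm.toAlgHom.comp (Ideal.Quotient.mkₐ k M)⟩

/-- the algebraic numbers -/
noncomputable abbrev QB : IntermediateField ℚ ℂ := algebraicClosure ℚ ℂ

/-- a specialization of finitely many complex numbers to algebraic numbers -/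
lemma exists_special (s : Finset ℂ) : ∃ (R : Subring ℂ) (ψ : R →+* ℂ), (∀ z ∈ s, z ∈ R) ∧
    (∀ r, IsAlgebraic ℚ (ψ r)) ∧ ∀ z, IsAlgebraic ℚ z → ∃ h : z ∈ R, ψ ⟨z, h⟩ = z := by
  have h1 : IsAlgClosed QB := (algebraicClosure.isAlgClosure (F := ℚ) (E := ℂ)).isAlgClosed
  have hfin : Algebra.FiniteType QB (Algebra.adjoin QB (s : Set ℂ)) :=
    (Subalgebra.fg_iff_finiteType _).1 (Subalgebra.fg_adjoin_finset s)
  obtain ⟨φ⟩ := exists_point (k := QB) (R := Algebra.adjoin QB (s : Set ℂ))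
  refine ⟨(Algebra.adjoin QB (s : Set ℂ)).toSubring, (algebraMap QB ℂ).comp φ.toRingHom, fun z hz =>
    Algebra.subset_adjoin (Finset.mem_coe.2 hz), fun r => mem_algebraicClosure_iff.1 (φ r).2, fun z hz => ?_⟩
  have h2 := φ.commutes (⟨z, mem_algebraicClosure_iff.2 hz⟩ : QB)
  exact ⟨(algebraMap QB (Algebra.adjoin QB (s : Set ℂ)) ⟨z, mem_algebraicClosure_iff.2 hz⟩).2,
    congrArg (Subtype.val : QB → ℂ) h2⟩

/-- an algebraic number is integral above almost all primes -/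
lemma exists_denom {z : ℂ} (hz : IsAlgebraic ℚ z) : ∃ m : ℕ, 0 < m ∧ ∀ p : ℕ, p.Prime → ¬ p ∣ m →
    ∀ O : ValuationSubring ℂ, (p : ℂ) ∈ O.nonunits → z ∈ O := by
  have h1 : IsAlgebraic ℤ z := (IsFractionRing.isAlgebraic_iff ℤ ℚ ℂ).2 hz
  obtain ⟨y, hy, hint⟩ := h1.exists_integral_multiple
  refine ⟨y.natAbs, Int.natAbs_pos.2 hy, fun p hp hpm O hpO => ?_⟩
  have h2 : ¬ (p : ℤ) ∣ y := fun h => hpm (Int.natCast_dvd.1 h)
  have h3 := int_unit O hp hpO h2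
  have h4 := mem_of_isIntegral_int O hint
  rw [zsmul_eq_mul, val_mem, map_mul, h3, one_mul, ← val_mem] at h4
  exact h4

/-- valuation rings and specializations -/
lemma place_of_hom {R : Subring ℂ} {ψ : R →+* ℂ} (hψ : ∀ z, IsAlgebraic ℚ z → ∃ h : z ∈ R, ψ ⟨z, h⟩ = z)
    (O : ValuationSubring ℂ) : ∃ O₀ : ValuationSubring ℂ, (∀ z, IsAlgebraic ℚ z → (z ∈ O₀ ↔ z ∈ O)) ∧
      (∀ z, IsAlgebraic ℚ z → z ∈ O.nonunits → z ∈ O₀.nonunits) ∧ ∀ r : R, ψ r ∈ O → (r : ℂ) ∈ O₀ := by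
  -- the ring
  let A : Subring ℂ :=
    { carrier := {z | ∃ r : R, (r : ℂ) = z ∧ ψ r ∈ O}
      mul_mem' := by
        rintro _ _ ⟨r, rfl, hr⟩ ⟨t, rfl, ht⟩
        exact ⟨r * t, rfl, by rw [map_mul]; exact mul_mem hr ht⟩
      one_mem' := ⟨1, rfl, by rw [map_one]; exact one_mem _⟩
      add_mem' := by
        rintro _ _ ⟨r, rfl, hr⟩ ⟨t, rfl, ht⟩
        exact ⟨r + t, rfl, by rw [map_add]; exact add_mem hr ht⟩
      zero_mem' := ⟨0, rfl, by rw [map_zero]; exact zero_mem _⟩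
      neg_mem' := by
        rintro _ ⟨r, rfl, hr⟩
        exact ⟨-r, rfl, by rw [map_neg]; exact neg_mem hr⟩ }
  let I : Ideal A :=
    { carrier := {z | ∃ r : R, (r : ℂ) = z ∧ ψ r ∈ O.nonunits}
      add_mem' := by
        rintro z w ⟨r, hr1, hr⟩ ⟨t, ht1, ht⟩
        refine ⟨r + t, ?_, by rw [map_add]; exact non_add O hr ht⟩
        push_cast
        rw [hr1, ht1]
      zero_mem' := ⟨0, rfl, by rw [map_zero]; exact (val_non O).2 (by simp)⟩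
      smul_mem' := by
        rintro ⟨_, r, rfl, hr⟩ w ⟨t, ht1, ht⟩
        refine ⟨r * t, ?_, by rw [map_mul]; exact non_mul O hr ht⟩
        rw [smul_eq_mul]
        push_cast
        rw [ht1] }
  have hI : I ≠ ⊤ := by
    intro h
    obtain ⟨r, h1, h2⟩ : (1 : A) ∈ I := by rw [h]; trivial
    have h3 : r = 1 := Subtype.ext h1
    rw [h3, map_one, val_non] at h2
    simp at h2
  obtain ⟨O₀, hO1, hO2⟩ := Ideal.image_subset_nonunits_valuationSubring I hI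
  have hin : ∀ z, IsAlgebraic ℚ z → z ∈ O → z ∈ O₀ := by
    intro z hz hzO
    obtain ⟨h1, h2⟩ := hψ z hz
    exact hO1 ⟨⟨z, h1⟩, rfl, by rw [h2]; exact hzO⟩
  have hnon : ∀ z, IsAlgebraic ℚ z → z ∈ O.nonunits → z ∈ O₀.nonunits := by
    intro z hz hzO
    obtain ⟨h1, h2⟩ := hψ z hz
    have hzA : z ∈ A := ⟨⟨z, h1⟩, rfl, by rw [h2]; exact (val_mem O).2 ((val_non O).1 hzO).le⟩
    exact hO2 ⟨⟨z, hzA⟩, ⟨⟨z, h1⟩, rfl, by rw [h2]; exact hzO⟩, rfl⟩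
  refine ⟨O₀, fun z hz => ⟨fun h => ?_, hin z hz⟩, hnon, fun r hr => hO1 ⟨r, rfl, hr⟩⟩
  by_contra hcon
  have hz0 : z ≠ 0 := by rintro rfl; exact hcon (zero_mem O)
  have h1 : z⁻¹ ∈ O.nonunits := by
    rw [val_non, map_inv₀]
    exact inv_lt_one_of_one_lt₀ (not_le.1 fun h' => hcon ((val_mem O).2 h'))
  have h2 := (val_non O₀).1 (hnon _ hz.inv h1)
  rw [map_inv₀] at h2
  exact absurd ((val_mem O₀).1 h) (not_le.2 ((inv_lt_one₀ (zero_lt_iff.2 ((Valuation.ne_zero_iff _).2 hz0))).1 h2))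

/-- **valuation rings of `ℂ` with a given restriction to the algebraic numbers** -/
theorem exists_place' (s : Finset ℂ) : ∃ m : ℕ, 0 < m ∧ ∀ p : ℕ, p.Prime → ¬ p ∣ m →
    ∀ O : ValuationSubring ℂ, (p : ℂ) ∈ O.nonunits → ∃ O₀ : ValuationSubring ℂ,
      (∀ z, IsAlgebraic ℚ z → (z ∈ O₀ ↔ z ∈ O)) ∧ (p : ℂ) ∈ O₀.nonunits ∧ ∀ z ∈ s, z ∈ O₀ := by
  classical
  obtain ⟨R, ψ, hs, halg, hψ⟩ := exists_special s
  choose d hd0 hd using fun r : R => exists_denom (halg r)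
  refine ⟨∏ z ∈ s.attach, d ⟨z.1, hs _ z.2⟩, prod_pos fun z _ => hd0 _, fun p hp hpm O hpO => ?_⟩
  obtain ⟨O₀, h1, h2, h3⟩ := place_of_hom hψ O
  refine ⟨O₀, h1, h2 _ (isAlgebraic_natCast p) hpO, fun z hz => h3 ⟨z, hs z hz⟩ ?_⟩
  refine hd _ p hp (fun h => hpm (h.trans ?_)) O hpO
  exact Finset.dvd_prod_of_mem (fun z : {x // x ∈ s} => d ⟨z.1, hs _ z.2⟩) (mem_attach _ (⟨z, hz⟩ : {x // x ∈ s}))

end Pool.Agent.Helper36.ZU
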