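import Pool.Agent.Helper36.ZU.Curve
import Pool.Agent.Helper36.ZU.Transfer

/-! # Zilber–Pink for translates, uniformly -/

namespace Pool.Agent.Helper36.ZU
open Finset MvPolynomial Pool.Agent.Helper11.ZP Pool.Agent.Helper20.ZT Pool.Agent Pool.Agent.Helper11.ZT

variable {n : ℕ} {ι : Type*}

/-- **Zilber–Pink for the translate `Z + a`**, with the list of the maximal atypical subvarieties: they
are the translates of the maximal diagonally atypical components of `Z`, they are finite in number,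
and every atypical subvariety is contained in one of them -/
structure ZPTranslate (κ : Fin n → ι) (Z : Set (Fin n → ℂ)) (a : Fin n → ℂ) : Prop where
  sub : IsSubvariety (trans Z a)
  dim : dim (trans Z a) = dim Z
  iff : ∀ A, IsMaxAtypical (trans Z a) A ↔ ∃ B, IsMaxDiag κ Z B ∧ A = trans B a
  fin : {A | IsMaxAtypical (trans Z a) A}.Finite
  le : ∀ A, IsAtypical (trans Z a) A → ∃ A', IsMaxAtypical (trans Z a) A' ∧ A ⊆ A'

theorem exists_maxDiag {κ : Fin n → ι} {Z : Set (Fin n → ℂ)} (hZ : IsSubvariety Z) {B : Set (Fin n → ℂ)}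
    (hB : IsDiagAtypical κ Z B) : ∃ B', IsMaxDiag κ Z B' ∧ B ⊆ B' := by
  have hfin : {B | IsDiagAtypical κ Z B}.Finite := (finite_diag hZ).subset fun B ⟨π, _, h, _⟩ => ⟨π, h⟩
  obtain ⟨B', h1, h2⟩ := hfin.exists_le_maximal hB
  refine ⟨B', ⟨h2.1, fun B'' h3 h4 => ?_⟩, h1⟩
  exact Set.Subset.antisymm (h2.2 h3 h4) h4

theorem zp_translate {κ : Fin n → ι} {Z : Set (Fin n → ℂ)} (hZ : IsSubvariety Z)
    {O₀ : ValuationSubring ℂ} (hgp : HerGPAt O₀ κ Z) {a : Fin n → ℂ} (ha : Sep O₀ κ a) :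
    ZPTranslate κ Z a := by
  have h := maxAtypical_iff hZ hgp ha
  refine ⟨isSubvariety_trans hZ a, dim_trans Z a, h, ?_, fun A hA => ?_⟩
  · refine ((finite_maxDiag hZ κ).image fun B => trans B a).subset ?_
    intro A hA
    obtain ⟨B, hB, rfl⟩ := (h A).1 hA
    exact ⟨B, hB, rfl⟩
  · obtain ⟨B, hB, hAB⟩ := cover hZ hgp ha hA
    obtain ⟨B', hB', hBB'⟩ := exists_maxDiag hZ hB
    exact ⟨trans B' a, (h _).2 ⟨B', hB', rfl⟩, hAB.trans (trans_mono a hBB')⟩

/-- hereditary general position holds above almost all primes, at all places of the algebraic numbers -/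
theorem HerGP.eventually' {κ : Fin n → ι} {Z : Set (Fin n → ℂ)} (hZ : IsSubvariety Z) (h : HerGP κ Z) :
    ∃ m : ℕ, 0 < m ∧ ∀ p : ℕ, p.Prime → ¬ p ∣ m → ∀ O : ValuationSubring ℂ, (p : ℂ) ∈ O.nonunits →
      ∃ O₀ : ValuationSubring ℂ, (∀ z, IsAlgebraic ℚ z → (z ∈ O₀ ↔ z ∈ O)) ∧ (p : ℂ) ∈ O₀.nonunits ∧
        HerGPAt O₀ κ Z := by
  classical
  have hfin := finite_diag hZ
  -- the polynomials
  let Q : Set (Fin n → ℂ) → Finset (Fin n) → MvPolynomial (Fin n) ℂ → Prop := fun B J f =>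
    TopIn J f ∧ ∀ z ∈ B, eval z f = 0
  let f : Set (Fin n → ℂ) → Finset (Fin n) → MvPolynomial (Fin n) ℂ := fun B J =>
    if h : ∃ f, Q B J f then h.choose else 0
  have hf : ∀ B J, (∃ f, Q B J f) → Q B J (f B J) := by
    intro B J h
    simp only [f, dif_pos h]
    exact h.choose_spec
  let top : MvPolynomial (Fin n) ℂ → ℂ := fun f => f.coeff (Finsupp.equivFunOnFinite.symm fun i => f.degreeOf i)
  set s : Finset ℂ := (hfin.toFinset ×ˢ (univ : Finset (Finset (Fin n)))).biUnion fun c =>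
    (f c.1 c.2).support.image (f c.1 c.2).coeff ∪ {(top (f c.1 c.2))⁻¹} with hs
  obtain ⟨m, hm0, hm⟩ := exists_place' s
  refine ⟨m, hm0, fun p hp hpm O hpO => ?_⟩
  obtain ⟨O₀, hO⟩ := hm p hp hpm O hpO
  refine ⟨O₀, hO.1, hO.2.1, fun π hπ B hB hexp J hJ hJ2 => ?_⟩
  have hBm : B ∈ hfin.toFinset := by
    rw [Set.Finite.mem_toFinset]
    exact ⟨π, hB⟩
  obtain ⟨htop, hz⟩ := hf B J (h π hπ B hB hexp J hJ hJ2)
  refine ⟨f B J, htop.vars, fun m => ?_, fun hcon => ?_, hz⟩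
  · by_cases hm : m ∈ (f B J).support
    · refine hO.2.2 _ ?_
      rw [hs, mem_biUnion]
      exact ⟨(B, J), mem_product.2 ⟨hBm, mem_univ _⟩, mem_union_left _ (mem_image_of_mem _ hm)⟩
    · rw [notMem_support_iff.1 hm]; exact zero_mem _
  · have hinv : (top (f B J))⁻¹ ∈ O₀ := by
      refine hO.2.2 _ ?_
      rw [hs, mem_biUnion]
      exact ⟨(B, J), mem_product.2 ⟨hBm, mem_univ _⟩, mem_union_right _ (mem_singleton_self _)⟩
    have h1 := non_mul _ hinv hcon
    rw [inv_mul_cancel₀ htop.top, val_non, map_one] at h1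
    exact lt_irrefl _ h1

/-- separation of algebraic vectors depends only on the place of the algebraic numbers -/
lemma Sep.transfer {O O₀ : ValuationSubring ℂ} (h : ∀ z, IsAlgebraic ℚ z → (z ∈ O₀ ↔ z ∈ O))
    {κ : Fin n → ι} {a : Fin n → ℂ} (ha : ∀ i, IsAlgebraic ℚ (a i)) (hs : Sep O κ a) : Sep O₀ κ a := by
  have h0 : ∀ i, a i ≠ 0 := by
    intro i hi
    exact hs.out i (by rw [hi]; exact zero_mem _)
  have hle : ∀ i j, O₀.valuation (a i) ≤ O₀.valuation (a j) := by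
    intro i j
    have h1 : a i / a j ∈ O₀ := by
      rw [h _ (by rw [div_eq_mul_inv]; exact (ha i).mul (ha j).inv), val_mem, map_div₀, hs.val i j]
      exact div_self_le_one _
    rw [val_mem, map_div₀] at h1
    have h2 : 0 < O₀.valuation (a j) := zero_lt_iff.2 ((Valuation.ne_zero_iff _).2 (h0 j))
    rwa [div_le_one₀ h2] at h1
  refine ⟨fun i hi => hs.out i ((h _ (ha i)).1 hi), fun i j => le_antisymm (hle i j) (hle j i), hs.same,
    fun i j ζ N hN hζ hm => hs.sep i j ζ N hN hζ ((h _ ?_).1 hm)⟩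
  have hζa : IsAlgebraic ℚ ζ := (IsIntegral.of_pow (R := ℚ) hN (by rw [hζ]; exact isIntegral_one)).isAlgebraic
  exact (ha i).sub (hζa.mul (ha j))

/-- **uniformity** -/
theorem zp_uniform {κ : Fin n → ι} {Z : Set (Fin n → ℂ)} (hZ : IsSubvariety Z) (h : HerGP κ Z) :
    ∃ m : ℕ, 0 < m ∧ ∀ p : ℕ, p.Prime → ¬ p ∣ m → ∀ O : ValuationSubring ℂ, (p : ℂ) ∈ O.nonunits →
      ∀ a : Fin n → ℂ, (∀ i, IsAlgebraic ℚ (a i)) → Sep O κ a → ZPTranslate κ Z a := by
  obtain ⟨m, hm0, hm⟩ := h.eventually' hZ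
  refine ⟨m, hm0, fun p hp hpm O hpO a ha hs => ?_⟩
  obtain ⟨O₀, h1, -, h3⟩ := hm p hp hpm O hpO
  exact zp_translate hZ h3 (hs.transfer h1 ha)

/-- algebraic constant vectors -/
theorem sep_algebraic {O : ValuationSubring ℂ} {p : ℕ} (hp : p.Prime) (hpO : (p : ℂ) ∈ O.nonunits) {c : ℂ}
    (hc : c ∉ O) (halg : IsAlgebraic ℚ c) (hdeg : (minpoly ℚ c).natDegree + 1 < p) :
    Sep O (fun _ : Fin n => ()) (fun _ => c) := sep_const hp hpO (far_of_degree hp hpO hc halg hdeg)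

/-- **the constant translates of the curve** `z_i = s / (1 - i s)` -/
theorem curve_const' (hn : 3 ≤ n) {p : ℕ} (hp : p.Prime) (hnp : n ≤ p) {O : ValuationSubring ℂ}
    (hpO : (p : ℂ) ∈ O.nonunits) {c : ℂ} (hc : c ∉ O) (halg : IsAlgebraic ℚ c)
    (hdeg : (minpoly ℚ c).natDegree + 1 < p) (A : Set (Fin n → ℂ)) :
    IsAtypical (trans (curve n) (fun _ => c)) A ↔ A = {fun _ => c} := by
  obtain ⟨hZ, h1⟩ := curve_facts (n := n) (by omega)
  have hsep := sep_algebraic (n := n) hp hpO hc halg hdeg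
  have htr : trans ({0} : Set (Fin n → ℂ)) (fun _ => c) = {fun _ => c} := by
    ext z
    rw [mem_trans, Set.mem_singleton_iff, Set.mem_singleton_iff]
    constructor
    · intro h
      funext i
      have := congrFun h i
      simpa [sub_eq_zero] using this
    · rintro rfl
      funext i
      simp
  constructor
  · intro hA
    obtain ⟨B, hB, hAB⟩ := cover hZ (herGPAt_curve hp hnp hpO hZ h1 _) hsep hA
    rw [(isDiag_curve hn).1 hB, htr] at hAB
    obtain ⟨S, ⟨hAs, -, -⟩, -⟩ := hA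
    obtain ⟨z, hz⟩ := IsSubvariety.nonempty' hAs
    refine Set.Subset.antisymm hAB ?_
    rw [Set.singleton_subset_iff, ← Set.mem_singleton_iff.1 (hAB hz)]
    exact hz
  · rintro rfl
    have := isAtypical_trans ((isDiag_curve hn).2 rfl) hsep.same
    rwa [htr] at this

end Pool.Agent.Helper36.ZU
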