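import Pool.Agent.Helper11.ZP.Conseq

/-! # Components, translates and diagonals -/

open UpperHalfPlane

namespace Pool.Agent.Helper36.ZU
open Finset MvPolynomial Pool.Agent.Helper11.ZP

variable {n : ℕ}

/-! ### Components -/

lemma zeroLocus_sup' (I J : Ideal (MvPolynomial (Fin n) ℂ)) :
    zeroLocus ℂ (I ⊔ J) = zeroLocus ℂ I ∩ zeroLocus ℂ J := by
  apply Set.Subset.antisymm
  · exact Set.subset_inter (zeroLocus_anti_mono le_sup_left) (zeroLocus_anti_mono le_sup_right)
  · rintro z ⟨h1, h2⟩ f hf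
    obtain ⟨g, hg, h, hh, rfl⟩ := Submodule.mem_sup.1 hf
    rw [map_add, h1 g hg, h2 h hh, add_zero]

lemma le_of_zeroLocus_subset {I P : Ideal (MvPolynomial (Fin n) ℂ)} (hP : P.IsPrime)
    (h : zeroLocus ℂ P ⊆ zeroLocus ℂ I) : I ≤ P := by
  rw [← IsPrime.vanishingIdeal_zeroLocus (K := ℂ) P]
  intro f hf
  rw [mem_vanishingIdeal_iff]
  exact fun z hz => h hz f hf

/-- the components are the zero loci of minimal primes -/
lemma isComponent_iff {I : Ideal (MvPolynomial (Fin n) ℂ)} {B : Set (Fin n → ℂ)} :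
    IsComponent B (zeroLocus ℂ I) ↔ ∃ P ∈ I.minimalPrimes, B = zeroLocus ℂ P := by
  constructor
  · rintro ⟨⟨Q, hQ, rfl⟩, hsub, hmax⟩
    obtain ⟨P, hP, hPQ⟩ := Ideal.exists_minimalPrimes_le (le_of_zeroLocus_subset hQ hsub)
    exact ⟨P, hP, (hmax _ ⟨P, hP.1.1, rfl⟩ (zeroLocus_anti_mono hPQ)
      (zeroLocus_anti_mono hP.1.2)).symm⟩
  · rintro ⟨P, hP, rfl⟩
    refine ⟨⟨P, hP.1.1, rfl⟩, zeroLocus_anti_mono hP.1.2, ?_⟩
    rintro _ ⟨R, hR, rfl⟩ h1 h2
    have h3 : R ≤ P := le_of_zeroLocus_subset hP.1.1 h1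
    have h4 : I ≤ R := le_of_zeroLocus_subset hR h2
    have h5 : P ≤ R := hP.2 ⟨hR, h4⟩ h3
    rw [le_antisymm h3 h5]

lemma finite_components (I : Ideal (MvPolynomial (Fin n) ℂ)) :
    {B | IsComponent B (zeroLocus ℂ I)}.Finite := by
  refine ((Ideal.finite_minimalPrimes_of_isNoetherianRing _ I).image (zeroLocus ℂ)).subset ?_
  intro B hB
  obtain ⟨P, hP, rfl⟩ := isComponent_iff.1 hB
  exact ⟨P, hP, rfl⟩

lemma exists_component {I : Ideal (MvPolynomial (Fin n) ℂ)} {A : Set (Fin n → ℂ)} (hA : IsSubvariety A)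
    (h : A ⊆ zeroLocus ℂ I) : ∃ B, IsComponent B (zeroLocus ℂ I) ∧ A ⊆ B := by
  obtain ⟨Q, hQ, rfl⟩ := hA
  obtain ⟨P, hP, hPQ⟩ := Ideal.exists_minimalPrimes_le (le_of_zeroLocus_subset hQ h)
  exact ⟨_, isComponent_iff.2 ⟨P, hP, rfl⟩, zeroLocus_anti_mono hPQ⟩

/-! ### Translates -/

/-- the translate `Z + a` -/
def trans (Z : Set (Fin n → ℂ)) (a : Fin n → ℂ) : Set (Fin n → ℂ) := {z | (fun i => z i - a i) ∈ Z}

lemma mem_trans {Z : Set (Fin n → ℂ)} {a z : Fin n → ℂ} : z ∈ trans Z a ↔ (fun i => z i - a i) ∈ Z := Iff.rfl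

lemma trans_trans (Z : Set (Fin n → ℂ)) (a : Fin n → ℂ) : trans (trans Z a) (-a) = Z := by
  ext z
  simp [mem_trans]

lemma trans_trans' (Z : Set (Fin n → ℂ)) (a : Fin n → ℂ) : trans (trans Z (-a)) a = Z := by
  ext z
  simp [mem_trans]

lemma trans_mono {Z W : Set (Fin n → ℂ)} (a : Fin n → ℂ) (h : Z ⊆ W) : trans Z a ⊆ trans W a :=
  fun _ hz => h hz

lemma trans_subset_iff {Z W : Set (Fin n → ℂ)} (a : Fin n → ℂ) : trans Z a ⊆ trans W a ↔ Z ⊆ W := by
  refine ⟨fun h => ?_, trans_mono a⟩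
  have := trans_mono (-a) h
  rwa [trans_trans, trans_trans] at this

lemma trans_inj {Z W : Set (Fin n → ℂ)} (a : Fin n → ℂ) : trans Z a = trans W a ↔ Z = W := by
  refine ⟨fun h => ?_, fun h => by rw [h]⟩
  rw [← trans_trans Z a, h, trans_trans]

lemma trans_inter (Z W : Set (Fin n → ℂ)) (a : Fin n → ℂ) : trans (Z ∩ W) a = trans Z a ∩ trans W a := rfl

/-- the substitution `T_i ↦ T_i + a_i` -/
noncomputable def shift (a : Fin n → ℂ) : MvPolynomial (Fin n) ℂ ≃ₐ[ℂ] MvPolynomial (Fin n) ℂ :=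
  AlgEquiv.ofAlgHom (aeval fun i => X i + C (a i)) (aeval fun i => X i - C (a i))
    (by
      apply MvPolynomial.algHom_ext
      intro i
      simp)
    (by
      apply MvPolynomial.algHom_ext
      intro i
      simp)

lemma eval_shift (a z : Fin n → ℂ) (f : MvPolynomial (Fin n) ℂ) :
    eval z (shift a f) = eval (fun i => z i + a i) f := by
  change eval z (aeval (fun i => X i + C (a i)) f) = _
  rw [← aeval_eq_eval, ← aeval_eq_eval, ← AlgHom.comp_apply]
  congr 1
  apply MvPolynomial.algHom_ext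
  intro i
  simp

lemma vanishingIdeal_trans (Z : Set (Fin n → ℂ)) (a : Fin n → ℂ) :
    vanishingIdeal ℂ (trans Z a) = (vanishingIdeal ℂ Z).comap (shift a : MvPolynomial (Fin n) ℂ →+* MvPolynomial (Fin n) ℂ) := by
  ext f
  rw [Ideal.mem_comap, mem_vanishingIdeal_iff, mem_vanishingIdeal_iff]
  constructor
  · intro h z hz
    have h1 := h (fun i => z i + a i) (by simpa [mem_trans] using hz)
    rw [aeval_eq_eval] at h1 ⊢
    exact (eval_shift a z f).trans h1
  · intro h z hz
    have h1 := h _ hz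
    rw [aeval_eq_eval] at h1 ⊢
    have h2 := eval_shift a (fun i => z i - a i) f
    simp only [sub_add_cancel] at h2
    exact h2.symm.trans h1

lemma dim_trans (Z : Set (Fin n → ℂ)) (a : Fin n → ℂ) : dim (trans Z a) = dim Z := by
  have e : (MvPolynomial (Fin n) ℂ ⧸ vanishingIdeal ℂ (trans Z a)) ≃ₐ[ℂ]
      (MvPolynomial (Fin n) ℂ ⧸ vanishingIdeal ℂ Z) := by
    refine Ideal.quotientEquivAlg _ _ (shift a) ?_
    rw [vanishingIdeal_trans]
    exact (Ideal.map_comap_of_surjective _ (shift a).surjective _).symm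
  rw [dim, dim, e.trdeg_eq]

lemma isSubvariety_trans {Z : Set (Fin n → ℂ)} (hZ : IsSubvariety Z) (a : Fin n → ℂ) :
    IsSubvariety (trans Z a) := by
  obtain ⟨I, hI, rfl⟩ := hZ
  refine ⟨I.comap (shift a : MvPolynomial (Fin n) ℂ →+* MvPolynomial (Fin n) ℂ), Ideal.comap_isPrime _ _, ?_⟩
  ext z
  constructor
  · intro hz g hg
    have h1 := hz _ (Ideal.mem_comap.1 hg)
    rw [aeval_eq_eval] at h1 ⊢
    have h2 := eval_shift a (fun i => z i - a i) g
    simp only [sub_add_cancel] at h2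
    exact h2.symm.trans h1
  · intro hz f hf
    have h1 := hz ((shift a).symm f) (by
      rw [Ideal.mem_comap]
      change shift a ((shift a).symm f) ∈ I
      rwa [AlgEquiv.apply_symm_apply])
    rw [aeval_eq_eval] at h1 ⊢
    have h2 := eval_shift a (fun i => z i - a i) ((shift a).symm f)
    simp only [sub_add_cancel] at h2
    rw [AlgEquiv.apply_symm_apply] at h2
    exact h2.trans h1

lemma isComponent_trans {B W : Set (Fin n → ℂ)} (h : IsComponent B W) (a : Fin n → ℂ) :
    IsComponent (trans B a) (trans W a) := by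
  refine ⟨isSubvariety_trans h.1 a, trans_mono a h.2.1, fun C hC h1 h2 => ?_⟩
  have h3 := h.2.2 (trans C (-a)) (isSubvariety_trans hC _) (by
    have := trans_mono (-a) h1
    rwa [trans_trans] at this) (by
    have := trans_mono (-a) h2
    rwa [trans_trans] at this)
  rw [← h3, trans_trans']

/-! ### Diagonals -/

/-- the points whose coordinates in the same class of `π` are equal -/
def Del (π : Fin n → Fin n) : Set (Fin n → ℂ) := {z | ∀ i j, π i = π j → z i = z j}

/-- the number of classes of `π` -/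
def ncl (π : Fin n → Fin n) : ℕ := (univ.image π).card

/-- the ideal of a diagonal -/
noncomputable def delIdeal (π : Fin n → Fin n) : Ideal (MvPolynomial (Fin n) ℂ) :=
  Ideal.span {f | ∃ i j, π i = π j ∧ f = X i - X j}

lemma zeroLocus_del (π : Fin n → Fin n) : zeroLocus ℂ (delIdeal π) = Del π := by
  rw [delIdeal, zeroLocus_span]
  ext z
  constructor
  · intro h i j hij
    have := h (X i - X j) ⟨i, j, hij, rfl⟩
    simpa [sub_eq_zero] using this
  · rintro h _ ⟨i, j, hij, rfl⟩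
    simp [h i j hij]

/-- a diagonal as a special subvariety -/
noncomputable def diagData (π : Fin n → Fin n) : SpecialData n where
  r := ncl π
  cls i := some ((univ.image π).equivFin ⟨π i, mem_image_of_mem _ (mem_univ _)⟩)
  surj s := by
    obtain ⟨⟨u, hu⟩, rfl⟩ := (univ.image π).equivFin.surjective s
    obtain ⟨i, -, rfl⟩ := mem_image.1 hu
    exact ⟨i, rfl⟩
  c _ := 0
  hc i h := absurd h (by simp)
  g _ := 1
  hg _ := by simp

lemma diagData_cls {π : Fin n → Fin n} {i j : Fin n} : (diagData π).cls i = (diagData π).cls j ↔ π i = π j := by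
  constructor
  · intro h
    have h1 := (univ.image π).equivFin.injective (Option.some_injective _ h)
    exact congrArg Subtype.val h1
  · intro h
    simp only [diagData]
    congr 2
    exact Subtype.ext h

lemma diagData_carrier (π : Fin n → Fin n) : (diagData π).carrier = Del π := by
  have hone : ∀ (i : Fin n) (τ τ' : ℍ), ((τ' : ℂ) * ((diagData π).g i 1 0 * (τ : ℂ) + (diagData π).g i 1 1) =
      (diagData π).g i 0 0 * (τ : ℂ) + (diagData π).g i 0 1) ↔ τ' = τ := by
    intro i τ τ'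
    simp only [diagData, Matrix.one_apply]
    norm_num
  ext z
  constructor
  · intro hz i j hij
    obtain ⟨s, hs⟩ : ∃ s, (diagData π).cls i = some s := ⟨_, rfl⟩
    obtain ⟨τ, hτ⟩ := hz.2 s
    obtain ⟨τ₁, h1, h1'⟩ := hτ i hs
    obtain ⟨τ₂, h2, h2'⟩ := hτ j (by rw [← hs]; exact (diagData_cls.2 hij).symm)
    rw [hone] at h1 h2
    rw [h1', h2', h1, h2]
  · intro hz
    refine ⟨fun i hi => absurd hi (by simp [diagData]), fun s => ?_⟩
    obtain ⟨i, hi⟩ := (diagData π).surj s
    obtain ⟨τ, hτ⟩ := jInv_surjective (z i)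
    refine ⟨τ, fun j hj => ⟨τ, (hone _ _ _).2 rfl, ?_⟩⟩
    rw [hτ]
    exact hz j i (diagData_cls.1 (hj.trans hi.symm))

lemma dim_del_le (π : Fin n → Fin n) : dim (Del π) ≤ ncl π := by
  set B := MvPolynomial (Fin n) ℂ ⧸ vanishingIdeal ℂ (Del π) with hB
  let lab : Fin n → Fin (ncl π) := fun i => (univ.image π).equivFin ⟨π i, mem_image_of_mem _ (mem_univ _)⟩
  have hlab : ∀ i j, lab i = lab j → π i = π j := fun i j h =>
    congrArg Subtype.val ((univ.image π).equivFin.injective h)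
  have hsurj : ∀ s : Fin (ncl π), ∃ i, lab i = s := by
    intro s
    obtain ⟨⟨u, hu⟩, rfl⟩ := (univ.image π).equivFin.surjective s
    obtain ⟨i, -, rfl⟩ := mem_image.1 hu
    exact ⟨i, rfl⟩
  choose idx hidx using hsurj
  let f : MvPolynomial (Fin (ncl π)) ℂ →ₐ[ℂ] B :=
    aeval fun s : Fin (ncl π) => Ideal.Quotient.mk (vanishingIdeal ℂ (Del π)) (X (idx s))
  have hr : (Ideal.Quotient.mkₐ ℂ (vanishingIdeal ℂ (Del π))) = f.comp (rename lab) := by
    apply MvPolynomial.algHom_ext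
    intro i
    have h1 : (f.comp (rename lab)) (X i) = Ideal.Quotient.mk (vanishingIdeal ℂ (Del π)) (X (idx (lab i))) := by
      rw [AlgHom.comp_apply, rename_X, aeval_X]
    rw [h1]
    change Ideal.Quotient.mk (vanishingIdeal ℂ (Del π)) (X i) = _
    rw [Ideal.Quotient.eq, mem_vanishingIdeal_iff]
    intro z hz
    rw [aeval_eq_eval]
    change eval z (X i - X (idx (lab i))) = 0
    rw [map_sub, eval_X, eval_X, sub_eq_zero]
    exact hz _ _ (hlab _ _ (hidx _).symm)
  have hf : Function.Surjective f := by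
    intro y
    obtain ⟨g, rfl⟩ := Ideal.Quotient.mk_surjective y
    exact ⟨rename lab g, (AlgHom.congr_fun hr g).symm⟩
  have h1 := trdeg_le_of_surjective f hf
  rw [MvPolynomial.trdeg_of_isDomain] at h1
  simp only [Cardinal.mk_fintype, Fintype.card_fin, Cardinal.lift_natCast] at h1
  have h2 := Cardinal.toNat_le_toNat h1 (Cardinal.natCast_lt_aleph0)
  rw [dim]
  simpa using h2

lemma trans_del {π : Fin n → Fin n} {a : Fin n → ℂ} (h : ∀ i j, π i = π j → a i = a j) :
    trans (Del π) a = Del π := by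
  ext z
  constructor
  · intro hz i j hij
    have h1 := hz i j hij
    dsimp only at h1
    rw [h i j hij] at h1
    exact sub_left_injective h1
  · intro hz i j hij
    dsimp only
    rw [h i j hij, hz i j hij]

end Pool.Agent.Helper36.ZU
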