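import Pool.Agent.Helper36.ZU.Main1
import Pool.Agent.Helper36.ZU.Geo

/-! # The maximal atypical subvarieties of a translate -/

namespace Pool.Agent.Helper36.ZU
open Finset MvPolynomial Pool.Agent.Helper11.ZP Pool.Agent.Helper20.ZT Pool.Agent

variable {n : ℕ} {ι : Type*}

/-- `A` is a maximal atypical subvariety of `V` -/
def IsMaxAtypical (V A : Set (Fin n → ℂ)) : Prop :=
  IsAtypical V A ∧ ∀ A', IsAtypical V A' → A ⊆ A' → A' = A

/-- `B` is a component of too large dimension of the intersection of `Z` with a diagonal, given by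
equations `z i = z j` with `κ i = κ j` -/
def IsDiagAtypical (κ : Fin n → ι) (Z B : Set (Fin n → ℂ)) : Prop :=
  ∃ π : Fin n → Fin n, (∀ i j, π i = π j → κ i = κ j) ∧ IsComponent B (Z ∩ Del π) ∧
    dim Z + ncl π < dim B + n

/-- `B` is maximal with `IsDiagAtypical` -/
def IsMaxDiag (κ : Fin n → ι) (Z B : Set (Fin n → ℂ)) : Prop :=
  IsDiagAtypical κ Z B ∧ ∀ B', IsDiagAtypical κ Z B' → B ⊆ B' → B' = B

/-- hereditary general position at the cusps: a condition on the components of the expected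
dimension of the intersections of `Z` with the diagonals -/
def HerGP (κ : Fin n → ι) (Z : Set (Fin n → ℂ)) : Prop :=
  ∀ π : Fin n → Fin n, (∀ i j, π i = π j → κ i = κ j) → ∀ B, IsComponent B (Z ∩ Del π) →
    dim B + n ≤ dim Z + ncl π → ∀ J : Finset (Fin n), J.card + n = dim Z + ncl π + 1 →
      (∀ i ∈ J, ∀ j ∈ J, i ≠ j → κ i = κ j → ∃ z ∈ B, z i ≠ z j) →
        ∃ f, TopIn J f ∧ ∀ z ∈ B, eval z f = 0

/-- hereditary general position at the cusps above `O₀` -/
def HerGPAt (O₀ : ValuationSubring ℂ) (κ : Fin n → ι) (Z : Set (Fin n → ℂ)) : Prop :=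
  ∀ π : Fin n → Fin n, (∀ i j, π i = π j → κ i = κ j) → ∀ B, IsComponent B (Z ∩ Del π) →
    dim B + n ≤ dim Z + ncl π → ∀ J : Finset (Fin n), J.card + n = dim Z + ncl π + 1 →
      (∀ i ∈ J, ∀ j ∈ J, i ≠ j → κ i = κ j → ∃ z ∈ B, z i ≠ z j) →
        ∃ f : MvPolynomial (Fin n) ℂ, f.vars ⊆ J ∧ (∀ m, f.coeff m ∈ O₀) ∧
          f.coeff (Finsupp.equivFunOnFinite.symm fun i => f.degreeOf i) ∉ O₀.nonunits ∧
          ∀ z ∈ B, eval z f = 0

lemma closed_inter {Z : Set (Fin n → ℂ)} (hZ : IsSubvariety Z) (π : Fin n → Fin n) :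
    ∃ I : Ideal (MvPolynomial (Fin n) ℂ), Z ∩ Del π = zeroLocus ℂ I := by
  obtain ⟨I, -, rfl⟩ := hZ
  exact ⟨I ⊔ delIdeal π, by rw [zeroLocus_sup', zeroLocus_del]⟩

/-- a diagonally atypical component gives an atypical subvariety of the translate -/
theorem isAtypical_trans {κ : Fin n → ι} {Z B : Set (Fin n → ℂ)} (hB : IsDiagAtypical κ Z B)
    {a : Fin n → ℂ} (ha : ∀ i j, κ i = κ j → a i = a j) : IsAtypical (trans Z a) (trans B a) := by
  obtain ⟨π, hπ, hcomp, hdim⟩ := hB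
  refine ⟨diagData π, ?_, ?_⟩
  · have h1 := isComponent_trans hcomp a
    rwa [trans_inter, trans_del (fun i j hij => ha i j (hπ i j hij)), ← diagData_carrier] at h1
  · rw [dim_trans, dim_trans, diagData_carrier]
    have := dim_del_le π
    omega

/-- **every atypical subvariety is contained in a diagonal one** -/
theorem cover {κ : Fin n → ι} {Z : Set (Fin n → ℂ)} (hZ : IsSubvariety Z)
    {O₀ : ValuationSubring ℂ} (hgp : HerGPAt O₀ κ Z) {a : Fin n → ℂ} (ha : Sep O₀ κ a)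
    {A : Set (Fin n → ℂ)} (hA : IsAtypical (trans Z a) A) :
    ∃ B, IsDiagAtypical κ Z B ∧ A ⊆ trans B a := by
  classical
  obtain ⟨S, ⟨hAs, hAVS, hAmax⟩, hlt⟩ := hA
  -- the partition
  let r : Setoid (Fin n) :=
    { r := fun i j => κ i = κ j ∧ ∀ y ∈ A, y i = y j
      iseqv := ⟨fun i => ⟨rfl, fun _ _ => rfl⟩, fun h => ⟨h.1.symm, fun y hy => (h.2 y hy).symm⟩,
        fun h h' => ⟨h.1.trans h'.1, fun y hy => (h.2 y hy).trans (h'.2 y hy)⟩⟩ }
  set π : Fin n → Fin n := fun i => (Quotient.mk r i).out with hπdef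
  have hout : ∀ i, κ (π i) = κ i ∧ ∀ y ∈ A, y (π i) = y i := fun i => Quotient.mk_out (s := r) i
  have hπ : ∀ i j, π i = π j ↔ (κ i = κ j ∧ ∀ y ∈ A, y i = y j) := by
    intro i j
    constructor
    · intro h
      obtain ⟨h1, h2⟩ := hout i
      obtain ⟨h3, h4⟩ := hout j
      exact ⟨by rw [← h1, ← h3, h], fun y hy => by rw [← h2 y hy, ← h4 y hy, h]⟩
    · intro h
      have h1 : Quotient.mk r i = Quotient.mk r j := Quotient.sound h
      simp only [hπdef, h1]
  have hππ : ∀ i, π (π i) = π i := fun i => (hπ _ _).2 (hout i)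
  have hπκ : ∀ i j, π i = π j → κ i = κ j := fun i j h => ((hπ i j).1 h).1
  -- the component
  have hA' : trans A (-a) ⊆ Z ∩ Del π := by
    intro z hz
    have h1 := (hAVS hz).1
    refine ⟨?_, fun i j hij => ?_⟩
    · have h2 : trans (trans Z a) (-a) = Z := trans_trans Z a
      rw [← h2]
      exact h1
    · obtain ⟨h2, h3⟩ := (hπ i j).1 hij
      have h4 := h3 _ hz
      have h5 : a i = a j := ha.same i j h2
      simp only [Pi.neg_apply, h5] at h4
      exact sub_left_injective h4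
  obtain ⟨I, hI⟩ := closed_inter hZ π
  rw [hI] at hA'
  obtain ⟨B, hB, hAB⟩ := exists_component (isSubvariety_trans hAs _) hA'
  rw [← hI] at hB
  have hAB' : A ⊆ trans B a := by
    have := trans_mono a hAB
    rwa [trans_trans'] at this
  refine ⟨B, ⟨π, hπκ, hB, ?_⟩, hAB'⟩
  by_contra hexp
  have hexp' : dim B + n ≤ dim Z + ncl π := not_lt.1 hexp
  have hcount := ncl_le hAs S (fun y hy => (hAVS hy).2) O₀ ha (d' := dim Z + ncl π - n) hπ hππ (by
      intro J hJ hJ2
      obtain ⟨f, h1, h2, h3, h4⟩ := hgp π hπκ B hB hexp' J (by omega) (by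
        intro i hi j hj hij hκij
        obtain ⟨y, hy, hyij⟩ := hJ2 i hi j hj hij hκij
        refine ⟨_, hAB' hy, ?_⟩
        intro h
        apply hyij
        rw [ha.same i j hκij] at h
        exact sub_left_injective h)
      exact ⟨f, h1, h2, h3, fun y hy => h4 _ (hAB' hy)⟩)
  have h1 := S.le_dim
  rw [dim_trans] at hlt
  change ncl π + dim A ≤ S.r + (dim Z + ncl π - n) at hcount
  omega

/-- **the maximal atypical subvarieties of the translate** -/
theorem maxAtypical_iff {κ : Fin n → ι} {Z : Set (Fin n → ℂ)} (hZ : IsSubvariety Z)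
    {O₀ : ValuationSubring ℂ} (hgp : HerGPAt O₀ κ Z) {a : Fin n → ℂ} (ha : Sep O₀ κ a)
    (A : Set (Fin n → ℂ)) :
    IsMaxAtypical (trans Z a) A ↔ ∃ B, IsMaxDiag κ Z B ∧ A = trans B a := by
  constructor
  · rintro ⟨hA, hmax⟩
    obtain ⟨B, hB, hAB⟩ := cover hZ hgp ha hA
    have h1 := hmax _ (isAtypical_trans hB ha.same) hAB
    refine ⟨B, ⟨hB, fun B' hB' hBB' => ?_⟩, h1.symm⟩
    have h2 := hmax _ (isAtypical_trans hB' ha.same) (by rw [← h1]; exact trans_mono _ hBB')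
    exact (trans_inj _).1 (h2.trans h1.symm)
  · rintro ⟨B, ⟨hB, hmax⟩, rfl⟩
    refine ⟨isAtypical_trans hB ha.same, fun A' hA' hsub => ?_⟩
    obtain ⟨B'', hB'', hAB''⟩ := cover hZ hgp ha hA'
    have h1 := hmax B'' hB'' ((trans_subset_iff _).1 (hsub.trans hAB''))
    rw [h1] at hAB''
    exact Set.Subset.antisymm hAB'' hsub

/-- the diagonally atypical components are finite in number -/
theorem finite_diag {Z : Set (Fin n → ℂ)} (hZ : IsSubvariety Z) :
    {B | ∃ π : Fin n → Fin n, IsComponent B (Z ∩ Del π)}.Finite := by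
  rw [Set.ofPred_exists]
  refine Set.finite_iUnion fun π => ?_
  obtain ⟨I, hI⟩ := closed_inter hZ π
  rw [hI]
  exact finite_components I

theorem finite_maxDiag {Z : Set (Fin n → ℂ)} (hZ : IsSubvariety Z) (κ : Fin n → ι) :
    {B | IsMaxDiag κ Z B}.Finite := by
  refine (finite_diag hZ).subset ?_
  rintro B ⟨⟨π, -, h, -⟩, -⟩
  exact ⟨π, h⟩

/-- hereditary general position holds above almost all primes -/
theorem HerGP.eventually {κ : Fin n → ι} {Z : Set (Fin n → ℂ)} (hZ : IsSubvariety Z) (h : HerGP κ Z) :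
    ∃ p₀ : ℕ, ∀ p : ℕ, p.Prime → p₀ ≤ p →
      ∃ O₀ : ValuationSubring ℂ, (p : ℂ) ∈ O₀.nonunits ∧ HerGPAt O₀ κ Z := by
  classical
  have hfin := finite_diag hZ
  -- the polynomials
  let Q : Set (Fin n → ℂ) → Finset (Fin n) → MvPolynomial (Fin n) ℂ → Prop := fun B J f =>
    TopIn J f ∧ ∀ z ∈ B, eval z f = 0
  let f : Set (Fin n → ℂ) → Finset (Fin n) → MvPolynomial (Fin n) ℂ := fun B J =>
    if h : ∃ f, Q B J f then h.choose else 0
  have hf : ∀ B J, (∃ f, Q B J f) → Q B J (f B J) := by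
    intro B J h
    simp only [f, dif_pos h]
    exact h.choose_spec
  let top : MvPolynomial (Fin n) ℂ → ℂ := fun f => f.coeff (Finsupp.equivFunOnFinite.symm fun i => f.degreeOf i)
  set s : Finset ℂ := (hfin.toFinset ×ˢ (univ : Finset (Finset (Fin n)))).biUnion fun c =>
    (f c.1 c.2).support.image (f c.1 c.2).coeff ∪ {(top (f c.1 c.2))⁻¹} with hs
  obtain ⟨p₁, hp₁⟩ := Helper91.ZT.exists_place s 1 one_ne_zero
  refine ⟨p₁, fun p hp hpp => ?_⟩
  obtain ⟨O₀, hO⟩ := hp₁ p hp hpp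
  refine ⟨O₀, hO.1, fun π hπ B hB hexp J hJ hJ2 => ?_⟩
  have hBm : B ∈ hfin.toFinset := by
    rw [Set.Finite.mem_toFinset]
    exact ⟨π, hB⟩
  obtain ⟨htop, hz⟩ := hf B J (h π hπ B hB hexp J hJ hJ2)
  refine ⟨f B J, htop.vars, fun m => ?_, fun hcon => ?_, hz⟩
  · by_cases hm : m ∈ (f B J).support
    · refine hO.2.1 _ ?_
      rw [hs, mem_biUnion]
      exact ⟨(B, J), mem_product.2 ⟨hBm, mem_univ _⟩, mem_union_left _ (mem_image_of_mem _ hm)⟩
    · rw [notMem_support_iff.1 hm]; exact zero_mem _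
  · have hinv : (top (f B J))⁻¹ ∈ O₀ := by
      refine hO.2.1 _ ?_
      rw [hs, mem_biUnion]
      exact ⟨(B, J), mem_product.2 ⟨hBm, mem_univ _⟩, mem_union_right _ (mem_singleton_self _)⟩
    have h1 := non_mul _ hinv hcon
    rw [inv_mul_cancel₀ htop.top, val_non, map_one] at h1
    exact lt_irrefl _ h1

end Pool.Agent.Helper36.ZU
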