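import Pool.Agent.Helper11.ZU.Level
import Pool.Agent.Helper11.ZU.Dim
import Pool.Agent.Helper36.ZU.Main2

/-! # Zilber–Pink for rational translates: assembly -/

namespace Pool.Agent.Helper36.ZU
open Finset MvPolynomial Pool.Agent.Helper11.ZP Pool.Agent.Helper20.ZT Pool.Agent
open Pool.Agent.Helper11.ZU Pool.Agent.Helper11.ZI

variable {n : ℕ}

/-- the interface: the modular relation of level `m`, and the special hypersurfaces -/
structure ModRel (n : ℕ) (R : ℕ → ℂ → ℂ → Prop) : Prop where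
  rel : ∀ (S : SpecialData n) (i j : Fin n) (s : Fin S.r) (z : Fin n → ℂ), S.cls i = some s →
    S.cls j = some s → z ∈ S.carrier → ∃ m : ℕ, 0 < m ∧ R m (z i) (z j) ∧
      ∀ (p : ℕ) (O : ValuationSubring ℂ), p.Prime → (p : ℂ) ∈ O.nonunits → RigG p O m (z i) (z j)
  hyp : ∀ (i j : Fin n) (m : ℕ), i ≠ j → 0 < m → ∃ (H : SpecialData n) (f : MvPolynomial (Fin n) ℂ),
    dim H.carrier < n ∧ (∀ z, R m (z i) (z j) → eval z f = 0) ∧ ∀ z, eval z f = 0 → z ∈ H.carrier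

/-- every `d + 1` of the denominators of `a` have a common prime factor which does not divide `m₀` -/
def Linked (d m₀ : ℕ) (a : Fin n → ℚ) : Prop :=
  ∀ J : Finset (Fin n), J.card = d + 1 → ∃ p : ℕ, p.Prime ∧ ¬ p ∣ m₀ ∧ ∀ i ∈ J, p ∣ (a i).den

/-- the bound for the levels -/
def lev (a : Fin n → ℚ) : ℕ := (∏ i, (a i).den) ^ 4

lemma den_le (a : Fin n → ℚ) (i : Fin n) : (a i).den ≤ ∏ i, (a i).den := by
  refine Nat.le_of_dvd (Finset.prod_pos fun i _ => (a i).den_pos) ?_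
  exact Finset.dvd_prod_of_mem _ (mem_univ i)

/-- **the levels are bounded** -/
theorem exists_level {R : ℕ → ℂ → ℂ → Prop} (hR : ModRel n R) {d : ℕ} {Z : Set (Fin n → ℂ)}
    (hZ : GenPos d Z) : ∃ m₀ : ℕ, 0 < m₀ ∧ ∀ a : Fin n → ℚ, Linked d m₀ a →
      ∀ S : SpecialData n, dim S.carrier + d < n → ∀ x ∈ S.carrier, x ∈ trans Z (fun i => (a i : ℂ)) →
        ∃ (i j : Fin n) (m : ℕ), i ≠ j ∧ 0 < m ∧ m ≤ lev a ∧ R m (x i) (x j) := by
  obtain ⟨p₀, hp₀⟩ := exists_goodPlace hZ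
  refine ⟨2 * (p₀).factorial, by positivity, fun a ha S hS x hx hxZ => ?_⟩
  have hlarge : ∀ p : ℕ, p.Prime → ¬ p ∣ 2 * (p₀).factorial → max 3 p₀ ≤ p := by
    intro p hp h
    refine max_le ?_ ?_
    · rcases hp.two_le.lt_or_eq with h2 | h2
      · exact h2
      · exact absurd (h2 ▸ dvd_mul_right 2 _) h
    · by_contra hcon
      push Not at hcon
      exact h ((Nat.dvd_factorial hp.pos hcon.le).mul_left 2)
  obtain ⟨p, O, s, i, j, hp, hpp, hpO, hij, hi, hj, hai, haj, hxi, hxj⟩ :=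
    exists_pair (n := n) (d := d) (p₀ := max 3 p₀) (Z := Z) (fun p hp hpp => hp₀ p hp ((le_max_right _ _).trans hpp)) a
      (fun J hJ => by
        obtain ⟨p, h1, h2, h3⟩ := ha J hJ
        exact ⟨p, h1, hlarge p h1 h2, h3⟩) S (by have := S.le_dim; omega) x hx hxZ
  obtain ⟨m, hm0, hm, hrig⟩ := hR.rel S i j s x hi hj hx
  refine ⟨i, j, m, hij, hm0, ?_, hm⟩
  obtain ⟨g, hg, hlev⟩ := level hp (lt_of_lt_of_le (by norm_num) ((le_max_left 3 p₀).trans hpp)) hpO hai haj hxi hxj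
    (hrig p O hp hpO)
  set D := ∏ i, (a i).den with hD
  have hDpos : 0 < D := Finset.prod_pos fun i _ => (a i).den_pos
  have hval : ∀ k : Fin n, padicValNat p (a k).den ≤ D := by
    intro k
    have := Fact.mk hp
    have h1 : p ^ padicValNat p (a k).den ≤ (a k).den := Nat.le_of_dvd (a k).den_pos pow_padicValNat_dvd
    exact ((Nat.lt_pow_self hp.one_lt).le.trans h1).trans (den_le a k)
  have hpD : p ≤ D := (Nat.le_of_dvd (a i).den_pos hai).trans (den_le a i)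
  have hgD : g ≤ D := (Nat.le_of_dvd (by have := hp.two_le; omega) hg).trans (by omega)
  have hgcd : 1 ≤ Nat.gcd (padicValNat p (a i).den) (padicValNat p (a j).den) :=
    Nat.gcd_pos_of_pos_left _ (exp_pos hp _ hai)
  have h2 : m * (Nat.gcd (padicValNat p (a i).den) (padicValNat p (a j).den)) ^ 2 =
      padicValNat p (a i).den * padicValNat p (a j).den * g ^ 2 := by exact_mod_cast hlev
  calc m = m * 1 := (mul_one m).symm
    _ ≤ m * (Nat.gcd (padicValNat p (a i).den) (padicValNat p (a j).den)) ^ 2 :=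
        Nat.mul_le_mul_left _ (Nat.one_le_pow _ _ hgcd)
    _ = padicValNat p (a i).den * padicValNat p (a j).den * g ^ 2 := h2
    _ ≤ D * D * D ^ 2 := Nat.mul_le_mul (Nat.mul_le_mul (hval i) (hval j)) (Nat.pow_le_pow_left hgD 2)
    _ = lev a := by rw [lev]; ring

/-- **the unlikely intersections are not dense** -/
theorem not_dense {R : ℕ → ℂ → ℂ → Prop} (hR : ModRel n R) {d : ℕ} {Z : Set (Fin n → ℂ)}
    (hZ : GenPos d Z) : ∃ m₀ : ℕ, 0 < m₀ ∧ ∀ a : Fin n → ℚ, Linked d m₀ a →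
      ∀ V : Set (Fin n → ℂ), IsSubvariety V → V ⊆ trans Z (fun i => (a i : ℂ)) →
        (∃ H : SpecialData n, dim H.carrier < n ∧ V ⊆ H.carrier) ∨
        ∃ f : MvPolynomial (Fin n) ℂ, f ∉ vanishingIdeal ℂ V ∧
          ∀ S : SpecialData n, dim S.carrier + d < n → ∀ x ∈ V ∩ S.carrier, eval x f = 0 := by
  classical
  obtain ⟨m₀, hm₀, h⟩ := exists_level hR hZ
  refine ⟨m₀, hm₀, fun a ha V hV hVZ => ?_⟩
  have hhyp : ∀ (i j : Fin n) (m : ℕ), ∃ (H : SpecialData n) (f : MvPolynomial (Fin n) ℂ),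
      i ≠ j → 0 < m → dim H.carrier < n ∧ (∀ z, R m (z i) (z j) → eval z f = 0) ∧
        ∀ z, eval z f = 0 → z ∈ H.carrier := by
    intro i j m
    by_cases hc : i ≠ j ∧ 0 < m
    · obtain ⟨H, f, h1, h2, h3⟩ := hR.hyp i j m hc.1 hc.2
      exact ⟨H, f, fun _ _ => ⟨h1, h2, h3⟩⟩
    · exact ⟨diagData id, 0, fun h1 h2 => absurd ⟨h1, h2⟩ hc⟩
  choose H f hHf using hhyp
  set L : Finset (Fin n × Fin n × ℕ) := ((univ : Finset (Fin n)) ×ˢ (univ : Finset (Fin n)) ×ˢ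
    Finset.Icc 1 (lev a)).filter (fun t => t.1 ≠ t.2.1) with hL
  have hmemL : ∀ {i j : Fin n} {m : ℕ}, i ≠ j → 0 < m → m ≤ lev a → (i, j, m) ∈ L := by
    intro i j m hij hm hm'
    rw [hL, mem_filter, mem_product, mem_product]
    exact ⟨⟨mem_univ _, mem_univ _, Finset.mem_Icc.2 ⟨hm, hm'⟩⟩, hij⟩
  have hLmem : ∀ t ∈ L, t.1 ≠ t.2.1 ∧ 0 < t.2.2 := by
    rintro ⟨i, j, m⟩ ht
    rw [hL, mem_filter, mem_product, mem_product, Finset.mem_Icc] at ht
    exact ⟨ht.2, ht.1.2.2.1⟩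
  by_cases hF : (∏ t ∈ L, f t.1 t.2.1 t.2.2) ∈ vanishingIdeal ℂ V
  · left
    have hprime := van_prime hV
    obtain ⟨t, ht, hft⟩ := (Ideal.IsPrime.prod_mem_iff).1 hF
    obtain ⟨h1, h2⟩ := hLmem t ht
    obtain ⟨h3, -, h5⟩ := hHf t.1 t.2.1 t.2.2 h1 h2
    exact ⟨_, h3, fun z hz => h5 z (mem_van.1 hft z hz)⟩
  · right
    refine ⟨_, hF, fun S hS x hx => ?_⟩
    obtain ⟨i, j, m, hij, hm, hm', hRm⟩ := h a ha S hS x hx.2 (hVZ hx.1)
    rw [map_prod]
    exact Finset.prod_eq_zero (hmemL hij hm hm') ((hHf i j m hij hm).2.1 x hRm)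

/-- **Zilber–Pink for the rational translates of curves** -/
theorem zp_curve {R : ℕ → ℂ → ℂ → Prop} (hR : ModRel n R) {Z : Set (Fin n → ℂ)}
    (hZ : GenPos 1 Z) : ∃ m₀ : ℕ, 0 < m₀ ∧ ∀ a : Fin n → ℚ, Linked 1 m₀ a →
      ∀ V : Set (Fin n → ℂ), IsSubvariety V → dim V = 1 → V ⊆ trans Z (fun i => (a i : ℂ)) →
        {A | IsMaxAtypical V A}.Finite := by
  classical
  obtain ⟨m₀, hm₀, h⟩ := not_dense hR hZ
  refine ⟨m₀, hm₀, fun a ha V hV h1 hVZ => ?_⟩
  rcases h a ha V hV hVZ with ⟨H, hH, hVH⟩ | ⟨f, hf, hfS⟩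
  · -- `V` is atypical in itself
    have hVat : IsAtypical V V := by
      refine ⟨H, ⟨hV, ?_, fun C _ h2 h3 => ?_⟩, by omega⟩
      · exact fun z hz => ⟨hz, hVH hz⟩
      · exact Set.Subset.antisymm (fun z hz => (h3 hz).1) h2
    refine (Set.finite_singleton V).subset fun A hA => ?_
    obtain ⟨S, ⟨-, hsub, -⟩, -⟩ := hA.1
    exact (hA.2 V hVat (fun z hz => (hsub hz).1)).symm
  · by_cases hVS : ∃ S : SpecialData n, dim S.carrier < n ∧ V ⊆ S.carrier
    · obtain ⟨H, hH, hVH⟩ := hVS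
      have hVat : IsAtypical V V := by
        refine ⟨H, ⟨hV, ?_, fun C _ h2 h3 => ?_⟩, by omega⟩
        · exact fun z hz => ⟨hz, hVH hz⟩
        · exact Set.Subset.antisymm (fun z hz => (h3 hz).1) h2
      refine (Set.finite_singleton V).subset fun A hA => ?_
      obtain ⟨S, ⟨-, hsub, -⟩, -⟩ := hA.1
      exact (hA.2 V hVat (fun z hz => (hsub hz).1)).symm
    · have hfin := finite_section hV h1.le hf
      refine (hfin.finite_subsets).subset fun A hA => ?_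
      obtain ⟨S, ⟨hAs, hsub, -⟩, hdim⟩ := hA.1
      have hAV : A ⊆ V := fun z hz => (hsub hz).1
      have hne : A ≠ V := by
        rintro rfl
        exact hVS ⟨S, by omega, fun z hz => (hsub hz).2⟩
      have hAfin := finite_of_ssubset hV h1.le hAs hAV hne
      have hA0 : dim A = 0 := dim_of_finite hAfin
      intro z hz
      exact ⟨hAV hz, hfS S (by omega) z (hsub hz)⟩

end Pool.Agent.Helper36.ZU
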