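import Pool.Agent.Helper36.ZU.Rat
import Pool.Agent.Helper11.ZT.ExCurve

/-! # Constant translates and an example -/

namespace Pool.Agent.Helper36.ZU
open Finset MvPolynomial Pool.Agent.Helper11.ZP Pool.Agent.Helper20.ZT Pool.Agent Pool.Agent.Helper11.ZT

variable {n : ℕ} {ι : Type*}

lemma IsSubvariety.nonempty' {B : Set (Fin n → ℂ)} (hB : IsSubvariety B) : B.Nonempty := by
  obtain ⟨I, hI, rfl⟩ := hB
  by_contra hcon
  rw [Set.not_nonempty_iff_eq_empty] at hcon
  have h1 : vanishingIdeal ℂ (zeroLocus ℂ I) = I := IsPrime.vanishingIdeal_zeroLocus I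
  rw [hcon, vanishingIdeal_empty] at h1
  exact hI.ne_top h1.symm

lemma isSubvariety_point (c : Fin n → ℂ) : IsSubvariety {c} := by
  refine ⟨vanishingIdeal ℂ {c}, ?_, ?_⟩
  · have : (vanishingIdeal ℂ {c}).IsMaximal := inferInstance
    exact this.isPrime
  · ext z
    constructor
    · rintro rfl
      intro f hf
      exact hf _ rfl
    · intro h
      rw [Set.mem_singleton_iff]
      funext i
      have h1 := h (X i - C (c i)) (by
        rw [mem_vanishingIdeal_iff]
        intro z hz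
        rw [Set.mem_singleton_iff.1 hz]
        simp)
      simpa [sub_eq_zero] using h1

lemma dim_point (c : Fin n → ℂ) : dim ({c} : Set (Fin n → ℂ)) = 0 := by
  have hsurj : Function.Surjective (algebraMap ℂ (MvPolynomial (Fin n) ℂ ⧸ vanishingIdeal ℂ ({c} : Set (Fin n → ℂ)))) := by
    intro y
    obtain ⟨f, rfl⟩ := Ideal.Quotient.mk_surjective y
    refine ⟨eval c f, ?_⟩
    change Ideal.Quotient.mk _ (C (eval c f)) = _
    rw [Ideal.Quotient.eq, mem_vanishingIdeal_iff]
    intro z hz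
    rw [Set.mem_singleton_iff.1 hz, aeval_eq_eval]
    simp
  have h1 := trdeg_le_of_surjective (Algebra.ofId ℂ _) hsurj
  have h2 : Algebra.trdeg ℂ ℂ = 0 := trdeg_eq_zero
  rw [h2] at h1
  rw [dim, le_antisymm h1 zero_le]
  simp

lemma curve_inter {π : Fin n → Fin n} {i j : Fin n} (hij : i ≠ j) (h : π i = π j) :
    curve n ∩ Del π ⊆ {0} := by
  rintro z ⟨⟨s, hs⟩, hz⟩
  have h1 := hz i j h
  rw [(hs i).2, (hs j).2, div_eq_div_iff (hs i).1 (hs j).1] at h1
  have h2 : s ^ 2 * ((i : ℂ) - j) = 0 := by linear_combination h1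
  have h3 : ((i : ℂ) - j) ≠ 0 := by
    rw [sub_ne_zero]
    intro h4
    exact hij (Fin.ext (by exact_mod_cast h4))
  have h4 : s = 0 := by
    rcases mul_eq_zero.1 h2 with h5 | h5
    · exact pow_eq_zero_iff (two_ne_zero) |>.1 h5
    · exact absurd h5 h3
  rw [Set.mem_singleton_iff]
  funext k
  rw [(hs k).2, h4]
  simp

lemma zero_mem_curve (n : ℕ) : (0 : Fin n → ℂ) ∈ curve n := ⟨0, fun i => by simp⟩

/-- the curve is in hereditary general position at the cusps above the primes `p ≥ n` -/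
theorem herGPAt_curve {p : ℕ} (hp : p.Prime) (hn : n ≤ p) {O₀ : ValuationSubring ℂ}
    (hpO : (p : ℂ) ∈ O₀.nonunits) (hZ : IsSubvariety (curve n)) (h1 : dim (curve n) = 1)
    (κ : Fin n → ι) : HerGPAt O₀ κ (curve n) := by
  intro π _ B hB hBd J hJ _
  by_cases hinj : Function.Injective π
  · have hncl : ncl π = n := by
      rw [ncl, Finset.card_image_of_injective _ hinj, card_univ, Fintype.card_fin]
    rw [h1, hncl] at hJ
    have hdel : curve n ∩ Del π = curve n := by
      refine Set.inter_eq_left.2 fun z _ i j hij => ?_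
      rw [hinj hij]
    rw [hdel] at hB
    have hBZ : B = curve n := (hB.2.2 _ hZ hB.2.1 subset_rfl).symm
    obtain ⟨f, h2, h3, h4, h5⟩ := genPosAt_curve hp hn hpO J (by omega)
    exact ⟨f, h2, h3, h4, fun z hz => h5 z (hBZ ▸ hz)⟩
  · rw [Function.Injective] at hinj
    push Not at hinj
    obtain ⟨i, j, hij, hne⟩ := hinj
    have hB0 : B ⊆ {0} := hB.2.1.trans (curve_inter hne hij)
    have hBe : B = {0} := by
      obtain ⟨z, hz⟩ := IsSubvariety.nonempty' hB.1
      refine Set.Subset.antisymm hB0 ?_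
      rw [Set.singleton_subset_iff, ← Set.mem_singleton_iff.1 (hB0 hz)]
      exact hz
    rw [hBe, dim_point] at hBd
    obtain ⟨k, hk⟩ := Finset.card_pos.1 (show 0 < J.card by omega)
    have h2 := topIn_point (0 : Fin n → ℂ) k
    have hf : (X k - C ((0 : Fin n → ℂ) k) : MvPolynomial (Fin n) ℂ) = X k := by simp
    rw [hf] at h2
    have hcoe : ∀ m : Fin n →₀ ℕ, (X k : MvPolynomial (Fin n) ℂ).coeff m = 0 ∨
        (X k : MvPolynomial (Fin n) ℂ).coeff m = 1 := by
      intro m
      rw [coeff_X]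
      split_ifs
      · exact Or.inr rfl
      · exact Or.inl rfl
    refine ⟨X k, h2.vars.trans (Finset.singleton_subset_iff.2 hk), fun m => ?_, ?_, ?_⟩
    · rcases hcoe m with h | h <;> rw [h]
      · exact zero_mem _
      · exact one_mem _
    · have h3 := (hcoe (Finsupp.equivFunOnFinite.symm fun i => (X k : MvPolynomial (Fin n) ℂ).degreeOf i)).resolve_left h2.top
      rw [h3, val_non, map_one]
      exact lt_irrefl _
    · intro z hz
      have := hB0 hz
      rw [Set.mem_singleton_iff.1 this]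
      simp

/-- the curve is an irreducible curve -/
lemma curve_facts (hn : 1 < n) : IsSubvariety (curve n) ∧ dim (curve n) = 1 := by
  obtain ⟨h1, h2⟩ := curve_aux hn Nat.prime_two
  set a : Fin n → ℂ := fun i => ((1 + (i : ℤ) * (2 : ℕ) : ℤ) : ℂ) / (((2 : ℕ) : ℤ) ^ 2 * 1 : ℤ) with ha
  have h3 : transl (curve n) (((2 : ℕ) : ℤ) ^ 2 * 1) (fun i : Fin n => 1 + (i : ℤ) * (2 : ℕ)) = trans (curve n) a := rfl
  rw [h3] at h1 h2
  refine ⟨?_, ?_⟩
  · have := isSubvariety_trans h1 (-a)
    rwa [trans_trans] at this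
  · rwa [dim_trans] at h2

/-- the diagonally atypical components of the curve -/
lemma isDiag_curve (hn : 3 ≤ n) {B : Set (Fin n → ℂ)} :
    IsDiagAtypical (fun _ : Fin n => ()) (curve n) B ↔ B = {0} := by
  obtain ⟨hZ, h1⟩ := curve_facts (n := n) (by omega)
  constructor
  · rintro ⟨π, -, hB, hdim⟩
    by_cases hinj : Function.Injective π
    · have hncl : ncl π = n := by
        rw [ncl, Finset.card_image_of_injective _ hinj, card_univ, Fintype.card_fin]
      have h2 := dim_mono hZ (hB.2.1.trans Set.inter_subset_left)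
      omega
    · rw [Function.Injective] at hinj
      push Not at hinj
      obtain ⟨i, j, hij, hne⟩ := hinj
      have hB0 : B ⊆ {0} := hB.2.1.trans (curve_inter hne hij)
      obtain ⟨z, hz⟩ := IsSubvariety.nonempty' hB.1
      refine Set.Subset.antisymm hB0 ?_
      rw [Set.singleton_subset_iff, ← Set.mem_singleton_iff.1 (hB0 hz)]
      exact hz
  · rintro rfl
    have hne : (⟨0, by omega⟩ : Fin n) ≠ ⟨1, by omega⟩ := by
      intro h
      exact absurd (congrArg Fin.val h) (by norm_num)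
    refine ⟨fun _ => ⟨0, by omega⟩, fun _ _ _ => rfl, ⟨isSubvariety_point 0, ?_, ?_⟩, ?_⟩
    · rintro z hz
      rw [Set.mem_singleton_iff.1 hz]
      exact ⟨zero_mem_curve n, fun _ _ _ => rfl⟩
    · intro C _ h2 h3
      exact Set.Subset.antisymm (h3.trans (curve_inter hne rfl)) h2
    · rw [h1, dim_point, ncl, Finset.image_const (by exact ⟨⟨0, by omega⟩, mem_univ _⟩), card_singleton]
      omega

/-- the number `num / (p ^ e q)` is the constant -/
lemma exists_vec {p : ℕ} (hp : p.Prime) {c : ℚ} (hc : p ∣ c.den) : ∃ (e : ℕ) (q : ℤ),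
    Adm (fun _ : Fin n => ()) p e q (fun _ => c.num) ∧ vec p e q (fun _ : Fin n => c.num) = fun _ => (c : ℂ) := by
  obtain ⟨e, q, hq, he⟩ := Nat.exists_eq_pow_mul_and_not_dvd c.den_ne_zero p hp.ne_one
  have he1 : 1 ≤ e := by
    rcases Nat.eq_zero_or_pos e with h0 | h0
    · rw [h0, pow_zero, one_mul] at he
      exact absurd (he ▸ hc) hq
    · exact h0
  have hpp := Nat.prime_iff_prime_int.1 hp
  refine ⟨e, q, ⟨he1, fun h => hq (Int.natCast_dvd_natCast.1 h), fun _ h => ?_, fun _ _ _ => rfl,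
    fun _ _ h => absurd rfl h⟩, ?_⟩
  · have h1 : (p : ℤ) ∣ (c.den : ℤ) := Int.natCast_dvd_natCast.2 hc
    exact hpp.not_isUnit ((Rat.isCoprime_num_den c).isUnit_of_dvd' h h1)
  · funext i
    have h1 : (c : ℂ) = (c.num : ℂ) / (c.den : ℂ) := by
      conv_lhs => rw [← Rat.num_div_den c]
      push_cast
      rfl
    rw [h1, he, vec]
    push_cast
    rfl

/-- **the constant translates of the curve** -/
theorem curve_const (hn : 3 ≤ n) {p : ℕ} (hp : p.Prime) (hp2 : 2 < p) (hnp : n ≤ p) {c : ℚ}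
    (hc : p ∣ c.den) (A : Set (Fin n → ℂ)) :
    IsAtypical (trans (curve n) (fun _ => (c : ℂ))) A ↔ A = {fun _ => (c : ℂ)} := by
  obtain ⟨hZ, h1⟩ := curve_facts (n := n) (by omega)
  obtain ⟨O₀, hpO⟩ := exists_place_above hp
  obtain ⟨e, q, hadm, hvec⟩ := exists_vec (n := n) hp hc
  have hsep := hadm.sepAt hp hp2 hpO
  rw [hvec] at hsep
  have htr : trans ({0} : Set (Fin n → ℂ)) (fun _ => (c : ℂ)) = {fun _ => (c : ℂ)} := by
    ext z
    rw [mem_trans, Set.mem_singleton_iff, Set.mem_singleton_iff]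
    constructor
    · intro h
      funext i
      have := congrFun h i
      simpa [sub_eq_zero] using this
    · rintro rfl
      funext i
      simp
  constructor
  · intro hA
    obtain ⟨B, hB, hAB⟩ := cover hZ (herGPAt_curve hp hnp hpO hZ h1 _) hsep hA
    rw [(isDiag_curve hn).1 hB, htr] at hAB
    obtain ⟨S, ⟨hAs, -, -⟩, -⟩ := hA
    obtain ⟨z, hz⟩ := IsSubvariety.nonempty' hAs
    refine Set.Subset.antisymm hAB ?_
    rw [Set.singleton_subset_iff, ← Set.mem_singleton_iff.1 (hAB hz)]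
    exact hz
  · rintro rfl
    have := isAtypical_trans ((isDiag_curve hn).2 rfl) hsep.same
    rwa [htr] at this

end Pool.Agent.Helper36.ZU
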