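import Pool.Agent.Helper36.ZU.Rig2
import Pool.Agent.Helper11.ZT.KeyT

/-! # The generic point of a subvariety of a special subvariety -/

open UpperHalfPlane

namespace Pool.Agent.Helper36.ZU

open Pool.Agent.Helper11.ZP Pool.Agent.Helper20.ZT Pool.Agent

lemma special_mem {K : Type*} [Field K] [Algebra ℂ K] (O : ValuationSubring K) {c : ℂ}
    (h : IsSpecialPoint c) : algebraMap ℂ K c ∈ O :=
  mem_of_isIntegral_int O (h.isIntegral.map (algebraMap ℂ K).toIntAlgHom)

section

variable {n : ℕ} (S : SpecialData n)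

open MvPolynomial in
/-- The relation between two coordinates in the same class, as a polynomial vanishing on `S`. -/
lemma exists_rel_poly2 {i j : Fin n} {s : Fin S.r} (hi : S.cls i = some s) (hj : S.cls j = some s) :
    ∃ P : Polynomial (Polynomial OO), P.Monic ∧
      (∀ y ∈ S.carrier, eval y (P.eval₂
        (Polynomial.eval₂RingHom ((C : ℂ →+* MvPolynomial (Fin n) ℂ).comp (algebraMap OO ℂ)) (X j))
        (X i)) = 0) ∧
      ∀ (K : Type) [Field K] [IsAlgClosed K] [Algebra ℂ K] (O : ValuationSubring K), ∀ x y : K,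
        P.eval₂ (Polynomial.eval₂RingHom ((algebraMap ℂ K).comp (algebraMap OO ℂ)) x) y = 0 →
        Rig2 O x y := by
  obtain ⟨P, hP, hP2, hP3⟩ := exists_relation_rig2 (S.g i) (S.g j) (S.hg i) (S.hg j)
  refine ⟨P, hP, fun y hy => ?_, hP3⟩
  obtain ⟨τ, hτ⟩ := hy.2 s
  obtain ⟨τ₁, h1, h1'⟩ := hτ i hi
  obtain ⟨τ₂, h2, h2'⟩ := hτ j hj
  have h := hP2 τ τ₁ τ₂ h1 h2
  rw [← h1', ← h2'] at h
  have e1 := Polynomial.hom_eval₂ P
    (Polynomial.eval₂RingHom ((C : ℂ →+* MvPolynomial (Fin n) ℂ).comp (algebraMap OO ℂ)) (X j))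
    (eval y) (X i)
  rw [e1, eval_X]
  have e2 : (eval y).comp (Polynomial.eval₂RingHom
      ((C : ℂ →+* MvPolynomial (Fin n) ℂ).comp (algebraMap OO ℂ)) (X j)) = evO (y j) := by
    apply Polynomial.ringHom_ext
    · intro a
      simp [evO]
    · simp [evO]
  rw [e2]
  exact h

end

open MvPolynomial in
/-- The generic point of a subvariety contained in a special subvariety, with a valuation ring above
a given one for which the coordinates of `dim A` classes are integral. -/
theorem generic_point {n : ℕ} {A : Set (Fin n → ℂ)} (hA : IsSubvariety A) (S : SpecialData n)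
    (hAS : A ⊆ S.carrier) (O₀ : ValuationSubring ℂ) :
    ∃ (K : Type) (_ : Field K) (_ : IsAlgClosed K) (_ : Algebra ℂ K) (O : ValuationSubring K)
      (x : Fin n → K) (E : Finset (Fin S.r)),
      (∀ z ∈ O₀, algebraMap ℂ K z ∈ O) ∧ (∀ z ∈ O₀.nonunits, algebraMap ℂ K z ∈ O.nonunits) ∧
      E.card = dim A ∧ (∀ f : MvPolynomial (Fin n) ℂ, (∀ y ∈ A, eval y f = 0) ↔ aeval x f = 0) ∧
      (∀ i, S.cls i = none → x i ∈ O) ∧ (∀ i s, S.cls i = some s → s ∈ E → x i ∈ O) ∧
      (∀ i j s, S.cls i = some s → S.cls j = some s → (x i ∈ O ↔ x j ∈ O) ∧ Rig2 O (x i) (x j)) := by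
  classical
  obtain ⟨I, hI, rfl⟩ := hA
  have hvan : vanishingIdeal ℂ (zeroLocus ℂ I) = I := IsPrime.vanishingIdeal_zeroLocus I
  have hmem : ∀ f : MvPolynomial (Fin n) ℂ, (∀ y ∈ zeroLocus ℂ I, eval y f = 0) → f ∈ I := by
    intro f hf
    rw [← hvan]
    exact fun y hy => by rw [MvPolynomial.aeval_eq_eval]; exact hf y hy
  -- function field
  let B := MvPolynomial (Fin n) ℂ ⧸ I
  let K := AlgebraicClosure (FractionRing B)
  let ξ : Fin n → B := fun i => Ideal.Quotient.mk I (X i)
  let x : Fin n → K := fun i => algebraMap B K (ξ i)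
  have hinj : Function.Injective (algebraMap B K) := by
    rw [IsScalarTower.algebraMap_eq B (FractionRing B) K]
    exact (algebraMap (FractionRing B) K).injective.comp (IsFractionRing.injective B _)
  have hadj : Algebra.adjoin ℂ (Set.range ξ) = ⊤ := by
    have h1 : (Ideal.Quotient.mkₐ ℂ I).range = ⊤ :=
      AlgHom.range_eq_top _ |>.2 (Ideal.Quotient.mkₐ_surjective ℂ I)
    rw [← h1, ← Algebra.map_top, ← MvPolynomial.adjoin_range_X, AlgHom.map_adjoin, ← Set.range_comp]
    rfl
  have halg : Algebra.IsAlgebraic (Algebra.adjoin ℂ (Set.range ξ)) B := by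
    refine ⟨fun b => ?_⟩
    have hb : b ∈ Algebra.adjoin ℂ (Set.range ξ) := by rw [hadj]; trivial
    exact isAlgebraic_algebraMap (⟨b, hb⟩ : Algebra.adjoin ℂ (Set.range ξ))
  obtain ⟨t, ht, hbas⟩ := exists_isTranscendenceBasis_subset (R := ℂ) (Set.range ξ)
  have hdim : dim (zeroLocus ℂ I) = Nat.card t := by
    rw [dim, hvan, ← hbas.cardinalMk_eq_trdeg]
    rfl
  have htfin : Finite t := ((Set.finite_range ξ).subset ht).to_subtype
  have hidx : ∀ y : t, ∃ i : Fin n, ξ i = y := fun y => ht y.2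
  choose idx hidx using hidx
  have hK : AlgebraicIndependent ℂ (fun y : t => x (idx y)) := by
    have h1 := hbas.1.map' (f := IsScalarTower.toAlgHom ℂ B K) hinj
    have h2 : (fun y : t => x (idx y)) = (IsScalarTower.toAlgHom ℂ B K) ∘ ((↑) : t → B) := by
      funext y
      simp only [x, hidx, Function.comp_apply, IsScalarTower.coe_toAlgHom']
    rw [h2]
    exact h1
  have hx : ∀ f : MvPolynomial (Fin n) ℂ, aeval x f = algebraMap B K (Ideal.Quotient.mk I f) := by
    intro f
    have h1 : (aeval x : MvPolynomial (Fin n) ℂ →ₐ[ℂ] K) =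
        (IsScalarTower.toAlgHom ℂ B K).comp (Ideal.Quotient.mkₐ ℂ I) := by
      apply MvPolynomial.algHom_ext
      intro i
      rw [aeval_X]
      rfl
    rw [h1]
    rfl
  have hx0 : ∀ f : MvPolynomial (Fin n) ℂ, f ∈ I → aeval x f = 0 := by
    intro f hf
    rw [hx, Ideal.Quotient.eq_zero_iff_mem.2 hf, map_zero]
  have hx1 : ∀ f : MvPolynomial (Fin n) ℂ, aeval x f = 0 → f ∈ I := by
    intro f hf
    rw [hx, ← map_zero (algebraMap B K)] at hf
    exact Ideal.Quotient.eq_zero_iff_mem.1 (hinj hf)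
  -- relations at the generic point
  have relK : ∀ (i j : Fin n) (s : Fin S.r), S.cls i = some s → S.cls j = some s →
      (∃ P : Polynomial (Polynomial OO), P.Monic ∧
        P.eval₂ (Polynomial.eval₂RingHom ((algebraMap ℂ K).comp (algebraMap OO ℂ)) (x j)) (x i) = 0) ∧
      ∀ (O : ValuationSubring K), Rig2 O (x j) (x i) := by
    intro i j s hi hj
    obtain ⟨P, hP, hP2, hP3⟩ := exists_rel_poly2 S hi hj
    have h1 := hx0 _ (hmem _ fun y hy => hP2 y (hAS hy))
    have h2 := Polynomial.hom_eval₂ P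
      (Polynomial.eval₂RingHom ((C : ℂ →+* MvPolynomial (Fin n) ℂ).comp (algebraMap OO ℂ)) (X j))
      (aeval x : MvPolynomial (Fin n) ℂ →ₐ[ℂ] K).toRingHom (X i)
    have h3 : (aeval x : MvPolynomial (Fin n) ℂ →ₐ[ℂ] K).toRingHom.comp (Polynomial.eval₂RingHom
        ((C : ℂ →+* MvPolynomial (Fin n) ℂ).comp (algebraMap OO ℂ)) (X j)) =
        Polynomial.eval₂RingHom ((algebraMap ℂ K).comp (algebraMap OO ℂ)) (x j) := by
      apply Polynomial.ringHom_ext
      · intro a
        simp
      · simp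
    have h4 : (aeval x : MvPolynomial (Fin n) ℂ →ₐ[ℂ] K).toRingHom (X i) = x i := by simp
    rw [h3, h4] at h2
    have h5 : P.eval₂ (Polynomial.eval₂RingHom ((algebraMap ℂ K).comp (algebraMap OO ℂ)) (x j)) (x i) = 0 := by
      rw [← h2]
      exact h1
    exact ⟨⟨P, hP, h5⟩, fun O => hP3 K O _ _ h5⟩
  have constK : ∀ i : Fin n, S.cls i = none → x i = algebraMap ℂ K (S.c i) := by
    intro i hi
    have h1 := hx0 (X i - C (S.c i)) (hmem _ fun y hy => by
      rw [map_sub, eval_X, eval_C, (hAS hy).1 i hi, sub_self])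
    rw [map_sub, aeval_X, aeval_C, sub_eq_zero] at h1
    exact h1
  have : Fintype t := Fintype.ofFinite t
  -- the classes of the transcendence basis
  have hne : ∀ y : t, ∃ s, S.cls (idx y) = some s := by
    intro y
    rcases h : S.cls (idx y) with _ | s
    · exfalso
      have h1 := hK.transcendental y
      rw [constK _ h] at h1
      exact h1 (isAlgebraic_algebraMap _)
    · exact ⟨s, rfl⟩
  choose e he using hne
  have einj : Function.Injective e := by
    intro y y' hyy
    by_contra hcon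
    obtain ⟨⟨P, hP, hP2⟩, -⟩ := relK (idx y) (idx y') (e y) (he y) (by rw [hyy]; exact he y')
    have h1 := hK.transcendental_adjoin (s := {y'}) (i := y) hcon
    apply h1
    set D := Algebra.adjoin ℂ ((fun y : t => x (idx y)) '' {y'}) with hD
    have hmemD : x (idx y') ∈ D := Algebra.subset_adjoin ⟨y', rfl, rfl⟩
    let ψ : Polynomial OO →+* D :=
      Polynomial.eval₂RingHom ((algebraMap ℂ D).comp (algebraMap OO ℂ)) ⟨x (idx y'), hmemD⟩
    refine IsIntegral.isAlgebraic ⟨P.map ψ, hP.map ψ, ?_⟩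
    rw [Polynomial.eval₂_map]
    have h5 : (algebraMap D K).comp ψ =
        Polynomial.eval₂RingHom ((algebraMap ℂ K).comp (algebraMap OO ℂ)) (x (idx y')) := by
      apply Polynomial.ringHom_ext
      · intro a
        simp only [ψ, RingHom.comp_apply, Polynomial.coe_eval₂RingHom, Polynomial.eval₂_C]
        rfl
      · simp only [ψ, RingHom.comp_apply, Polynomial.coe_eval₂RingHom, Polynomial.eval₂_X]
        rfl
    rw [h5]
    exact hP2
  obtain ⟨O, hO1, hO2, hxO⟩ := Helper11.ZT.exists_extension O₀ (fun y : t => x (idx y)) hK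
  have M2 : ∀ (i j : Fin n) (s : Fin S.r), S.cls i = some s → S.cls j = some s → x j ∈ O → x i ∈ O := by
    intro i j s hi hj hxj
    obtain ⟨⟨P, hP, hP2⟩, -⟩ := relK i j s hi hj
    exact mem_of_rel O hP hxj hP2
  refine ⟨K, inferInstance, inferInstance, inferInstance, O, x, Finset.univ.image e, hO1, hO2, ?_, ?_, ?_, ?_, ?_⟩
  · rw [Finset.card_image_of_injective _ einj, Finset.card_univ, hdim, Nat.card_eq_fintype_card]
  · exact fun f => ⟨fun h => hx0 f (hmem f h), fun h y hy => by
      rw [← MvPolynomial.aeval_eq_eval]; exact hy _ (hx1 f h)⟩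
  · intro i hi
    rw [constK i hi]
    exact special_mem O (S.hc i hi)
  · intro i s hi hs
    obtain ⟨y, -, rfl⟩ := Finset.mem_image.1 hs
    exact M2 i (idx y) (e y) hi (he y) (hxO y)
  · intro i j s hi hj
    exact ⟨⟨M2 j i s hj hi, M2 i j s hi hj⟩, (relK j i s hj hi).2 O⟩

end Pool.Agent.Helper36.ZU
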