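import Pool.Agent.Helper36.ZU.Final

/-! # The local conclusion for rational translates -/

namespace Pool.Agent.Helper36.ZU
open Finset Pool.Agent.Helper11.ZP Pool.Agent.Helper20.ZT Pool.Agent

/-- rigidity of the pair `x, y` for a primitive isogeny of degree `m`, with arbitrary valuations -/
def RigG' {K : Type*} [Field K] (p : ℕ) (O : ValuationSubring K) (m : ℤ) (x y : K) : Prop :=
  ∀ e f : ℕ, 0 < e → 0 < f → O.valuation ((p : K) ^ e * x) = 1 → O.valuation ((p : K) ^ f * y) = 1 →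
    ∃ (g : ℕ) (ζ w : K), 0 < g ∧ m * (Nat.gcd e f : ℤ) ^ 2 = e * f * g ^ 2 ∧ IsPrimitiveRoot ζ g ∧
      w ∈ O ∧ x ^ (f / Nat.gcd e f) = ζ * y ^ (e / Nat.gcd e f) * (1 + p * w)

section
variable {O : ValuationSubring ℂ} {p : ℕ}

/-- the elements congruent to `1` modulo `p` -/
def Cong1 (O : ValuationSubring ℂ) (p : ℕ) (u : ℂ) : Prop := ∃ s ∈ O, u = 1 + p * s

lemma Cong1.mul {u v : ℂ} (hu : Cong1 O p u) (hv : Cong1 O p v) : Cong1 O p (u * v) := by
  obtain ⟨s, hs, rfl⟩ := hu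
  obtain ⟨t, ht, rfl⟩ := hv
  refine ⟨s + t + p * s * t, ?_, by ring⟩
  exact add_mem (add_mem hs ht) (mul_mem (mul_mem (natCast_mem O p) hs) ht)

lemma Cong1.one : Cong1 O p 1 := ⟨0, zero_mem O, by ring⟩

lemma Cong1.pow {u : ℂ} (hu : Cong1 O p u) (k : ℕ) : Cong1 O p (u ^ k) := by
  induction k with
  | zero => rw [pow_zero]; exact Cong1.one
  | succ k ih => rw [pow_succ]; exact ih.mul hu

variable (hpO : (p : ℂ) ∈ O.nonunits)
include hpO

lemma Cong1.unit {u : ℂ} (hu : Cong1 O p u) : O.valuation u = 1 := by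
  obtain ⟨s, hs, rfl⟩ := hu
  refine unit_of_sub O ?_
  rw [mul_comm]
  exact (val_non O).1 (non_mul O hs hpO)

lemma Cong1.inv {u : ℂ} (hu : Cong1 O p u) : Cong1 O p u⁻¹ := by
  have h1 := hu.unit hpO
  obtain ⟨s, hs, rfl⟩ := hu
  have h0 : (1 + p * s : ℂ) ≠ 0 := by
    intro h; rw [h, map_zero] at h1; exact zero_ne_one h1
  refine ⟨-(s * (1 + p * s)⁻¹), neg_mem (mul_mem hs ?_), ?_⟩
  · rw [val_mem, map_inv₀, h1, inv_one]
  · field_simp
    ring

variable (hp : p.Prime)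
include hp

omit hpO in
/-- Fermat -/
lemma one_int {u : ℤ} (hu : ¬ (p : ℤ) ∣ u) : Cong1 O p ((u : ℂ) ^ (p - 1)) := by
  have := Fact.mk hp
  have h1 : ((u : ZMod p)) ≠ 0 := by
    rwa [ne_eq, ZMod.intCast_zmod_eq_zero_iff_dvd]
  have h2 := ZMod.pow_card_sub_one_eq_one h1
  have h3 : ((u ^ (p - 1) - 1 : ℤ) : ZMod p) = 0 := by
    push_cast
    rw [h2, sub_self]
  obtain ⟨k, hk⟩ := (ZMod.intCast_zmod_eq_zero_iff_dvd _ _).1 h3
  refine ⟨(k : ℂ), intCast_mem O k, ?_⟩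
  have h4 := congrArg (Int.cast : ℤ → ℂ) hk
  push_cast at h4
  linear_combination h4

/-- the decomposition of a number `z + a`, `a` rational -/
lemma decomp {a : ℚ} (ha : p ∣ a.den) {z : ℂ} (hz : z ∈ O) : ∃ (e : ℕ) (u s : ℂ), 0 < e ∧
    e = padicValNat p a.den ∧ Cong1 O p (u ^ (p - 1)) ∧ O.valuation u = 1 ∧ Cong1 O p s ∧
    (p : ℂ) ^ e * (z + a) = u * s := by
  have := Fact.mk hp
  obtain ⟨q, hq⟩ : p ^ padicValNat p a.den ∣ a.den := pow_padicValNat_dvd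
  set e := padicValNat p a.den with he
  have he0 : 0 < e := by
    rw [he]
    exact one_le_padicValNat_of_dvd a.den_ne_zero ha
  have hqp : ¬ p ∣ q := by
    intro h
    have h1 : p ^ (e + 1) ∣ a.den := by
      rw [hq, pow_succ]
      exact mul_dvd_mul_left _ h
    exact pow_succ_padicValNat_not_dvd a.den_ne_zero h1
  have hpp := Nat.prime_iff_prime_int.1 hp
  have hnum : ¬ (p : ℤ) ∣ a.num := by
    intro h
    have h1 : (p : ℤ) ∣ (a.den : ℤ) := Int.natCast_dvd_natCast.2 ha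
    exact hpp.not_isUnit ((Rat.isCoprime_num_den a).isUnit_of_dvd' h h1)
  have hqi : ¬ (p : ℤ) ∣ (q : ℤ) := fun h => hqp (Int.natCast_dvd_natCast.1 h)
  have vnum := int_unit O hp hpO hnum
  have vq := int_unit O hp hpO hqi
  have hnum0 : (a.num : ℂ) ≠ 0 := by intro h; rw [h, map_zero] at vnum; exact zero_ne_one vnum
  have hq0 : ((q : ℤ) : ℂ) ≠ 0 := by intro h; rw [h, map_zero] at vq; exact zero_ne_one vq
  have hp0 : (p : ℂ) ≠ 0 := by exact_mod_cast hp.ne_zero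
  set u : ℂ := (a.num : ℂ) / ((q : ℤ) : ℂ) with hu
  have vu : O.valuation u = 1 := by rw [hu, map_div₀, vnum, vq, div_one]
  have hu0 : u ≠ 0 := div_ne_zero hnum0 hq0
  have hup : (p : ℂ) ^ e * (a : ℂ) = u := by
    have h1 : (a : ℂ) = (a.num : ℂ) / (a.den : ℂ) := by
      conv_lhs => rw [← Rat.num_div_den a]
      push_cast
      rfl
    have h2 : (a.den : ℂ) = (p : ℂ) ^ e * ((q : ℤ) : ℂ) := by
      rw [Int.cast_natCast, hq]
      push_cast
      rfl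
    rw [h1, h2, hu]
    field_simp
  refine ⟨e, u, 1 + (p : ℂ) * ((p : ℂ) ^ (e - 1) * z * u⁻¹), he0, rfl, ?_, vu, ⟨_, ?_, rfl⟩, ?_⟩
  · have h1 := one_int (O := O) hp hnum
    have h2 := (one_int (O := O) hp hqi).inv hpO
    rw [hu, div_pow, div_eq_mul_inv]
    exact h1.mul h2
  · refine mul_mem (mul_mem (pow_mem (natCast_mem O p) _) hz) ?_
    rw [val_mem, map_inv₀, vu, inv_one]
  · have h3 : (p : ℂ) ^ e = p * p ^ (e - 1) := by
      rw [← pow_succ', Nat.sub_add_cancel he0]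
    rw [mul_add, hup, mul_add, mul_one, h3]
    field_simp
    ring

/-- **the local conclusion** -/
theorem loc_g (hp2 : 2 < p) {m : ℤ} {a b : ℚ} (ha : p ∣ a.den) (hb : p ∣ b.den) {z w : ℂ}
    (hz : z ∈ O) (hw : w ∈ O) (h : RigG' p O m (z + a) (w + b)) :
    ∃ g : ℕ, 0 < g ∧ g ∣ p - 1 ∧
      m * (Nat.gcd (padicValNat p a.den) (padicValNat p b.den) : ℤ) ^ 2 =
        padicValNat p a.den * padicValNat p b.den * g ^ 2 := by
  obtain ⟨e, u, s, he0, he, hu, vu, hs, h1⟩ := decomp hpO hp ha hz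
  obtain ⟨f, v, t, hf0, hf, hv, vv, ht, h2⟩ := decomp hpO hp hb hw
  obtain ⟨g, ζ, y, hg0, hm, hζ, hy, hxy⟩ := h e f he0 hf0
    (by rw [h1, map_mul, vu, hs.unit hpO, mul_one]) (by rw [h2, map_mul, vv, ht.unit hpO, mul_one])
  refine ⟨g, hg0, ?_, by rw [← he, ← hf]; exact hm⟩
  have hp0 : (p : ℂ) ≠ 0 := by exact_mod_cast hp.ne_zero
  have hne : ∀ {x : ℂ}, O.valuation x = 1 → x ≠ 0 := by
    intro x hx h0
    rw [h0, map_zero] at hx
    exact zero_ne_one hx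
  set d := Nat.gcd e f with hd
  obtain ⟨e', he'⟩ : d ∣ e := Nat.gcd_dvd_left _ _
  obtain ⟨f', hf'⟩ : d ∣ f := Nat.gcd_dvd_right _ _
  have hd0 : 0 < d := Nat.gcd_pos_of_pos_left _ he0
  have hed : e / d = e' := by rw [he', Nat.mul_div_cancel_left _ hd0]
  have hfd : f / d = f' := by rw [hf', Nat.mul_div_cancel_left _ hd0]
  rw [hed, hfd] at hxy
  have hef : e * f' = f * e' := by rw [he', hf']; ring
  -- multiply by `p ^ (e f')`
  have h3 : (u * s) ^ f' = ζ * (v * t) ^ e' * (1 + p * y) := by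
    rw [← h1, ← h2, mul_pow, mul_pow, ← pow_mul, ← pow_mul, hef, hxy]
    ring
  have hy1 : Cong1 O p (1 + p * y) := ⟨y, hy, rfl⟩
  have h4 : ζ ^ (p - 1) = (u ^ (p - 1)) ^ f' * (s ^ f') ^ (p - 1) *
      (((v ^ (p - 1)) ^ e')⁻¹ * ((t ^ e') ^ (p - 1))⁻¹ * ((1 + p * y) ^ (p - 1))⁻¹) := by
    have hv0 := hne vv
    have ht0 := hne (ht.unit hpO)
    have hy0 := hne (hy1.unit hpO)
    have h5 := congrArg (fun c : ℂ => c ^ (p - 1)) h3
    simp only [mul_pow] at h5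
    have h6 : (v ^ (p - 1)) ^ e' = (v ^ e') ^ (p - 1) := by rw [← pow_mul, ← pow_mul, mul_comm]
    have h7 : (u ^ (p - 1)) ^ f' = (u ^ f') ^ (p - 1) := by rw [← pow_mul, ← pow_mul, mul_comm]
    rw [h6, h7, h5]
    field_simp
  have h8 : Cong1 O p (ζ ^ (p - 1)) := by
    rw [h4]
    exact ((hu.pow f').mul ((hs.pow f').pow _)).mul ((((hv.pow e').inv hpO).mul
      (((ht.pow e').pow _).inv hpO)).mul ((hy1.pow _).inv hpO))
  obtain ⟨r, hr, hr2⟩ := h8
  have hζN : (ζ ^ (p - 1)) ^ g = 1 := by rw [← pow_mul, mul_comm, pow_mul, hζ.pow_eq_one, one_pow]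
  have hζO : ζ ∈ O := (val_mem O).2 (val_root_one O hg0 hζ.pow_eq_one).le
  have hpm : ((p : O)) ∈ IsLocalRing.maximalIdeal O := by
    rw [← ValuationSubring.coe_mem_nonunits_iff]; simpa using hpO
  have hpO0 : (p : O) ≠ 0 := by
    intro h0
    apply hp0
    have := congrArg (Subtype.val : O → ℂ) h0
    simpa using this
  have h9 := root_one (R := O) hp hp2 hpm hpO0 (e := 1) le_rfl hg0 (ζ := ⟨ζ ^ (p - 1), pow_mem hζO _⟩)
    (s := ⟨-r, neg_mem hr⟩) (by apply Subtype.ext; push_cast; exact hζN) (by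
      apply Subtype.ext
      push_cast
      rw [hr2]
      ring)
  exact hζ.dvd_of_pow_eq_one _ (congrArg (Subtype.val : O → ℂ) h9)

end

end Pool.Agent.Helper36.ZU
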