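import Pool.Agent.Helper36.ZU.Key1
import Pool.Agent.Helper20.ZT.Explicit

/-! # The isogenies between the coordinates of a translate are equalities -/

namespace Pool.Agent.Helper36.ZU
open Finset MvPolynomial Pool.Agent.Helper11.ZP Pool.Agent.Helper20.ZT Pool.Agent

/-- the vector `a` is separated at the valuation ring `O₀`: its coordinates are not in `O₀` and have
the same valuation, they are equal if `κ i = κ j`, and `a i - ζ a j ∈ O₀` for a root of unity `ζ` only
if `ζ = 1` and `κ i = κ j` -/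
structure Sep {n : ℕ} {ι : Type*} (O₀ : ValuationSubring ℂ) (κ : Fin n → ι) (a : Fin n → ℂ) : Prop where
  out : ∀ i, a i ∉ O₀
  val : ∀ i j, O₀.valuation (a i) = O₀.valuation (a j)
  same : ∀ i j, κ i = κ j → a i = a j
  sep : ∀ (i j : Fin n) (ζ : ℂ) (N : ℕ), 0 < N → ζ ^ N = 1 → a i - ζ * a j ∈ O₀ → ζ = 1 ∧ κ i = κ j

section ext
variable {K : Type} [Field K] [Algebra ℂ K] {O₀ : ValuationSubring ℂ} {O : ValuationSubring K}

lemma ext_mem_iff (hO : ∀ z ∈ O₀, algebraMap ℂ K z ∈ O)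
    (hOn : ∀ z ∈ O₀.nonunits, algebraMap ℂ K z ∈ O.nonunits) (z : ℂ) : algebraMap ℂ K z ∈ O ↔ z ∈ O₀ := by
  refine ⟨fun h => ?_, hO z⟩
  by_contra hcon
  have hz0 : z ≠ 0 := by rintro rfl; exact hcon (zero_mem O₀)
  have h1 : z⁻¹ ∈ O₀.nonunits := by
    rw [val_non, map_inv₀]
    exact inv_lt_one_of_one_lt₀ (not_le.1 fun h => hcon ((val_mem O₀).2 h))
  have h2 := non_mul O h (hOn _ h1)
  rw [← map_mul, mul_inv_cancel₀ hz0, map_one, val_non, map_one] at h2
  exact lt_irrefl _ h2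

lemma ext_val_eq (hO : ∀ z ∈ O₀, algebraMap ℂ K z ∈ O) {z w : ℂ} (hz : z ≠ 0) (hw : w ≠ 0)
    (h : O₀.valuation z = O₀.valuation w) : O.valuation (algebraMap ℂ K z) = O.valuation (algebraMap ℂ K w) := by
  have key : ∀ {z w : ℂ}, w ≠ 0 → O₀.valuation z = O₀.valuation w →
      O.valuation (algebraMap ℂ K z) ≤ O.valuation (algebraMap ℂ K w) := by
    intro z w hw h
    have hw' : O₀.valuation w ≠ 0 := by rwa [ne_eq, Valuation.zero_iff]
    have h1 : z / w ∈ O₀ := by rw [val_mem, map_div₀, h, div_self hw']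
    have h2 := (val_mem O).1 (hO _ h1)
    have hw2 : algebraMap ℂ K w ≠ 0 := by rwa [ne_eq, map_eq_zero]
    have hw3 : O.valuation (algebraMap ℂ K w) ≠ 0 := by rwa [ne_eq, Valuation.zero_iff]
    rw [map_div₀, map_div₀] at h2
    exact (div_le_one₀ (zero_lt_iff.2 hw3)).1 h2
  exact le_antisymm (key hw h) (key hz h.symm)

end ext

/-- **isogenies are equalities** -/
theorem rel_eq {n : ℕ} {ι : Type*} {K : Type} [Field K] [Algebra ℂ K] {O₀ : ValuationSubring ℂ}
    {O : ValuationSubring K} (hO : ∀ z ∈ O₀, algebraMap ℂ K z ∈ O)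
    (hOn : ∀ z ∈ O₀.nonunits, algebraMap ℂ K z ∈ O.nonunits) {κ : Fin n → ι} {a : Fin n → ℂ}
    (ha : Sep O₀ κ a) {i j : Fin n} {xi xj Pi Pj : K} (hPi : Pi ∈ O) (hPj : Pj ∈ O)
    (hxi : xi = Pi + algebraMap ℂ K (a i)) (hxj : xj = Pj + algebraMap ℂ K (a j))
    (hrig : Rig2 O xi xj) : xi ∉ O ∧ κ i = κ j ∧ Pi = Pj := by
  have h0 : ∀ i, a i ≠ 0 := fun i h => ha.out i (by rw [h]; exact zero_mem O₀)
  have hout : ∀ i, algebraMap ℂ K (a i) ∉ O := fun i h => ha.out i ((ext_mem_iff hO hOn _).1 h)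
  have hval : ∀ {i : Fin n} {P : K}, P ∈ O → O.valuation (P + algebraMap ℂ K (a i)) = O.valuation (algebraMap ℂ K (a i)) := by
    intro i P hP
    rw [add_comm]
    refine val_add_of_lt O (lt_of_le_of_lt ((val_mem O).1 hP) ?_)
    exact not_le.1 fun h => hout i ((val_mem O).2 h)
  have hxiO : xi ∉ O := by
    rw [val_mem, hxi, hval hPi, ← val_mem]
    exact hout i
  refine ⟨hxiO, ?_⟩
  have hv : O.valuation xi = O.valuation xj := by
    rw [hxi, hxj, hval hPi, hval hPj]
    exact ext_val_eq hO (h0 i) (h0 j) (ha.val i j)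
  rcases hrig hxiO hv with h | ⟨N, ζ, hN, hζ, hζ1, h⟩
  · have h1 : a i - 1 * a j ∈ O₀ := by
      rw [← ext_mem_iff hO hOn, map_sub, one_mul]
      have h2 : algebraMap ℂ K (a i) - algebraMap ℂ K (a j) = Pj - Pi := by
        rw [hxi, hxj] at h
        linear_combination h
      rw [h2]
      exact mem_sub O hPj hPi
    obtain ⟨-, h3⟩ := ha.sep i j 1 1 one_pos (one_pow _) h1
    refine ⟨h3, ?_⟩
    rw [hxi, hxj, ha.same i j h3] at h
    exact add_right_cancel h
  · exfalso
    -- the root of unity is complex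
    have hroot : ∃ z : ℂ, algebraMap ℂ K z = ζ := by
      have hint : IsIntegral ℂ ζ := ⟨Polynomial.X ^ N - 1, Polynomial.monic_X_pow_sub_C 1 hN.ne', by
        simp [hζ]⟩
      have hmin := minpoly.irreducible hint
      have hdeg := IsAlgClosed.degree_eq_one_of_irreducible ℂ hmin
      exact minpoly.mem_range_of_degree_eq_one ℂ ζ hdeg
    obtain ⟨z, rfl⟩ := hroot
    have hz : z ^ N = 1 := by
      apply (algebraMap ℂ K).injective
      rw [map_pow, hζ, map_one]
    have h1 : a j - z * a i ∈ O₀ := by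
      rw [← ext_mem_iff hO hOn, map_sub, map_mul]
      have h2 : algebraMap ℂ K (a j) - algebraMap ℂ K z * algebraMap ℂ K (a i) =
          (xj - algebraMap ℂ K z * xi) - (Pj - algebraMap ℂ K z * Pi) := by
        rw [hxi, hxj]; ring
      rw [h2]
      exact mem_sub O h (mem_sub O hPj (mem_mul O ((val_mem O).2 (val_root_one O hN hζ).le) hPi))
    exact hζ1 (by rw [(ha.sep j i z N hN hz h1).1, map_one])

/-- **the counting inequality** -/
theorem ncl_le {n : ℕ} {ι : Type*} {A : Set (Fin n → ℂ)} (hA : IsSubvariety A) (S : SpecialData n)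
    (hAS : A ⊆ S.carrier) (O₀ : ValuationSubring ℂ) {κ : Fin n → ι} {a : Fin n → ℂ}
    (ha : Sep O₀ κ a) {d' : ℕ}
    {π : Fin n → Fin n} (hπ : ∀ i j, π i = π j ↔ (κ i = κ j ∧ ∀ y ∈ A, y i = y j))
    (hππ : ∀ i, π (π i) = π i)
    (hgp : ∀ J : Finset (Fin n), J.card = d' + 1 → (∀ i ∈ J, ∀ j ∈ J, i ≠ j → κ i = κ j →
      ∃ y ∈ A, y i ≠ y j) → ∃ f : MvPolynomial (Fin n) ℂ, f.vars ⊆ J ∧ (∀ m, f.coeff m ∈ O₀) ∧
      f.coeff (Finsupp.equivFunOnFinite.symm fun i => f.degreeOf i) ∉ O₀.nonunits ∧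
      ∀ y ∈ A, eval (fun i => y i - a i) f = 0) :
    (univ.image π).card + dim A ≤ S.r + d' := by
  classical
  obtain ⟨K, _, _, _, O, x, E, hO, hOn, hEcard, hgen, hnone, hE, hrel⟩ := generic_point hA S hAS O₀
  set P : Fin n → K := fun i => x i - algebraMap ℂ K (a i) with hP
  have hxP : ∀ i, x i = P i + algebraMap ℂ K (a i) := fun i => by simp only [hP]; ring
  have hxeq : ∀ i j, x i = x j ↔ ∀ y ∈ A, y i = y j := by
    intro i j
    have h1 := hgen (X i - X j)
    rw [map_sub, aeval_X, aeval_X, sub_eq_zero] at h1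
    rw [← h1]
    refine forall_congr' fun y => forall_congr' fun _ => ?_
    rw [map_sub, eval_X, eval_X, sub_eq_zero]
  set T : Finset (Fin n) := univ.filter fun i => P i ∉ O with hT
  have hTiff : ∀ i, P i ∈ O ↔ i ∉ T := by
    intro i; rw [hT, mem_filter]; simp
  -- representatives
  have hrep : ∀ i, a (π i) = a i ∧ x (π i) = x i := by
    intro i
    obtain ⟨h1, h2⟩ := (hπ (π i) i).1 (hππ i)
    exact ⟨ha.same _ _ h1, (hxeq _ _).2 h2⟩
  have hrepT : ∀ i, π i ∈ T ↔ i ∈ T := by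
    intro i
    obtain ⟨h1, h2⟩ := hrep i
    have h3 : P (π i) = P i := by simp only [hP]; rw [h1, h2]
    rw [← not_iff_not, ← hTiff, ← hTiff, h3]
  -- coordinates outside `T`
  have hU : ∀ i, i ∉ T → ∃ s, S.cls i = some s ∧ s ∉ E := by
    intro i hi
    have h1 : x i ∉ O := (rel_eq hO hOn ha ((hTiff i).2 hi) ((hTiff i).2 hi) (hxP i) (hxP i)
      (fun _ _ => Or.inl rfl)).1
    rcases h : S.cls i with _ | s
    · exact absurd (hnone i h) h1
    · exact ⟨s, rfl, fun hs => h1 (hE i s h hs)⟩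
  have hUU : ∀ i j s, i ∉ T → j ∉ T → S.cls i = some s → S.cls j = some s → π i = π j := by
    intro i j s hi hj his hjs
    obtain ⟨-, h1, h2⟩ := rel_eq hO hOn ha ((hTiff i).2 hi) ((hTiff j).2 hj) (hxP i) (hxP j)
      (hrel i j s his hjs).2
    refine (hπ i j).2 ⟨h1, (hxeq i j).1 ?_⟩
    rw [hxP i, hxP j, ha.same i j h1, h2]
  -- the classes outside `T`
  have hcardU : ((univ \ T).image π).card + dim A ≤ S.r := by
    have h1 : ∀ u ∈ (univ \ T).image π, ∃ s, S.cls u = some s ∧ s ∉ E := by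
      intro u hu
      obtain ⟨i, hi, rfl⟩ := mem_image.1 hu
      exact hU _ (fun h => (mem_sdiff.1 hi).2 ((hrepT i).1 h))
    have h2 : ((univ \ T).image π).card ≤ (univ \ E).card := by
      refine le_trans (Finset.card_le_card_of_injOn (t := (univ \ E).image some) S.cls
        (fun u hu => ?_) (fun u hu u' hu' huu => ?_)) card_image_le
      · obtain ⟨s, hs, hsE⟩ := h1 u (mem_coe.1 hu)
        rw [hs]
        exact mem_coe.2 (mem_image_of_mem _ (mem_sdiff.2 ⟨mem_univ _, hsE⟩))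
      · obtain ⟨s, hs, hsE⟩ := h1 u (mem_coe.1 hu)
        obtain ⟨i, hi, rfl⟩ := mem_image.1 (mem_coe.1 hu)
        obtain ⟨j, hj, rfl⟩ := mem_image.1 (mem_coe.1 hu')
        have h3 := hUU (π i) (π j) s (fun h => (mem_sdiff.1 hi).2 ((hrepT i).1 h))
          (fun h => (mem_sdiff.1 hj).2 ((hrepT j).1 h)) hs (by rw [← huu]; exact hs)
        rwa [hππ, hππ] at h3
    rw [card_sdiff_of_subset (subset_univ _), card_univ, Fintype.card_fin, hEcard] at h2
    have h3 : E.card ≤ S.r := by simpa using card_le_univ E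
    omega
  -- the classes in `T`
  have hcardT : (T.image π).card ≤ d' := by
    by_contra hcon
    push Not at hcon
    obtain ⟨J, hJT, hJ⟩ := Finset.exists_subset_card_eq (show d' + 1 ≤ (T.image π).card by omega)
    obtain ⟨f, hf1, hf2, hf3, hf4⟩ := hgp J hJ (by
      intro i hi j hj hij hκij
      obtain ⟨i', -, rfl⟩ := mem_image.1 (hJT hi)
      obtain ⟨j', -, rfl⟩ := mem_image.1 (hJT hj)
      by_contra hcon2
      push Not at hcon2
      have h1 := (hπ (π i') (π j')).2 ⟨hκij, hcon2⟩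
      rw [hππ, hππ] at h1
      exact hij h1)
    have htop : TopIn J f := ⟨hf1, fun h0 => hf3 (by rw [h0]; exact O₀.nonunits.zero_mem)⟩
    have hPf : aeval P f = 0 := by
      have h1 := (hgen (aeval (fun i => X i - C (a i)) f)).1 (by
        intro y hy
        have h2 := hf4 y hy
        rw [← h2, ← aeval_eq_eval, ← aeval_eq_eval, ← AlgHom.comp_apply]
        congr 1
        apply MvPolynomial.algHom_ext
        intro i
        simp)
      rw [← h1, ← AlgHom.comp_apply]
      congr 1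
      apply MvPolynomial.algHom_ext
      intro i
      simp [hP]
    obtain ⟨i, hi, hiO⟩ := domin O htop (fun m => hO _ (hf2 m)) (fun hcon2 => by
      apply hf3
      set u := f.coeff (Finsupp.equivFunOnFinite.symm fun i => f.degreeOf i) with hu
      by_contra hu2
      have ha0 : O₀.valuation u = 1 := le_antisymm ((val_mem O₀).1 (hf2 _)) (not_lt.1 fun h => hu2 ((val_non O₀).2 h))
      have hinv : u⁻¹ ∈ O₀ := by rw [val_mem, map_inv₀, ha0, inv_one]
      have h3 := hO _ hinv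
      have ha1 : u ≠ 0 := by intro h0; rw [h0, map_zero] at ha0; exact zero_ne_one ha0
      have h4 := non_mul O h3 hcon2
      rw [← map_mul, inv_mul_cancel₀ ha1, map_one, val_non, map_one] at h4
      exact lt_irrefl _ h4) hPf
    obtain ⟨i', hi', rfl⟩ := mem_image.1 (hJT hi)
    exact (hTiff _).1 hiO ((hrepT i').2 hi')
  have hsplit : (univ.image π).card ≤ ((univ \ T).image π).card + (T.image π).card := by
    have h1 : univ.image π = (univ \ T).image π ∪ T.image π := by
      rw [← image_union, sdiff_union_of_subset (subset_univ _)]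
    rw [h1]
    exact card_union_le _ _
  omega

end Pool.Agent.Helper36.ZU
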