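import Pool.Agent.Helper36.ZU.Final
import Pool.Agent.Helper20.ZT.Moeb

/-! # Diagonal Möbius transformations of curves -/

namespace Pool.Agent.Helper36.ZU
open Finset MvPolynomial Pool.Agent.Helper11.ZP Pool.Agent.Helper20.ZT Pool.Agent

variable {n : ℕ}

lemma rev_aeval {K : Type*} [Field K] [Algebra ℂ K] (F : MvPolynomial (Fin n) ℂ) {w : Fin n → K}
    (hw : ∀ i, w i ≠ 0) :
    aeval w (rev F) = (∏ i, w i ^ F.degreeOf i) * aeval (fun i => (w i)⁻¹) F := by
  rw [rev, map_sum, aeval_def (fun i => (w i)⁻¹), eval₂_eq', Finset.mul_sum]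
  refine Finset.sum_congr rfl fun m hm => ?_
  rw [aeval_monomial, Finsupp.prod_fintype _ _ (fun i => pow_zero _)]
  have h1 : ∀ i, w i ^ ((topE F - m) i) = w i ^ F.degreeOf i * (w i)⁻¹ ^ m i := by
    intro i
    have h2 := le_topE hm i
    have h3 : (topE F - m) i + m i = F.degreeOf i := by
      rw [Finsupp.coe_tsub, Pi.sub_apply]
      exact Nat.sub_add_cancel h2
    rw [← h3, pow_add, inv_pow, mul_assoc, mul_inv_cancel₀ (pow_ne_zero _ (hw i)), mul_one]
  simp only [h1]
  rw [Finset.prod_mul_distrib]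
  ring

/-- the image points of the Möbius transformation -/
def pts (γ : Fin n → ℂ) (Z : Set (Fin n → ℂ)) : Set (Fin n → ℂ) :=
  {w : Fin n → ℂ | ∃ z ∈ Z, ∀ i, z i ≠ γ i ∧ w i = 1 / (z i - γ i)}

lemma moeb_eq (γ : Fin n → ℂ) (Z : Set (Fin n → ℂ)) : moeb γ Z = zeroLocus ℂ (vanishingIdeal ℂ (pts γ Z)) := rfl

section
variable {I : Ideal (MvPolynomial (Fin n) ℂ)} [hI : I.IsPrime] {γ : Fin n → ℂ}

/-- the coordinates minus `γ` -/
noncomputable def cd (I : Ideal (MvPolynomial (Fin n) ℂ)) [I.IsPrime] (γ : Fin n → ℂ) (i : Fin n) :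
    FractionRing (MvPolynomial (Fin n) ℂ ⧸ I) :=
  algebraMap (MvPolynomial (Fin n) ℂ ⧸ I) _ (Ideal.Quotient.mk I (X i - C (γ i)))

/-- the coordinates of the transformed variety -/
noncomputable def psi (I : Ideal (MvPolynomial (Fin n) ℂ)) [I.IsPrime] (γ : Fin n → ℂ) :
    MvPolynomial (Fin n) ℂ →ₐ[ℂ] FractionRing (MvPolynomial (Fin n) ℂ ⧸ I) :=
  aeval fun i => (cd I γ i)⁻¹

lemma cd_ne (h : ∀ i, X i - C (γ i) ∉ I) (i : Fin n) : cd I γ i ≠ 0 := by
  intro h0
  have h1 := (IsFractionRing.injective (MvPolynomial (Fin n) ℂ ⧸ I)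
    (FractionRing (MvPolynomial (Fin n) ℂ ⧸ I))) (h0.trans (map_zero _).symm)
  exact h i (Ideal.Quotient.eq_zero_iff_mem.1 h1)

lemma aeval_cd (f : MvPolynomial (Fin n) ℂ) : aeval (cd I γ) f =
    algebraMap (MvPolynomial (Fin n) ℂ ⧸ I) _ (Ideal.Quotient.mk I (shift (-γ) f)) := by
  have h1 : (aeval (cd I γ) : MvPolynomial (Fin n) ℂ →ₐ[ℂ] FractionRing (MvPolynomial (Fin n) ℂ ⧸ I)) =
      ((IsScalarTower.toAlgHom ℂ (MvPolynomial (Fin n) ℂ ⧸ I) (FractionRing (MvPolynomial (Fin n) ℂ ⧸ I))).comp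
        (Ideal.Quotient.mkₐ ℂ I)).comp (shift (-γ) : MvPolynomial (Fin n) ℂ →ₐ[ℂ] MvPolynomial (Fin n) ℂ) := by
    apply MvPolynomial.algHom_ext
    intro i
    have h2 : (shift (-γ)) (X i) = X i - C (γ i) := by
      simp [shift, sub_eq_add_neg]
    simp only [AlgHom.comp_apply, aeval_X]
    change cd I γ i = algebraMap _ _ (Ideal.Quotient.mk I (shift (-γ) (X i)))
    rw [h2]
    rfl
  exact AlgHom.congr_fun h1 f

/-- the vanishing ideal of the image -/
lemma mem_van_pts (h : ∀ i, X i - C (γ i) ∉ I) (f : MvPolynomial (Fin n) ℂ) :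
    f ∈ vanishingIdeal ℂ (pts γ (zeroLocus ℂ I)) ↔ psi I γ f = 0 := by
  have hvan : vanishingIdeal ℂ (zeroLocus ℂ I) = I := IsPrime.vanishingIdeal_zeroLocus I
  have h1 : psi I γ f = 0 ↔ shift (-γ) (rev f) ∈ I := by
    have h2 := rev_aeval f (cd_ne h)
    rw [aeval_cd] at h2
    have h3 : (∏ i, cd I γ i ^ f.degreeOf i) ≠ 0 :=
      Finset.prod_ne_zero_iff.2 fun i _ => pow_ne_zero _ (cd_ne h i)
    rw [← Ideal.Quotient.eq_zero_iff_mem, ← (IsFractionRing.injective (MvPolynomial (Fin n) ℂ ⧸ I)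
      (FractionRing (MvPolynomial (Fin n) ℂ ⧸ I))).eq_iff, h2, map_zero, mul_eq_zero, or_iff_right h3]
    rfl
  have h4 : ∀ z : Fin n → ℂ, (∀ i, z i ≠ γ i) → (eval (fun i => 1 / (z i - γ i)) f = 0 ↔
      eval z (shift (-γ) (rev f)) = 0) := by
    intro z hz
    have hz' : ∀ i, z i - γ i ≠ 0 := fun i => sub_ne_zero.2 (hz i)
    rw [eval_shift]
    have h5 := rev_eval f (w := fun i => z i - γ i) hz'
    have h6 : (∏ i, (z i - γ i) ^ f.degreeOf i) ≠ 0 :=
      Finset.prod_ne_zero_iff.2 fun i _ => pow_ne_zero _ (hz' i)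
    simp only [Pi.neg_apply, ← sub_eq_add_neg]
    rw [h5, mul_eq_zero, or_iff_right h6]
    simp only [one_div]
  rw [h1]
  constructor
  · intro hf
    have hΔ : (∏ i, (X i - C (γ i))) * shift (-γ) (rev f) ∈ I := by
      rw [← hvan, mem_vanishingIdeal_iff]
      intro z hz
      rw [aeval_eq_eval]
      change eval z _ = 0
      rw [map_mul, map_prod, mul_eq_zero]
      by_cases hzγ : ∀ i, z i ≠ γ i
      · right
        refine (h4 z hzγ).1 ?_
        have := (mem_vanishingIdeal_iff.1 hf) (fun i => 1 / (z i - γ i)) ⟨z, hz, fun i => ⟨hzγ i, rfl⟩⟩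
        rwa [aeval_eq_eval] at this
      · left
        push Not at hzγ
        obtain ⟨i, hi⟩ := hzγ
        refine Finset.prod_eq_zero (mem_univ i) ?_
        simp [hi]
    refine (hI.mem_or_mem hΔ).resolve_left fun hcon => ?_
    obtain ⟨i, -, hi⟩ := (Ideal.IsPrime.prod_mem_iff).1 hcon
    exact h i hi
  · intro hf
    rw [mem_vanishingIdeal_iff]
    rintro w ⟨z, hz, hw⟩
    rw [aeval_eq_eval]
    have hw' : w = fun i => 1 / (z i - γ i) := funext fun i => (hw i).2
    change eval w f = 0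
    rw [hw', h4 z fun i => (hw i).1]
    have := hz _ hf
    rwa [aeval_eq_eval] at this

lemma van_pts (h : ∀ i, X i - C (γ i) ∉ I) :
    vanishingIdeal ℂ (pts γ (zeroLocus ℂ I)) = RingHom.ker (psi I γ) := by
  ext f
  rw [mem_van_pts h, RingHom.mem_ker]

theorem isSubvariety_moeb (h : ∀ i, X i - C (γ i) ∉ I) : IsSubvariety (moeb γ (zeroLocus ℂ I)) := by
  rw [moeb_eq, van_pts h]
  exact ⟨_, RingHom.ker_isPrime _, rfl⟩

/-- the transformation preserves the dimension -/
theorem dim_moeb (h : ∀ i, X i - C (γ i) ∉ I) : dim (moeb γ (zeroLocus ℂ I)) = dim (zeroLocus ℂ I) := by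
  have hker : (RingHom.ker (psi I γ)).IsPrime := RingHom.ker_isPrime _
  have hv1 : vanishingIdeal ℂ (moeb γ (zeroLocus ℂ I)) = RingHom.ker (psi I γ) := by
    rw [moeb_eq, van_pts h]
    exact IsPrime.vanishingIdeal_zeroLocus _
  have hv2 : vanishingIdeal ℂ (zeroLocus ℂ I) = I := IsPrime.vanishingIdeal_zeroLocus I
  rw [dim, dim, hv1, hv2]
  congr 1
  set B := MvPolynomial (Fin n) ℂ ⧸ I with hB
  set L := FractionRing B with hL
  let A := MvPolynomial (Fin n) ℂ ⧸ RingHom.ker (psi I γ)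
  change Algebra.trdeg ℂ A = Algebra.trdeg ℂ B
  have hdA : IsDomain A := Ideal.Quotient.isDomain _
  let ι : A →ₐ[ℂ] L := Ideal.kerLiftAlg (psi I γ)
  have hι : Function.Injective ι := Ideal.kerLiftAlg_injective _
  let _ := ι.toRingHom.toAlgebra
  have htower : IsScalarTower ℂ A L := IsScalarTower.of_algebraMap_eq fun a => (ι.commutes a).symm
  have hf1 : FaithfulSMul A L := (faithfulSMul_iff_algebraMap_injective _ _).2 hι
  have hf2 : FaithfulSMul ℂ A := (faithfulSMul_iff_algebraMap_injective _ _).2 (algebraMap ℂ _).injective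
  have hf3 : FaithfulSMul ℂ B := (faithfulSMul_iff_algebraMap_injective ℂ B).2 (algebraMap ℂ B).injective
  -- `L` is algebraic over `A`
  have hy : ∀ i, IsAlgebraic A (cd I γ i) := by
    intro i
    have h1 : IsAlgebraic A ((cd I γ i)⁻¹) := by
      have h2 : (cd I γ i)⁻¹ = algebraMap A L (Ideal.Quotient.mk _ (X i)) := by
        change _ = psi I γ (X i)
        rw [psi, aeval_X]
      rw [h2]
      exact isAlgebraic_algebraMap _
    rw [← inv_inv (cd I γ i)]
    exact h1.inv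
  have hCalg : ∀ c : ℂ, IsAlgebraic A (algebraMap ℂ L c) := by
    intro c
    rw [IsScalarTower.algebraMap_apply ℂ A L]
    exact isAlgebraic_algebraMap _
  have hb : ∀ b : B, IsAlgebraic A (algebraMap B L b) := by
    intro b
    obtain ⟨f, rfl⟩ := Ideal.Quotient.mk_surjective b
    induction f using MvPolynomial.induction_on with
    | C c => exact hCalg c
    | add p q hp hq =>
      rw [map_add, map_add]
      exact hp.add hq
    | mul_X p i hp =>
      rw [map_mul, map_mul]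
      refine hp.mul ?_
      have h1 : algebraMap B L (Ideal.Quotient.mk I (X i)) = cd I γ i + algebraMap ℂ L (γ i) := by
        rw [cd, map_sub, map_sub]
        change _ = _ - algebraMap ℂ L (γ i) + algebraMap ℂ L (γ i)
        rw [sub_add_cancel]
      rw [h1]
      exact (hy i).add (hCalg _)
  have halg : Algebra.IsAlgebraic A L := by
    refine ⟨fun l => ?_⟩
    obtain ⟨a, b, -, rfl⟩ := IsFractionRing.div_surjective (A := B) l
    rw [div_eq_mul_inv]
    exact (hb a).mul (hb b).inv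
  have h1 := trdeg_add_eq ℂ A (A := L)
  rw [trdeg_eq_zero (R := A) (A := L), add_zero] at h1
  have halg2 : Algebra.IsAlgebraic B L := IsLocalization.isAlgebraic _ (nonZeroDivisors B)
  have h2 := trdeg_add_eq ℂ B (A := L)
  rw [trdeg_eq_zero (R := B) (A := L), add_zero] at h2
  rw [h1, h2]

end

/-- polynomials containing their top monomial on the transformed variety -/
lemma topIn_moeb {V : Set (Fin n → ℂ)} {γ : Fin n → ℂ} {J : Finset (Fin n)} {g : MvPolynomial (Fin n) ℂ}
    (hv : g.vars ⊆ J) (hz : ∀ z ∈ V, eval z g = 0) (hγ : eval γ g ≠ 0) :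
    ∃ f, TopIn J f ∧ ∀ w ∈ moeb γ V, eval w f = 0 := by
  classical
  set F : MvPolynomial (Fin n) ℂ := aeval (fun i => X i + C (γ i)) g with hF
  have hFv : F.vars ⊆ J := by
    intro i hi
    rw [hF] at hi
    obtain ⟨j, hj, hij⟩ := Finset.mem_biUnion.1 (vars_bind₁ (fun i => X i + C (γ i)) g hi)
    have h1 := vars_add_subset _ _ hij
    rw [vars_X, vars_C, Finset.union_empty, Finset.mem_singleton] at h1
    rw [h1]
    exact hv hj
  have hF0 : F.coeff 0 ≠ 0 := by
    rw [← constantCoeff_eq, ← eval_zero]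
    have : eval (0 : Fin n → ℂ) F = eval γ g := by
      rw [hF, ← aeval_eq_eval, ← aeval_eq_eval, ← AlgHom.comp_apply]
      congr 1
      apply MvPolynomial.algHom_ext
      intro i
      simp
    rw [this]
    exact hγ
  refine ⟨rev F, rev_topIn hFv hF0, ?_⟩
  have hvan : rev F ∈ vanishingIdeal ℂ {w : Fin n → ℂ | ∃ z ∈ V, ∀ i, z i ≠ γ i ∧ w i = 1 / (z i - γ i)} := by
    rintro w ⟨z, hzV, hw⟩
    rw [aeval_eq_eval]
    have hw0 : ∀ i, w i ≠ 0 := by
      intro i
      rw [(hw i).2]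
      exact one_div_ne_zero (sub_ne_zero.2 (hw i).1)
    rw [rev_eval F hw0]
    have h1 : eval (fun i => (w i)⁻¹) F = eval z g := by
      rw [hF, ← aeval_eq_eval, ← aeval_eq_eval, ← AlgHom.comp_apply]
      congr 1
      apply MvPolynomial.algHom_ext
      intro i
      simp [(hw i).2]
    rw [h1, hz z hzV, mul_zero]
  intro w hw
  have := hw _ hvan
  rwa [aeval_eq_eval] at this

/-- a polynomial in `T_i, T_j` vanishing on the diagonal is divisible by `T_i - T_j` -/
lemma dvd_of_diag {i j : Fin n} {g : MvPolynomial (Fin n) ℂ} (hv : g.vars ⊆ {i, j})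
    (h : ∀ t : ℂ, eval (fun _ => t) g = 0) : (X i - X j : MvPolynomial (Fin n) ℂ) ∣ g := by
  classical
  let σ : MvPolynomial (Fin n) ℂ →ₐ[ℂ] MvPolynomial (Fin n) ℂ := aeval (fun k => if k = i then X j else X k)
  have h1 : σ g = 0 := by
    apply MvPolynomial.funext
    intro z
    have h2 : eval z (σ g) = eval (fun k => if k = i then z j else z k) g := by
      change eval z (aeval (fun k => if k = i then X j else X k) g) = _
      rw [← aeval_eq_eval, ← aeval_eq_eval, ← AlgHom.comp_apply]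
      congr 1
      apply MvPolynomial.algHom_ext
      intro k
      simp only [AlgHom.comp_apply, aeval_X]
      split_ifs <;> simp
    rw [h2, map_zero, ← h (z j)]
    refine MvPolynomial.eval₂Hom_congr' rfl (fun k hk _ => ?_) rfl
    have h3 := hv hk
    rw [Finset.mem_insert, Finset.mem_singleton] at h3
    rcases h3 with rfl | rfl
    · simp
    · split_ifs <;> rfl
  have h2 : ((Ideal.Quotient.mkₐ ℂ (Ideal.span {(X i - X j : MvPolynomial (Fin n) ℂ)})).comp σ) =
      Ideal.Quotient.mkₐ ℂ (Ideal.span {(X i - X j : MvPolynomial (Fin n) ℂ)}) := by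
    apply MvPolynomial.algHom_ext
    intro k
    change Ideal.Quotient.mk _ (σ (X k)) = Ideal.Quotient.mk _ (X k)
    have h3 : σ (X k) = if k = i then X j else X k := aeval_X _ _
    rw [h3]
    split_ifs with hk
    · subst hk
      rw [Ideal.Quotient.eq, Ideal.mem_span_singleton]
      exact ⟨-1, by ring⟩
    · rfl
  have h3 := AlgHom.congr_fun h2 g
  rw [AlgHom.comp_apply, h1, map_zero] at h3
  exact Ideal.mem_span_singleton.1 (Ideal.Quotient.eq_zero_iff_mem.1 h3.symm)

/-- a relation between two different coordinates of a curve which does not vanish identically on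
the diagonal -/
lemma exists_pair {I : Ideal (MvPolynomial (Fin n) ℂ)} [hI : I.IsPrime] (h1 : dim (zeroLocus ℂ I) ≤ 1)
    {i j : Fin n} (hij : i ≠ j) (hX : (X i - X j : MvPolynomial (Fin n) ℂ) ∉ I) :
    ∃ g : MvPolynomial (Fin n) ℂ, g.vars ⊆ {i, j} ∧ (∀ z ∈ zeroLocus ℂ I, eval z g = 0) ∧
      ∃ t : ℂ, eval (fun _ => t) g ≠ 0 := by
  classical
  have hvan : vanishingIdeal ℂ (zeroLocus ℂ I) = I := IsPrime.vanishingIdeal_zeroLocus I
  let P : ℕ → Prop := fun N => ∃ g : MvPolynomial (Fin n) ℂ, g ≠ 0 ∧ g.vars ⊆ {i, j} ∧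
    (∀ z ∈ zeroLocus ℂ I, eval z g = 0) ∧ g.totalDegree = N
  have hP : ∃ N, P N := by
    obtain ⟨g, h2, h3, h4⟩ := exists_dep (V := zeroLocus ℂ I) ⟨I, hI, rfl⟩ (J := {i, j}) (by
      rw [Finset.card_pair hij]; omega)
    exact ⟨_, g, h2, h3, h4, rfl⟩
  obtain ⟨g, hg0, hgv, hgz, hgN⟩ := Nat.find_spec hP
  refine ⟨g, hgv, hgz, ?_⟩
  by_contra hcon
  push Not at hcon
  obtain ⟨h, rfl⟩ := dvd_of_diag hgv hcon
  have hX0 : (X i - X j : MvPolynomial (Fin n) ℂ) ≠ 0 := left_ne_zero_of_mul hg0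
  have hh0 : h ≠ 0 := right_ne_zero_of_mul hg0
  have hhv : h.vars ⊆ {i, j} := by
    intro k hk
    apply hgv
    rw [mem_vars_iff_degreeOf_ne_zero] at hk ⊢
    rw [degreeOf_mul_eq hX0 hh0]
    omega
  have hhI : ∀ z ∈ zeroLocus ℂ I, eval z h = 0 := by
    have h2 : (X i - X j) * h ∈ I := by
      rw [← hvan, mem_vanishingIdeal_iff]
      intro z hz
      rw [aeval_eq_eval]
      exact hgz z hz
    have h3 := (hI.mem_or_mem h2).resolve_left hX
    intro z hz
    have := hz _ h3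
    rwa [aeval_eq_eval] at this
  have hdeg : h.totalDegree < ((X i - X j) * h).totalDegree := by
    rw [totalDegree_mul_of_isDomain hX0 hh0]
    have h4 : 0 < (X i - X j : MvPolynomial (Fin n) ℂ).totalDegree := by
      rw [Nat.pos_iff_ne_zero, ne_eq, totalDegree_eq_zero_iff]
      intro h5
      have h6 : Finsupp.single i 1 ∈ (X i - X j : MvPolynomial (Fin n) ℂ).support := by
        rw [mem_support_iff, coeff_sub, coeff_X, coeff_X, if_pos rfl, if_neg]
        · simp
        · intro h7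
          have := DFunLike.congr_fun h7 i
          simp [Ne.symm hij] at this
      have := h5 _ h6 i
      simp at this
    omega
  exact absurd hdeg (not_lt.2 (hgN ▸ Nat.find_min' hP ⟨h, hh0, hhv, hhI, rfl⟩))

/-- **every curve is in hereditary general position after almost every diagonal Möbius
transformation** -/
theorem herGP_moeb {V : Set (Fin n → ℂ)} (hV : IsSubvariety V) (h1 : dim V ≤ 1) :
    {g : ℂ | ¬ (IsSubvariety (moeb (fun _ => g) V) ∧ dim (moeb (fun _ => g) V) = dim V ∧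
      HerGP (fun _ : Fin n => ()) (moeb (fun _ => g) V))}.Finite := by
  classical
  obtain ⟨I, hI, rfl⟩ := hV
  have hpair : ∀ i j : Fin n, ∃ g : MvPolynomial (Fin n) ℂ, (∃ t : ℂ, eval (fun _ => t) g ≠ 0) ∧
      (i ≠ j → (X i - X j : MvPolynomial (Fin n) ℂ) ∉ I → g.vars ⊆ {i, j} ∧
        ∀ z ∈ zeroLocus ℂ I, eval z g = 0) := by
    intro i j
    by_cases h : i ≠ j ∧ (X i - X j : MvPolynomial (Fin n) ℂ) ∉ I
    · obtain ⟨g, h2, h3, h4⟩ := exists_pair h1 h.1 h.2
      exact ⟨g, h4, fun _ _ => ⟨h2, h3⟩⟩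
    · exact ⟨1, ⟨0, by simp⟩, fun h2 h3 => absurd ⟨h2, h3⟩ h⟩
  choose g hg0 hg using hpair
  -- the exceptional set
  let q : Fin n → Fin n → Polynomial ℂ := fun i j => aeval (fun _ => Polynomial.X) (g i j)
  have hq : ∀ i j t, (q i j).eval t = eval (fun _ => t) (g i j) := by
    intro i j t
    change Polynomial.eval t (aeval (fun _ => Polynomial.X) (g i j)) = _
    rw [← Polynomial.coe_aeval_eq_eval, ← aeval_eq_eval, ← AlgHom.comp_apply]
    congr 1
    apply MvPolynomial.algHom_ext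
    intro k
    simp
  have hq0 : ∀ i j, q i j ≠ 0 := by
    intro i j h0
    obtain ⟨t, ht⟩ := hg0 i j
    rw [← hq, h0] at ht
    simp at ht
  have hfin1 : {t : ℂ | ∃ i j, (q i j).eval t = 0}.Finite := by
    rw [Set.ofPred_exists]
    refine Set.finite_iUnion fun i => ?_
    rw [Set.ofPred_exists]
    refine Set.finite_iUnion fun j => ?_
    refine ((q i j).roots.toFinset.finite_toSet).subset fun t ht => ?_
    rw [Finset.mem_coe, Multiset.mem_toFinset, Polynomial.mem_roots (hq0 i j)]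
    exact ht
  have hfin2 : {t : ℂ | ∃ i, (X i - C t : MvPolynomial (Fin n) ℂ) ∈ I}.Finite := by
    rw [Set.ofPred_exists]
    refine Set.finite_iUnion fun i => ?_
    refine Set.Subsingleton.finite fun t ht t' ht' => ?_
    by_contra hne
    have h2 : C (t' - t) ∈ I := by
      have h3 := I.sub_mem ht ht'
      have h4 : (X i - C t : MvPolynomial (Fin n) ℂ) - (X i - C t') = C (t' - t) := by
        rw [C_sub]; ring
      rwa [h4] at h3
    have h5 : IsUnit (C (t' - t) : MvPolynomial (Fin n) ℂ) :=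
      (isUnit_iff_ne_zero.2 (sub_ne_zero.2 (Ne.symm hne))).map C
    exact hI.ne_top (Ideal.eq_top_of_isUnit_mem _ h2 h5)
  refine (hfin1.union hfin2).subset fun t ht => ?_
  by_contra hcon
  rw [Set.mem_union, not_or] at hcon
  obtain ⟨hc1, hc2⟩ := hcon
  have hc2' : ∀ i, X i - C ((fun _ : Fin n => t) i) ∉ I := fun i hi => hc2 ⟨i, hi⟩
  apply ht
  have hsub := isSubvariety_moeb (γ := fun _ => t) hc2'
  have hdim := dim_moeb (γ := fun _ => t) hc2'
  refine ⟨hsub, hdim, herGP_curve hsub (hdim ▸ h1) fun i j hij hne => ?_⟩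
  obtain ⟨w, hw, hwij⟩ := hne rfl
  have hX : (X i - X j : MvPolynomial (Fin n) ℂ) ∉ I := by
    intro h2
    apply hwij
    have h3 : (X i - X j : MvPolynomial (Fin n) ℂ) ∈ vanishingIdeal ℂ (pts (fun _ => t) (zeroLocus ℂ I)) := by
      rw [mem_vanishingIdeal_iff]
      rintro w ⟨z, hz, hw⟩
      have h4 := hz _ h2
      simp only [map_sub, aeval_X] at h4 ⊢
      rw [(hw i).2, (hw j).2, sub_eq_zero.1 h4, sub_self]
    have h5 := hw _ h3
    simpa [sub_eq_zero] using h5
  obtain ⟨h2, h3⟩ := hg i j hij hX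
  refine topIn_moeb h2 h3 fun h4 => hc1 ⟨i, j, ?_⟩
  rw [hq]
  exact h4

end Pool.Agent.Helper36.ZU
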