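import Pool.Agent.Helper36.ZU.Moeb

/-! # General Möbius transformations of subvarieties -/

namespace Pool.Agent.Helper36.ZU
open Finset MvPolynomial Pool.Agent.Helper11.ZP Pool.Agent.Helper20.ZT Pool.Agent

variable {n : ℕ}

/-- **every subvariety is in general position after almost every coordinatewise Möbius
transformation**, and stays a subvariety of the same dimension -/
theorem exists_moeb {V : Set (Fin n → ℂ)} (hV : IsSubvariety V) :
    ∃ P : MvPolynomial (Fin n) ℂ, P ≠ 0 ∧ ∀ γ : Fin n → ℂ, eval γ P ≠ 0 →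
      IsSubvariety (moeb γ V) ∧ dim (moeb γ V) = dim V ∧ GenPos (dim V) (moeb γ V) := by
  classical
  obtain ⟨P₀, hP₀, h⟩ := genPos_moeb hV
  obtain ⟨I, hI, rfl⟩ := hV
  have huniq : ∀ (i : Fin n) (t t' : ℂ), (X i - C t : MvPolynomial (Fin n) ℂ) ∈ I →
      (X i - C t' : MvPolynomial (Fin n) ℂ) ∈ I → t = t' := by
    intro i t t' ht ht'
    by_contra hne
    have h2 : C (t' - t) ∈ I := by
      have h3 := I.sub_mem ht ht'
      have h4 : (X i - C t : MvPolynomial (Fin n) ℂ) - (X i - C t') = C (t' - t) := by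
        rw [C_sub]; ring
      rwa [h4] at h3
    have h5 : IsUnit (C (t' - t) : MvPolynomial (Fin n) ℂ) :=
      (isUnit_iff_ne_zero.2 (sub_ne_zero.2 (Ne.symm hne))).map C
    exact hI.ne_top (Ideal.eq_top_of_isUnit_mem _ h2 h5)
  have hQ : ∀ i : Fin n, ∃ Q : MvPolynomial (Fin n) ℂ, Q ≠ 0 ∧ ∀ γ : Fin n → ℂ, eval γ Q ≠ 0 →
      (X i - C (γ i) : MvPolynomial (Fin n) ℂ) ∉ I := by
    intro i
    by_cases hex : ∃ t, (X i - C t : MvPolynomial (Fin n) ℂ) ∈ I
    · obtain ⟨t, ht⟩ := hex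
      refine ⟨X i - C t, ?_, fun γ hγ hcon => ?_⟩
      · intro h0
        have h1 := congrArg (eval fun _ => t + 1) h0
        simp at h1
      · apply hγ
        rw [map_sub, eval_X, eval_C, huniq i _ _ hcon ht, sub_self]
    · exact ⟨1, one_ne_zero, fun γ _ hcon => hex ⟨_, hcon⟩⟩
  choose Q hQ0 hQ using hQ
  refine ⟨P₀ * ∏ i, Q i, mul_ne_zero hP₀ (Finset.prod_ne_zero_iff.2 fun i _ => hQ0 i), fun γ hγ => ?_⟩
  rw [map_mul, map_prod] at hγ
  have h1 := left_ne_zero_of_mul hγ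
  have h2 := Finset.prod_ne_zero_iff.1 (right_ne_zero_of_mul hγ)
  have h3 : ∀ i, (X i - C (γ i) : MvPolynomial (Fin n) ℂ) ∉ I := fun i => hQ i γ (h2 i (mem_univ i))
  exact ⟨isSubvariety_moeb h3, dim_moeb h3, h γ h1⟩

end Pool.Agent.Helper36.ZU
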