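import Pool.Agent.Helper20.ZT.RigidE

/-! # Rigidity with the diagonal removed -/

open UpperHalfPlane ModularForm Complex Filter Function
open scoped Real MatrixGroups Topology Manifold

namespace Pool.Agent.Helper36.ZU
open Pool.Agent.Helper11.ZP Pool.Agent.Helper20.ZT

/-- rigidity of the pair `x, y` at `O`: if both are not in `O` and have the same valuation, then either
`x = y` or `y - ζ x ∈ O` for a root of unity `ζ ≠ 1` -/
def Rig2 {K : Type*} [Field K] (O : ValuationSubring K) (x y : K) : Prop :=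
  x ∉ O → O.valuation x = O.valuation y →
    x = y ∨ ∃ (N : ℕ) (ζ : K), 0 < N ∧ ζ ^ N = 1 ∧ ζ ≠ 1 ∧ y - ζ * x ∈ O

section orbit
variable (m : ℤ) [hm : Fact (0 < m)]

/-- an orbit is the scalar one -/
def Scal (o : Orb m) : Prop := zo m o = 1 ∧ ko m o = m.toNat

lemma scal_entries {o : Orb m} (h : Scal m o) : (U m o).1 0 1 = 0 ∧ (U m o).1 1 1 = (U m o).1 0 0 ∧
    (U m o).1 0 0 * (U m o).1 0 0 = m := by
  obtain ⟨h1, h2⟩ := h
  have h00 := U00 m o
  have had := ad_eq (U m o) (U10 m o)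
  have hd := d_pos (U m o) (U10 m o) (U00 m o)
  have hrep := (exists_rep' m o).choose_spec.1
  change (U m o).1 1 0 = 0 ∧ 0 < (U m o).1 0 0 ∧ 0 ≤ (U m o).1 0 1 ∧ |(U m o).1 0 1| < |(U m o).1 1 1| at hrep
  obtain ⟨-, -, hb0, hb1⟩ := hrep
  have e1 : (U m o).1 0 0 * (U m o).1 0 0 = m := by
    unfold ko at h2
    have h3 := congrArg (fun z : ℕ => (z : ℤ)) h2
    simp only [Nat.cast_pow] at h3
    rw [Int.toNat_of_nonneg h00.le, Int.toNat_of_nonneg hm.out.le] at h3
    exact (pow_two _).symm.trans h3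
  have e2 : (U m o).1 1 1 = (U m o).1 0 0 := by
    apply mul_left_cancel₀ h00.ne'
    rw [had, e1]
  refine ⟨?_, e2, e1⟩
  have h4 : zt (U m o) = 1 := congrArg Subtype.val h1
  rw [zt, Complex.exp_eq_one_iff] at h4
  obtain ⟨k, hk⟩ := h4
  have hpi : (2 * (π : ℂ) * Complex.I) ≠ 0 := Complex.two_pi_I_ne_zero
  have hd0 : (((U m o).1 1 1 : ℤ) : ℂ) ≠ 0 := by exact_mod_cast hd.ne'
  have h5 : (((U m o).1 0 1 : ℤ) : ℂ) = k * (((U m o).1 1 1 : ℤ) : ℂ) := by
    rw [div_eq_iff hd0] at hk
    apply mul_left_cancel₀ hpi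
    rw [hk]; ring
  have h6 : (U m o).1 0 1 = k * (U m o).1 1 1 := by exact_mod_cast h5
  rw [abs_of_nonneg hb0, abs_of_pos hd] at hb1
  have h7 : (U m o).1 0 1 = 0 := by
    have hk0 : 0 ≤ k := by
      by_contra hcon
      push Not at hcon
      have : k * (U m o).1 1 1 < 0 := mul_neg_of_neg_of_pos hcon hd
      omega
    have hk1 : k < 1 := by
      by_contra hcon
      push Not at hcon
      have : 1 * (U m o).1 1 1 ≤ k * (U m o).1 1 1 := mul_le_mul_of_nonneg_right hcon hd.le
      omega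
    have : k = 0 := by omega
    rw [h6, this, zero_mul]
  exact h7

lemma scal_unique {o o' : Orb m} (h : Scal m o) (h' : Scal m o') : o = o' := by
  obtain ⟨a1, a2, a3⟩ := scal_entries m h
  obtain ⟨b1, b2, b3⟩ := scal_entries m h'
  have h00 := U00 m o
  have h00' := U00 m o'
  have e : (U m o).1 0 0 = (U m o').1 0 0 := by nlinarith
  have hU : U m o = U m o' := by
    apply FixedDetMatrices.ext'
    ext i j
    fin_cases i <;> fin_cases j
    · exact e
    · change (U m o).1 0 1 = (U m o').1 0 1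
      rw [a1, b1]
    · change (U m o).1 1 0 = (U m o').1 1 0
      rw [U10, U10]
    · change (U m o).1 1 1 = (U m o').1 1 1
      rw [a2, b2, e]
  rw [← mkO_U m o, ← mkO_U m o', hU]

/-- the diagonal satisfies the modular equation of square level -/
lemma RD_zero {o : Orb m} (h : Scal m o) : RD m = 0 := by
  obtain ⟨a1, a2, a3⟩ := scal_entries m h
  have hfix : ∀ τ : ℍ, toGL hm.out (U m o) • τ = τ := by
    intro τ
    apply toGL_smul_eq
    rw [U10, a1, a2]
    push_cast
    ring
  have h1 : ∀ x : ℂ, ((RD m).map (algebraMap OO ℂ)).eval x = 0 := by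
    intro x
    obtain ⟨τ, rfl⟩ := jInv_surjective x
    have h2 := KK_zero m (hfix τ)
    rw [KK_eq] at h2
    rw [Polynomial.eval_map]
    exact (mul_eq_zero.1 h2).resolve_left (pow_ne_zero _ (discriminant_ne_zero τ))
  have h2 : (RD m).map (algebraMap OO ℂ) = 0 := Polynomial.funext fun x => by rw [h1, Polynomial.eval_zero]
  exact (Polynomial.map_eq_zero_iff (FaithfulSMul.algebraMap_injective _ _)).1 h2

end orbit

section core
variable {K : Type*} [Field K] [Algebra ℂ K] (O : ValuationSubring K)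

/-- a factor different from the scalar one is small -/
lemma exists_small (m : ℤ) [hm : Fact (0 < m)] (L : ℕ) {t x y : K} (vt : O.valuation t < 1) (ht0 : t ≠ 0)
    (hy0 : y ≠ 0) (hyO : y⁻¹ ∈ O) (vxy : O.valuation x = O.valuation y) (hne : x ≠ y)
    (hLn : m.toNat ≤ L + 2)
    (hq : (tr dS qexp_disc_mem 1 1 (ss m * L + 3)).eval₂ (ph K) (t ^ m.toNat) * x =
      (tr eS qexp_Ecube_mem 1 1 (ss m * L + 3)).eval₂ (ph K) (t ^ m.toNat))
    (vD : O.valuation ((tr dS qexp_disc_mem 1 1 (ss m * L + 3)).eval₂ (ph K) (t ^ m.toNat)) =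
      O.valuation t ^ m.toNat)
    (hrel : ∑ i ∈ Finset.range (ss m + 1), (pp m i).eval₂ (ph K) x * y ^ i = 0) :
    ∃ o : Orb m, ¬ Scal m o ∧ O.valuation ((tr dS qexp_disc_mem 1 1 (ss m * L + 3)).eval₂ (ph K)
      (ph K (zo m o) * t ^ ko m o) - (tr eS qexp_Ecube_mem 1 1 (ss m * L + 3)).eval₂ (ph K)
      (ph K (zo m o) * t ^ ko m o) * y⁻¹) ≤ O.valuation t ^ L := by
  classical
  set M := ss m * L + 3 with hM
  set n := m.toNat with hn
  have htO : t ∈ O := (val_mem O).2 vt.le
  have vt0 : 0 < O.valuation t := zero_lt_iff.2 (by rwa [ne_eq, Valuation.zero_iff])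
  have hw0 : y⁻¹ ≠ 0 := inv_ne_zero hy0
  have hmono : ∀ {a b : ℕ}, a ≤ b → O.valuation t ^ b ≤ O.valuation t ^ a := fun h =>
    pow_le_pow_right_of_le_one' vt.le h
  set fac : Orb m → K := fun o => (tr dS qexp_disc_mem 1 1 M).eval₂ (ph K)
      (ph K (zo m o) * t ^ ko m o) - (tr eS qexp_Ecube_mem 1 1 M).eval₂ (ph K)
      (ph K (zo m o) * t ^ ko m o) * y⁻¹ with hfac
  set Os : Finset (Orb m) := Finset.univ.filter fun o => ¬ Scal m o with hOs
  have hLz : (LH m M).eval₂ (Polynomial.eval₂RingHom (ph K) t) y = 0 := LH_zero m M hq hrel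
  by_contra hcon
  push Not at hcon
  have hbig : O.valuation t ^ (L * Os.card) ≤ O.valuation (∏ o ∈ Os, fac o) := by
    rcases Os.eq_empty_or_nonempty with h0 | h0
    · rw [h0, Finset.card_empty, Finset.prod_empty, mul_zero, pow_zero, map_one]
    · have h1 := val_prod Os (fun o => O.valuation (fac o)) (pow_pos vt0 L) h0
        (fun o ho => hcon o (Finset.mem_filter.1 ho).2)
      rw [← map_prod, ← pow_mul] at h1
      exact h1.le
  by_cases hB : ∃ o₁, Scal m o₁
  · obtain ⟨o₁, ho₁⟩ := hB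
    have hOs' : Os = Finset.univ.erase o₁ := by
      ext o
      rw [hOs, Finset.mem_filter, Finset.mem_erase]
      constructor
      · rintro ⟨_, h⟩
        exact ⟨fun h0 => h (h0 ▸ ho₁), Finset.mem_univ _⟩
      · rintro ⟨h, _⟩
        exact ⟨Finset.mem_univ _, fun h0 => h (scal_unique m h0 ho₁)⟩
    have hcard : Os.card + 1 = ss m := by
      rw [hOs', Finset.card_erase_of_mem (Finset.mem_univ _), Finset.card_univ]
      have : 0 < Fintype.card (Orb m) := Fintype.card_pos_iff.2 ⟨o₁⟩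
      exact Nat.sub_add_cancel this
    -- the values at `x` and at `y`
    have hG : ∀ i, ∃ G : Polynomial OO, (LH m M).coeff i - (RH m M).coeff i = Polynomial.X ^ M * G := fun i =>
      dvd_diff m M i
    choose G hG using hG
    have hdiff : ∀ Y : K, (LH m M).eval₂ (Polynomial.eval₂RingHom (ph K) t) Y -
        (RH m M).eval₂ (Polynomial.eval₂RingHom (ph K) t) Y =
        t ^ M * ∑ i ∈ Finset.range (ss m + 1), (G i).eval₂ (ph K) t * Y ^ i := by
      intro Y
      rw [Polynomial.eval₂_eq_sum_range' _ (Nat.lt_succ_of_le (LH_natDegree m M)),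
        Polynomial.eval₂_eq_sum_range' _ (Nat.lt_succ_of_le (RH_natDegree m M)),
        Finset.mul_sum, ← Finset.sum_sub_distrib]
      refine Finset.sum_congr rfl fun i _ => ?_
      have h4 := congrArg (Polynomial.eval₂RingHom (ph K) t) (hG i)
      rw [map_sub, map_mul, map_pow] at h4
      simp only [Polynomial.coe_eval₂RingHom, Polynomial.eval₂_X] at h4 ⊢
      linear_combination (Y ^ i) * h4
    have hrelx : ∑ i ∈ Finset.range (ss m + 1), (pp m i).eval₂ (ph K) x * x ^ i = 0 := by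
      have h1 := RD_zero m ho₁
      have h2 := congrArg (Polynomial.eval₂ (ph K) x) h1
      rw [RD, Polynomial.eval₂_finsetSum, Polynomial.eval₂_zero] at h2
      rw [← h2]
      refine Finset.sum_congr rfl fun i _ => ?_
      rw [Polynomial.eval₂_mul, Polynomial.eval₂_X_pow]
    have hLzx : (LH m M).eval₂ (Polynomial.eval₂RingHom (ph K) t) x = 0 := LH_zero m M hq hrelx
    have hz1 : ph K (zo m o₁) * t ^ ko m o₁ = t ^ n := by rw [ho₁.1, ho₁.2, map_one, one_mul]
    set D := (tr dS qexp_disc_mem 1 1 M).eval₂ (ph K) (t ^ n) with hD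
    set E := (tr eS qexp_Ecube_mem 1 1 M).eval₂ (ph K) (t ^ n) with hE
    have hRH : ∀ Y : K, (RH m M).eval₂ (Polynomial.eval₂RingHom (ph K) t) Y = (D * Y - E) *
        ∏ o ∈ Os, ((tr dS qexp_disc_mem 1 1 M).eval₂ (ph K) (ph K (zo m o) * t ^ ko m o) * Y -
        (tr eS qexp_Ecube_mem 1 1 M).eval₂ (ph K) (ph K (zo m o) * t ^ ko m o)) := by
      intro Y
      rw [RH_eval, hOs', ← Finset.mul_prod_erase _ _ (Finset.mem_univ o₁), hz1]
    have hRx : (RH m M).eval₂ (Polynomial.eval₂RingHom (ph K) t) x = 0 := by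
      rw [hRH, hq, sub_self, zero_mul]
    set Ge : K → K := fun Y => ∑ i ∈ Finset.range (ss m + 1), (G i).eval₂ (ph K) t * Y ^ i with hGe
    have hGx : Ge x = 0 := by
      have h1 := hdiff x
      rw [hLzx, hRx, sub_self] at h1
      exact ((mul_eq_zero.1 h1.symm).resolve_left (pow_ne_zero _ ht0))
    set H : K := ∑ i ∈ Finset.range (ss m + 1), (G i).eval₂ (ph K) t *
      ∑ j ∈ Finset.range i, y ^ j * x ^ (i - 1 - j) with hH
    have hGy : Ge y = (y - x) * H := by
      have h1 : Ge y = Ge y - Ge x := by rw [hGx, sub_zero]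
      rw [h1, hGe, hH, Finset.mul_sum, ← Finset.sum_sub_distrib]
      refine Finset.sum_congr rfl fun i _ => ?_
      have h2 := (Commute.all y x).geom_sum₂_mul i
      linear_combination -((G i).eval₂ (ph K) t) * h2
    have hkey : D * ∏ o ∈ Os, ((tr dS qexp_disc_mem 1 1 M).eval₂ (ph K) (ph K (zo m o) * t ^ ko m o) * y -
        (tr eS qexp_Ecube_mem 1 1 M).eval₂ (ph K) (ph K (zo m o) * t ^ ko m o)) = - (t ^ M * H) := by
      have h1 := hdiff y
      rw [hLz, hRH] at h1
      have h2 : ∑ i ∈ Finset.range (ss m + 1), (G i).eval₂ (ph K) t * y ^ i = (y - x) * H := hGy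
      rw [h2] at h1
      have hyx : y - x ≠ 0 := sub_ne_zero.2 hne.symm
      apply mul_left_cancel₀ hyx
      linear_combination -h1 - (∏ o ∈ Os, ((tr dS qexp_disc_mem 1 1 M).eval₂ (ph K) (ph K (zo m o) * t ^ ko m o) * y -
        (tr eS qexp_Ecube_mem 1 1 M).eval₂ (ph K) (ph K (zo m o) * t ^ ko m o))) * hq
    have hprod : ∏ o ∈ Os, fac o = y⁻¹ ^ Os.card * ∏ o ∈ Os, ((tr dS qexp_disc_mem 1 1 M).eval₂ (ph K)
        (ph K (zo m o) * t ^ ko m o) * y -
        (tr eS qexp_Ecube_mem 1 1 M).eval₂ (ph K) (ph K (zo m o) * t ^ ko m o)) := by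
      rw [← Finset.prod_const, ← Finset.prod_mul_distrib]
      refine Finset.prod_congr rfl fun o _ => ?_
      simp only [hfac]
      field_simp
    have hHO : y⁻¹ ^ Os.card * H ∈ O := by
      rw [hH, Finset.mul_sum]
      refine O.toSubring.sum_mem fun i hi => ?_
      rw [Finset.mem_range] at hi
      have h1 : y⁻¹ ^ Os.card * ((G i).eval₂ (ph K) t * ∑ j ∈ Finset.range i, y ^ j * x ^ (i - 1 - j)) =
          (G i).eval₂ (ph K) t * ∑ j ∈ Finset.range i, y⁻¹ ^ Os.card * (y ^ j * x ^ (i - 1 - j)) := by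
        rw [← Finset.mul_sum]; ring
      rw [h1]
      refine O.toSubring.mul_mem (eval_mem O _ htO) (O.toSubring.sum_mem fun j hj => ?_)
      rw [Finset.mem_range] at hj
      rw [ValuationSubring.mem_toSubring, val_mem, map_mul, map_mul, map_pow, map_pow, map_pow, vxy, ← pow_add, map_inv₀, inv_pow]
      have hvy : 1 ≤ O.valuation y := by
        have h2 := (val_mem O).1 hyO
        rw [map_inv₀] at h2
        have hy1 : O.valuation y ≠ 0 := by rwa [ne_eq, Valuation.zero_iff]
        exact (inv_le_one₀ (zero_lt_iff.2 hy1)).1 h2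
      have hy1 : O.valuation y ≠ 0 := by rwa [ne_eq, Valuation.zero_iff]
      rw [← div_eq_inv_mul]
      refine div_le_one_of_le₀ ?_ zero_le
      exact pow_le_pow_right₀ hvy (by omega)
    have hval : O.valuation t ^ n * O.valuation (∏ o ∈ Os, fac o) ≤ O.valuation t ^ M := by
      rw [← vD, ← map_mul, hprod]
      have h1 : D * (y⁻¹ ^ Os.card * ∏ o ∈ Os, ((tr dS qexp_disc_mem 1 1 M).eval₂ (ph K)
        (ph K (zo m o) * t ^ ko m o) * y -
        (tr eS qexp_Ecube_mem 1 1 M).eval₂ (ph K) (ph K (zo m o) * t ^ ko m o))) =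
          - (t ^ M * (y⁻¹ ^ Os.card * H)) := by
        linear_combination (y⁻¹ ^ Os.card) * hkey
      rw [h1, Valuation.map_neg, map_mul, map_pow]
      calc _ ≤ O.valuation t ^ M * 1 := mul_le_mul_right ((val_mem O).1 hHO) _
        _ = _ := mul_one _
    have h1 : O.valuation t ^ (n + L * Os.card) ≤ O.valuation t ^ M := by
      rw [pow_add]
      exact (mul_le_mul_right hbig _).trans hval
    have h2 : n + L * Os.card < M := by
      rw [hM, ← hcard, add_mul, one_mul, mul_comm L]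
      omega
    exact absurd h1 (not_le.2 (pow_lt_pow_right_of_lt_one₀ vt0 vt h2))
  · have hOs' : Os = Finset.univ := by
      rw [hOs, Finset.filter_true_of_mem]
      exact fun o _ h => hB ⟨o, h⟩
    have hcard : Os.card = ss m := by rw [hOs', Finset.card_univ]
    have hsm := small_prod O m M htO hyO hw0 (by rw [inv_inv]; exact hLz)
    rw [hOs', Finset.card_univ] at hbig
    have h1 := hbig.trans hsm
    have h2 : L * Fintype.card (Orb m) < M := by
      have h3 : L * ss m < ss m * L + 3 := by rw [mul_comm]; omega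
      exact h3
    exact absurd h1 (not_le.2 (pow_lt_pow_right_of_lt_one₀ vt0 vt h2))

end core

end Pool.Agent.Helper36.ZU
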