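import Pool.Agent.Helper36.ZU.Rig1

/-! # The rigidity theorem with the diagonal removed -/

open UpperHalfPlane ModularForm Complex Filter Function
open scoped Real MatrixGroups Topology Manifold

namespace Pool.Agent.Helper36.ZU
open Pool.Agent.Helper11.ZP Pool.Agent.Helper20.ZT Pool.Agent

section core2
variable {K : Type*} [Field K] [Algebra ℂ K] (O : ValuationSubring K)

/-- **rigidity** -/
theorem rig_core2 (m : ℤ) [hm : Fact (0 < m)] [IsAlgClosed K] {x y : K}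
    (hrel : ∑ i ∈ Finset.range (ss m + 1), (pp m i).eval₂ (ph K) x * y ^ i = 0) :
    Rig2 O x y := by
  intro hx vxy
  by_cases hxy : x = y
  · exact Or.inl hxy
  right
  have hx0 : x ≠ 0 := by rintro rfl; exact hx (zero_mem O)
  have hy0 : y ≠ 0 := by
    rintro rfl
    rw [map_zero, Valuation.zero_iff] at vxy
    exact hx0 vxy
  set s := x⁻¹ with hs
  set w := y⁻¹ with hw
  have hs0 : s ≠ 0 := inv_ne_zero hx0
  have hw0 : w ≠ 0 := inv_ne_zero hy0
  have vs : O.valuation s < 1 := by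
    rw [hs, map_inv₀]
    exact inv_lt_one_of_one_lt₀ (not_le.1 fun h => hx ((val_mem O).2 h))
  have vw : O.valuation w = O.valuation s := by rw [hs, hw, map_inv₀, map_inv₀, vxy]
  have hm' := mtoNat_pos m
  set n := m.toNat with hn
  set L := n ^ 2 + 3 * n with hL
  obtain ⟨q, hq, hqe⟩ := exists_param O (ss m * L) ((val_non O).2 vs) hs0
  have vq1 := (val_non O).1 hq
  have hqO : q ∈ O := (val_mem O).2 vq1.le
  obtain ⟨e, he, hE⟩ := tr_E O (ss m * L) hqO
  obtain ⟨d, hd, hD⟩ := tr_D O (ss m * L) hqO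
  have m24 : (24 : K) ∈ O := by exact_mod_cast mem_ofNat O 24
  have m720 : (720 : K) ∈ O := by exact_mod_cast mem_ofNat O 720
  have m744 : (744 : K) ∈ O := by exact_mod_cast mem_ofNat O 744
  -- units
  have uE : ∀ r e : K, O.valuation r < 1 → e ∈ O → O.valuation (1 + 720 * r + r ^ 2 * e) = 1 := by
    intro r e hr he
    have hrO : r ∈ O := (val_mem O).2 hr.le
    rw [show 1 + 720 * r + r ^ 2 * e = 1 + r * (720 + r * e) by ring]
    exact unit_of_sub O (lt_one_mul O hr (mem_add O m720 (mem_mul O hrO he)))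
  have uD : ∀ r e : K, O.valuation r < 1 → e ∈ O → O.valuation (1 - 24 * r + r ^ 2 * e) = 1 := by
    intro r e hr he
    have hrO : r ∈ O := (val_mem O).2 hr.le
    rw [show 1 - 24 * r + r ^ 2 * e = 1 + r * (r * e - 24) by ring]
    exact unit_of_sub O (lt_one_mul O hr (mem_sub O (mem_mul O hrO he) m24))
  have vE := uE q e vq1 he
  have vD := uD q d vq1 hd
  rw [hE, hD] at hqe
  have vq : O.valuation q = O.valuation s := by
    have h1 : q * (1 - 24 * q + q ^ 2 * d) = s * (1 + 720 * q + q ^ 2 * e) := by rw [← hqe]; ring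
    have h2 := congrArg O.valuation h1
    rwa [val_mul_unit O vD, val_mul_unit O vE] at h2
  have vp0 : O.valuation s ≠ 0 := by rwa [ne_eq, Valuation.zero_iff]
  have hq0 : q ≠ 0 := by
    intro h
    rw [h, map_zero] at vq
    exact vp0 vq.symm
  obtain ⟨t, ht⟩ := IsAlgClosed.exists_pow_nat_eq q hm'
  have ht0 : t ≠ 0 := by
    rintro rfl
    rw [zero_pow hm'.ne'] at ht
    exact hq0 ht.symm
  have vt1 : O.valuation t < 1 := by
    by_contra hcon
    push Not at hcon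
    have h1 : 1 ≤ O.valuation t ^ n := one_le_pow₀ hcon
    rw [← map_pow, ht] at h1
    exact absurd vq1 (not_lt.2 h1)
  have vt0 : 0 < O.valuation t := zero_lt_iff.2 (by rwa [ne_eq, Valuation.zero_iff])
  have htO : t ∈ O := (val_mem O).2 vt1.le
  have hwO : w ∈ O := (val_mem O).2 (by rw [vw]; exact vs.le)
  -- the product
  have hmono : ∀ {a b : ℕ}, a ≤ b → O.valuation t ^ b ≤ O.valuation t ^ a := fun h =>
    pow_le_pow_right_of_le_one' vt1.le h
  obtain ⟨o, hos, ho⟩ := exists_small O m L vt1 ht0 hy0 (by rw [← hw]; exact hwO) vxy hxy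
    (by rw [hL, ← hn]; omega)
    (by rw [← hn, ht, hE, hD, hqe, hs]; field_simp)
    (by
      rw [← hn, ht, hD, ← map_pow, ht, show q - 24 * q ^ 2 + q ^ 3 * d = q * (1 - 24 * q + q ^ 2 * d) by ring,
        val_mul_unit O vD])
    hrel
  rw [← hw] at ho
  set z := ph K (zo m o) with hz
  set k := ko m o with hk
  set r := z * t ^ k with hr
  have hkpos : 0 < k := ko_pos m o
  obtain ⟨N, hN, hzN⟩ := zo_pow m o
  have hzN' : z ^ N = 1 := by rw [hz, ← map_pow, hzN, map_one]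
  have vz : O.valuation z = 1 := val_root_one O hN hzN'
  have hz0 : z ≠ 0 := by
    intro h
    rw [h, map_zero] at vz
    exact zero_ne_one vz
  have hzO : z ∈ O := (val_mem O).2 vz.le
  have vr : O.valuation r = O.valuation t ^ k := by rw [hr, map_mul, vz, one_mul, map_pow]
  have vr1 : O.valuation r < 1 := by rw [vr]; exact pow_lt_one₀ zero_le vt1 hkpos.ne'
  have hrO : r ∈ O := (val_mem O).2 vr1.le
  obtain ⟨e', he', hE'⟩ := tr_E O (ss m * L) hrO
  obtain ⟨d', hd', hD'⟩ := tr_D O (ss m * L) hrO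
  have vE' := uE r e' vr1 he'
  have vD' := uD r d' vr1 hd'
  rw [hE', hD'] at ho
  set ε := (r - 24 * r ^ 2 + r ^ 3 * d') - (1 + 720 * r + r ^ 2 * e') * w with hε
  have hkL : k < L := by
    have h1 := ko_le m o
    rw [← hn, ← hk] at h1
    rw [hL]; omega
  have hlt : O.valuation ε < O.valuation r := by
    rw [vr]
    refine lt_of_le_of_lt ho ?_
    exact pow_lt_pow_right_of_lt_one₀ vt0 vt1 hkL
  have vDr : O.valuation (r - 24 * r ^ 2 + r ^ 3 * d') = O.valuation r := by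
    rw [show r - 24 * r ^ 2 + r ^ 3 * d' = r * (1 - 24 * r + r ^ 2 * d') by ring, val_mul_unit O vD']
  have vw2 : O.valuation w = O.valuation r := by
    have h1 : w * (1 + 720 * r + r ^ 2 * e') = (r - 24 * r ^ 2 + r ^ 3 * d') + (-ε) := by rw [hε]; ring
    have h2 := congrArg O.valuation h1
    rwa [val_mul_unit O vE', val_add_of_lt O (by rwa [Valuation.map_neg, vDr]), vDr] at h2
  have hkn : k = n := by
    have h1 : O.valuation t ^ k = O.valuation t ^ n := by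
      rw [← vr, ← vw2, vw, ← vq, ← ht, map_pow]
    by_contra hne
    rcases lt_or_gt_of_ne hne with h | h
    · exact absurd h1 (ne_of_gt (pow_lt_pow_right_of_lt_one₀ vt0 vt1 h))
    · exact absurd h1 (ne_of_lt (pow_lt_pow_right_of_lt_one₀ vt0 vt1 h))
  have hrq : r = z * q := by rw [hr, hkn, ht]
  -- the error
  have hεO : ε / q ^ 3 ∈ O := by
    rw [val_mem, map_div₀, map_pow]
    have h1 : O.valuation q ^ 3 = O.valuation t ^ (3 * n) := by rw [← ht, map_pow, ← pow_mul, mul_comm]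
    rw [h1]
    have h2 : O.valuation ε ≤ O.valuation t ^ (3 * n) := ho.trans (hmono (by rw [hL]; omega))
    exact div_le_one_of_le₀ h2 zero_le
  set β := ε / q ^ 3 with hβ
  have hεβ : ε = q ^ 3 * β := by rw [hβ]; field_simp
  have hdiv : ∀ a b : K, a ∈ O → O.valuation b = 1 → a / b ∈ O := by
    intro a b ha hb
    rw [val_mem, map_div₀, hb, div_one]
    exact (val_mem O).1 ha
  -- x
  have hDne : (1 - 24 * q + q ^ 2 * d) ≠ 0 := by
    intro h; rw [h, map_zero] at vD; exact zero_ne_one vD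
  have hEne : (1 + 720 * q + q ^ 2 * e) ≠ 0 := by
    intro h; rw [h, map_zero] at vE; exact zero_ne_one vE
  have hxq : x * (q * (1 - 24 * q + q ^ 2 * d)) = 1 + 720 * q + q ^ 2 * e := by
    rw [show q * (1 - 24 * q + q ^ 2 * d) = q - 24 * q ^ 2 + q ^ 3 * d by ring, hqe, hs]
    field_simp
  set α := (e - d + 744 * 24 - 744 * q * d) / (1 - 24 * q + q ^ 2 * d) with hα
  have hαO : α ∈ O := hdiv _ _ (mem_sub O (mem_add O (mem_sub O he hd) (mem_mul O m744 m24))
    (mem_mul O (mem_mul O m744 hqO) hd)) vD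
  have hx1 : x - 744 = 1 / q + q * α := by
    have hne : q * (1 - 24 * q + q ^ 2 * d) ≠ 0 := mul_ne_zero hq0 hDne
    have hαD : α * (1 - 24 * q + q ^ 2 * d) = e - d + 744 * 24 - 744 * q * d := div_mul_cancel₀ _ hDne
    have hq1 : 1 / q * q = 1 := div_mul_cancel₀ _ hq0
    apply mul_right_cancel₀ hne
    rw [sub_mul, hxq]
    linear_combination (-(1 - 24 * q + q ^ 2 * d)) * hq1 - q ^ 2 * hαD
  -- y
  have vDz : O.valuation (z * (1 - 24 * r + r ^ 2 * d') - q ^ 2 * β) = 1 := by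
    have h1 : O.valuation (z * (1 - 24 * r + r ^ 2 * d')) = 1 := by rw [val_mul_unit O vD', vz]
    rw [sub_eq_add_neg, val_add_of_lt O, h1]
    rw [h1, Valuation.map_neg]
    rw [show q ^ 2 * β = q * (q * β) by ring]
    exact lt_one_mul O vq1 (mem_mul O hqO hεO)
  have hDzne : (z * (1 - 24 * r + r ^ 2 * d') - q ^ 2 * β) ≠ 0 := by
    intro h; rw [h, map_zero] at vDz; exact zero_ne_one vDz
  have hyq : y * (q * (z * (1 - 24 * r + r ^ 2 * d') - q ^ 2 * β)) = 1 + 720 * r + r ^ 2 * e' := by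
    have h1 : (1 + 720 * r + r ^ 2 * e') * w = q * (z * (1 - 24 * r + r ^ 2 * d') - q ^ 2 * β) := by
      have h2 : (1 + 720 * r + r ^ 2 * e') * w = (r - 24 * r ^ 2 + r ^ 3 * d') - q ^ 3 * β := by
        rw [← hεβ, hε]; ring
      rw [h2]
      linear_combination (1 - 24 * r + r ^ 2 * d') * hrq
    rw [← h1, hw]
    field_simp
  set γ := (z ^ 3 * (e' - d' + 744 * 24 - 744 * r * d') + (1 + 744 * r) * β) /
    (z * (z * (1 - 24 * r + r ^ 2 * d') - q ^ 2 * β)) with hγ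
  have hγO : γ ∈ O := by
    refine hdiv _ _ (mem_add O (mem_mul O (mem_pow O hzO _) (mem_sub O (mem_add O (mem_sub O he' hd')
      (mem_mul O m744 m24)) (mem_mul O (mem_mul O m744 hrO) hd'))) (mem_mul O (mem_add O (one_mem O)
      (mem_mul O m744 hrO)) hεO)) ?_
    rw [map_mul, vz, vDz, one_mul]
  have hy1 : y - 744 = 1 / (z * q) + q * γ := by
    have hne : z * (q * (z * (1 - 24 * r + r ^ 2 * d') - q ^ 2 * β)) ≠ 0 :=
      mul_ne_zero hz0 (mul_ne_zero hq0 hDzne)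
    have hγD : γ * (z * (z * (1 - 24 * r + r ^ 2 * d') - q ^ 2 * β)) =
        z ^ 3 * (e' - d' + 744 * 24 - 744 * r * d') + (1 + 744 * r) * β :=
      div_mul_cancel₀ _ (mul_ne_zero hz0 hDzne)
    have hq1 : 1 / (z * q) * (z * q) = 1 := div_mul_cancel₀ _ (mul_ne_zero hz0 hq0)
    apply mul_right_cancel₀ hne
    linear_combination z * hyq - (z * (1 - 24 * r + r ^ 2 * d') - q ^ 2 * β) * hq1 - q ^ 2 * hγD +
      (744 * (z * (1 - 24 * r + r ^ 2 * d') - q ^ 2 * β) +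
        z * (r + z * q) * (e' - d' + 744 * 24 - 744 * r * d')) * hrq
  have hz1 : z ≠ 1 := by
    intro h0
    apply hos
    refine ⟨?_, hkn⟩
    have hinj : Function.Injective (ph K) :=
      (algebraMap ℂ K).injective.comp (FaithfulSMul.algebraMap_injective OO ℂ)
    apply hinj
    rw [map_one]
    exact h0
  refine ⟨N, z⁻¹, hN, by rw [inv_pow, hzN', inv_one], fun h0 => hz1 (inv_eq_one.1 h0), ?_⟩
  have hzi : z⁻¹ ∈ O := by rw [val_mem, map_inv₀, vz, inv_one]
  have h1 : y - z⁻¹ * x = 744 * (1 - z⁻¹) + q * (γ - z⁻¹ * α) := by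
    have e1 : x = 744 + (1 / q + q * α) := by rw [← hx1]; ring
    have e2 : y = 744 + (1 / (z * q) + q * γ) := by rw [← hy1]; ring
    rw [e1, e2]
    field_simp
    ring
  rw [h1]
  exact mem_add O (mem_mul O m744 (mem_sub O (one_mem O) hzi)) (mem_mul O hqO (mem_sub O hγO (mem_mul O hzi hαO)))

end core2

/-- the modular equation, with rigidity -/
theorem exists_modular_equation_rig2 {m : ℤ} (hm : 0 < m) :
    ∃ P : Polynomial (Polynomial OO), P.Monic ∧
      (∀ (A : DM m) (τ : ℍ), P.eval₂ (evO (jInv τ)) (jInv (toGL hm A • τ)) = 0) ∧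
      ∀ (K : Type) [Field K] [IsAlgClosed K] [Algebra ℂ K] (O : ValuationSubring K), ∀ x y : K,
        P.eval₂ (Polynomial.eval₂RingHom ((algebraMap ℂ K).comp (algebraMap OO ℂ)) x) y = 0 →
        Rig2 O x y := by
  have : Fact (0 < m) := ⟨hm⟩
  obtain ⟨c, ⟨hc, hc', hc0⟩, hg⟩ := pp_top_unit m
  have htop : pp m (ss m) = Polynomial.C (⟨c, hc⟩ : OO) := by
    obtain ⟨c₁, hc₁⟩ := pp_top m
    rw [hc₁]
    congr 1
    apply Subtype.ext
    have h1 := pp_eval m (ss m) UpperHalfPlane.I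
    rw [hg, hc₁, Polynomial.eval₂_C] at h1
    exact (mul_left_cancel₀ (pow_ne_zero _ (discriminant_ne_zero _)) h1).symm
  let Q : Polynomial (Polynomial OO) :=
    ∑ i ∈ Finset.range (ss m), Polynomial.C (Polynomial.C (⟨c⁻¹, hc'⟩ : OO) * pp m i) * Polynomial.X ^ i
  have hQ : Q.degree < (ss m : ℕ) := by
    refine (Polynomial.degree_sum_le _ _).trans_lt ?_
    rw [Finset.sup_lt_iff (WithBot.bot_lt_coe _)]
    intro i hi
    refine (Polynomial.degree_C_mul_X_pow_le _ _).trans_lt ?_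
    exact_mod_cast Finset.mem_range.1 hi
  refine ⟨Polynomial.X ^ (ss m) + Q, Polynomial.monic_X_pow_add hQ, fun A τ => ?_, ?_⟩
  · have h := sum_root m A τ
    rw [Finset.sum_range_succ, hg] at h
    rw [Polynomial.eval₂_add, Polynomial.eval₂_X_pow, Polynomial.eval₂_finsetSum]
    have h1 : ∀ i ∈ Finset.range (ss m),
        (Polynomial.C (Polynomial.C (⟨c⁻¹, hc'⟩ : OO) * pp m i) * Polynomial.X ^ i).eval₂
          (evO (jInv τ)) (jInv (toGL hm A • τ))
        = (c * ModularForm.discriminant τ ^ (ss m))⁻¹ * (g m i τ * jInv (toGL hm A • τ) ^ i) := by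
      intro i _
      rw [Polynomial.eval₂_mul, Polynomial.eval₂_C, Polynomial.eval₂_X_pow, map_mul, pp_eval]
      have h2 : evO (jInv τ) (Polynomial.C (⟨c⁻¹, hc'⟩ : OO)) = c⁻¹ := by
        rw [evO, Polynomial.coe_eval₂RingHom, Polynomial.eval₂_C]; rfl
      have h3 : evO (jInv τ) (pp m i) = (pp m i).eval₂ (algebraMap OO ℂ) (jInv τ) := rfl
      rw [h2, h3]
      have hD := pow_ne_zero (ss m) (discriminant_ne_zero τ)
      field_simp
    rw [Finset.sum_congr rfl h1, ← Finset.mul_sum]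
    have hD := pow_ne_zero (ss m) (discriminant_ne_zero τ)
    have h4 : ∑ i ∈ Finset.range (ss m), g m i τ * jInv (toGL hm A • τ) ^ i =
        -(ModularForm.discriminant τ ^ (ss m) * c * jInv (toGL hm A • τ) ^ (ss m)) := by
      linear_combination h
    rw [h4]
    field_simp
    ring
  · intro K _ _ _ O x y h
    refine rig_core2 O m ?_
    have hcK : ph K (⟨c⁻¹, hc'⟩ : OO) ≠ 0 := by
      change algebraMap ℂ K c⁻¹ ≠ 0
      rw [ne_eq, map_eq_zero]
      exact inv_ne_zero hc0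
    apply mul_left_cancel₀ hcK
    rw [mul_zero, ← h, Polynomial.eval₂_add, Polynomial.eval₂_X_pow, Polynomial.eval₂_finsetSum,
      Finset.sum_range_succ, htop, Polynomial.eval₂_C, mul_add, Finset.mul_sum]
    have h1 : ph K (⟨c⁻¹, hc'⟩ : OO) * (ph K (⟨c, hc⟩ : OO) * y ^ ss m) = y ^ ss m := by
      have h2 : ph K (⟨c⁻¹, hc'⟩ : OO) * ph K (⟨c, hc⟩ : OO) = 1 := by
        change algebraMap ℂ K c⁻¹ * algebraMap ℂ K c = 1
        rw [← map_mul, inv_mul_cancel₀ hc0, map_one]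
      rw [← mul_assoc, h2, one_mul]
    rw [h1, add_comm]
    congr 1
    refine Finset.sum_congr rfl fun i _ => ?_
    rw [Polynomial.eval₂_mul, Polynomial.eval₂_C, Polynomial.eval₂_X_pow, map_mul,
      Polynomial.coe_eval₂RingHom, Polynomial.eval₂_C]
    ring

/-- Two points `j(g₁τ)`, `j(g₂τ)` satisfy a monic integral equation depending only on the
matrices, which is rigid. -/
theorem exists_relation_rig2 (g₁ g₂ : Matrix (Fin 2) (Fin 2) ℤ) (h₁ : 0 < g₁.det) (h₂ : 0 < g₂.det) :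
    ∃ P : Polynomial (Polynomial OO), P.Monic ∧
      (∀ τ τ₁ τ₂ : ℍ, (τ₁ : ℂ) * (g₁ 1 0 * (τ : ℂ) + g₁ 1 1) = g₁ 0 0 * (τ : ℂ) + g₁ 0 1 →
        (τ₂ : ℂ) * (g₂ 1 0 * (τ : ℂ) + g₂ 1 1) = g₂ 0 0 * (τ : ℂ) + g₂ 0 1 →
        P.eval₂ (evO (jInv τ₂)) (jInv τ₁) = 0) ∧
      ∀ (K : Type) [Field K] [IsAlgClosed K] [Algebra ℂ K] (O : ValuationSubring K), ∀ x y : K,
        P.eval₂ (Polynomial.eval₂RingHom ((algebraMap ℂ K).comp (algebraMap OO ℂ)) x) y = 0 →
        Rig2 O x y := by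
  have hdet : (g₁ * g₂.adjugate).det = g₁.det * g₂.det := by
    rw [Matrix.det_mul, Matrix.det_adjugate]
    simp
  have hm : 0 < g₁.det * g₂.det := mul_pos h₁ h₂
  obtain ⟨P, hP, hP2, hP3⟩ := exists_modular_equation_rig2 hm
  refine ⟨P, hP, fun τ τ₁ τ₂ e₁ e₂ => ?_, hP3⟩
  have key := hP2 ⟨g₁ * g₂.adjugate, hdet⟩ τ₂
  rwa [toGL_smul_eq hm ⟨g₁ * g₂.adjugate, hdet⟩ τ₂ τ₁] at key
  have hd2 : (g₂ 1 0 * (τ : ℂ) + g₂ 1 1) ≠ 0 := by
    have := denom_ne_zero (toGL h₂ (⟨g₂, rfl⟩ : DM g₂.det)) τ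
    change ((((g₂ 1 0 : ℤ) : ℝ) : ℂ) * (τ : ℂ) + (((g₂ 1 1 : ℤ) : ℝ) : ℂ)) ≠ 0 at this
    simpa using this
  apply mul_left_cancel₀ hd2
  have a00 : (g₁ * g₂.adjugate) 0 0 = g₁ 0 0 * g₂ 1 1 - g₁ 0 1 * g₂ 1 0 := by
    simp [Matrix.mul_apply, Fin.sum_univ_two, Matrix.adjugate_fin_two]; ring
  have a01 : (g₁ * g₂.adjugate) 0 1 = - g₁ 0 0 * g₂ 0 1 + g₁ 0 1 * g₂ 0 0 := by
    simp [Matrix.mul_apply, Fin.sum_univ_two, Matrix.adjugate_fin_two]
  have a10 : (g₁ * g₂.adjugate) 1 0 = g₁ 1 0 * g₂ 1 1 - g₁ 1 1 * g₂ 1 0 := by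
    simp [Matrix.mul_apply, Fin.sum_univ_two, Matrix.adjugate_fin_two]; ring
  have a11 : (g₁ * g₂.adjugate) 1 1 = - g₁ 1 0 * g₂ 0 1 + g₁ 1 1 * g₂ 0 0 := by
    simp [Matrix.mul_apply, Fin.sum_univ_two, Matrix.adjugate_fin_two]
  simp only [a00, a01, a10, a11]
  push_cast
  linear_combination
    ((g₂ 0 0 : ℂ) * (g₂ 1 1) - (g₂ 0 1) * (g₂ 1 0)) * e₁ +
    ((τ₁ : ℂ) * ((g₁ 1 0 : ℂ) * g₂ 1 1 - g₁ 1 1 * g₂ 1 0) - ((g₁ 0 0 : ℂ) * g₂ 1 1 - g₁ 0 1 * g₂ 1 0)) * e₂

end Pool.Agent.Helper36.ZU
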